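import Mathlib

/-!
# The free-by-cyclic group `G = F₄ ⋊ ℤ = ⟨t, s, z, a | [t, s⁻¹ t s] = [s, z] = [a, t] = 1⟩`
-/

namespace Pool.Agent.DIST

open FreeGroup

/-- The free-by-cyclic group `F_r ⋊ ℤ`. -/
abbrev FreeByCyclic (r : ℕ) (φ : MulAut (FreeGroup (Fin r))) : Type :=
  FreeGroup (Fin r) ⋊[zpowersHom (MulAut (FreeGroup (Fin r))) φ] Multiplicative ℤ

/-- `φ : x ↦ x, w ↦ w x, z ↦ (w x)⁻¹ z (w x), a ↦ a`. -/
def phiHom : FreeGroup (Fin 4) →* FreeGroup (Fin 4) :=
  FreeGroup.lift ![of 0, of 1 * of 0, (of 1 * of 0)⁻¹ * of 2 * (of 1 * of 0), of 3]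

/-- The inverse of `φ`. -/
def psiHom : FreeGroup (Fin 4) →* FreeGroup (Fin 4) :=
  FreeGroup.lift ![of 0, of 1 * (of 0)⁻¹, of 1 * of 2 * (of 1)⁻¹, of 3]

/-- The automorphism `φ`. -/
def phi : MulAut (FreeGroup (Fin 4)) :=
  MonoidHom.toMulEquiv phiHom psiHom
    (by
      refine FreeGroup.ext_hom _ _ fun i => ?_
      fin_cases i <;> simp [phiHom, psiHom] <;> group)
    (by
      refine FreeGroup.ext_hom _ _ fun i => ?_
      fin_cases i <;> simp [phiHom, psiHom] <;> group)

theorem phi_apply (g : FreeGroup (Fin 4)) : phi g = phiHom g := rfl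

/-- The group `G`. -/
abbrev G : Type := FreeByCyclic 4 phi

namespace G

/-- The generator `t` of `ℤ`. -/
def t : G := SemidirectProduct.inr (Multiplicative.ofAdd 1)

/-- The generator `x`. -/
def x : G := SemidirectProduct.inl (of 0)

/-- The generator `w`. -/
def w : G := SemidirectProduct.inl (of 1)

/-- The generator `z`. -/
def z : G := SemidirectProduct.inl (of 2)

/-- The generator `a`. -/
def a : G := SemidirectProduct.inl (of 3)

/-- `s = t w`. -/
def s : G := t * w

/-- `t' = t x`. -/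
def t' : G := t * x

theorem t_conj (g : FreeGroup (Fin 4)) :
    t * SemidirectProduct.inl g * t⁻¹ = (SemidirectProduct.inl (phi g) : G) := by
  have := SemidirectProduct.inl_aut (φ := zpowersHom (MulAut (FreeGroup (Fin 4))) phi)
    (Multiplicative.ofAdd 1) g
  rw [MonoidHom.map_inv] at this
  rw [t, ← this]
  simp

theorem t_x : t * x = x * t := by
  have := t_conj (of 0)
  rw [phi_apply] at this
  simp only [phiHom, FreeGroup.lift_apply_of] at this
  exact mul_inv_eq_iff_eq_mul.1 this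

theorem t_w : t * w * t⁻¹ = w * x := by
  have := t_conj (of 1)
  rw [phi_apply] at this
  simp only [phiHom, FreeGroup.lift_apply_of] at this
  simpa [map_mul, w, x] using this

theorem t_z : t * z * t⁻¹ = (w * x)⁻¹ * z * (w * x) := by
  have := t_conj (of 2)
  rw [phi_apply] at this
  simp only [phiHom, FreeGroup.lift_apply_of] at this
  simpa [map_mul, w, x, z] using this

theorem t_a : t * a = a * t := by
  have := t_conj (of 3)
  rw [phi_apply] at this
  simp only [phiHom, FreeGroup.lift_apply_of] at this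
  exact mul_inv_eq_iff_eq_mul.1 this

theorem s_t' : s * t' = t * s := by
  have h := mul_inv_eq_iff_eq_mul.1 t_w
  rw [s, t', ← mul_assoc, mul_assoc t w t, mul_assoc t (w * t) x, mul_assoc w t x, t_x,
    ← mul_assoc w x t, ← h]

theorem t_t' : t * t' = t' * t := by
  rw [t', mul_assoc, t_x]

theorem s_z : s * z = z * s := by
  have h := mul_inv_eq_iff_eq_mul.1 t_w
  have h2 := mul_inv_eq_iff_eq_mul.1 t_z
  -- `s = w x t`
  have h3 : s = w * x * t := by rw [s, h]
  rw [h3, mul_assoc _ t z, h2]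
  group

/-- Homomorphisms out of `G`. -/
theorem exists_hom {P : Type*} [Group P] (T S Z A : P) (h1 : Commute T (S⁻¹ * T * S))
    (h2 : Commute S Z) (h3 : Commute T A) :
    ∃ F : G →* P, F t = T ∧ F s = S ∧ F z = Z ∧ F a = A := by
  let W : P := T⁻¹ * S
  let X : P := T⁻¹ * (S⁻¹ * T * S)
  let f1 : FreeGroup (Fin 4) →* P := FreeGroup.lift ![X, W, Z, A]
  have hX : T * X * T⁻¹ = X := by
    show T * (T⁻¹ * (S⁻¹ * T * S)) * T⁻¹ = T⁻¹ * (S⁻¹ * T * S)
    rw [mul_inv_cancel_left]
    exact (h1.inv_left.eq).symm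
  have hWX : W * X = S * T⁻¹ := by
    show T⁻¹ * S * (T⁻¹ * (S⁻¹ * T * S)) = S * T⁻¹
    have := h1.inv_left.eq
    rw [this]
    group
  have hW : T * W * T⁻¹ = W * X := by
    rw [hWX]
    show T * (T⁻¹ * S) * T⁻¹ = _
    rw [mul_inv_cancel_left]
  have hZ : T * Z * T⁻¹ = (W * X)⁻¹ * Z * (W * X) := by
    rw [hWX, mul_inv_rev, inv_inv]
    have := h2.inv_left.eq
    have h : S⁻¹ * Z * S = Z := by rw [this, inv_mul_cancel_right]
    calc T * Z * T⁻¹ = T * (S⁻¹ * Z * S) * T⁻¹ := by rw [h]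
      _ = _ := by group
  have hA : T * A * T⁻¹ = A := by rw [h3.eq, mul_inv_cancel_right]
  have key : ∀ g, f1 (phi g) = T * f1 g * T⁻¹ := by
    have : f1.comp phiHom = (MulAut.conj T).toMonoidHom.comp f1 := by
      refine FreeGroup.ext_hom _ _ fun i => ?_
      fin_cases i
      · simpa [f1, phiHom] using hX.symm
      · simpa [f1, phiHom] using hW.symm
      · simpa [f1, phiHom, mul_assoc] using hZ.symm
      · simpa [f1, phiHom] using hA.symm
    intro g
    exact DFunLike.congr_fun this g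
  have keyn : ∀ n : ℤ, ∀ g, f1 ((phi ^ n) g) = T ^ n * f1 g * (T ^ n)⁻¹ := by
    intro n
    induction n using Int.induction_on with
    | zero => intro g; simp
    | succ n ih =>
      intro g
      rw [add_comm, zpow_add, zpow_one, MulAut.mul_apply, key, ih, zpow_add, zpow_one]
      group
    | pred n ih =>
      intro g
      have h := ih ((phi⁻¹) g)
      have e1 : phi ((phi ^ (-(n : ℤ) - 1)) g) = (phi ^ (-(n : ℤ))) g := by
        rw [← MulAut.mul_apply]
        congr 1
        rw [← zpow_one_add]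
        congr 1
        ring
      have e2 := key ((phi ^ (-(n : ℤ) - 1)) g)
      rw [e1, ih] at e2
      have e3 : f1 ((phi ^ (-(n : ℤ) - 1)) g) = T⁻¹ * (T ^ (-(n : ℤ)) * f1 g * (T ^ (-(n : ℤ)))⁻¹) * T := by
        rw [e2]
        group
      rw [e3]
      group
  let f2 : Multiplicative ℤ →* P := zpowersHom P T
  refine ⟨SemidirectProduct.lift f1 f2 ?_, ?_, ?_, ?_, ?_⟩
  · intro n
    refine MonoidHom.ext fun g => ?_
    have := keyn (Multiplicative.toAdd n) g
    rw [← MulAut.conj_apply, map_zpow] at this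
    simpa [f2] using this
  · simp [t, f2]
  · simp [s, t, w, f1, f2, W]
  · simp [z, f1]
  · simp [a, f1]

end G

end Pool.Agent.DIST
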