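import Pool.Agent.DIST.Net
import Pool.Agent.DIST.Grp
import Pool.Agent.helper12.FD.Wl

/-!
# The action of `G` on the points of a network and the subgroup `H`
-/

namespace Pool.Agent.DIST

open Pool.Agent.helper12.FD

namespace Net

variable (N : Net)

/-- The set of `t`-orbits. -/
abbrev Om : Type := Σ v, Fin (N.q v)

instance : DecidableEq N.Om := inferInstance

/-- there is a cyclic permutation of the `t`-orbits -/
theorem exists_rot : ∃ f : Equiv.Perm N.Om, ∀ ω ω' : N.Om, ∃ i : ℕ, (f ^ i) ω = ω' := by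
  classical
  obtain ⟨f, hf, -⟩ := Finset.exists_cycleOn (Finset.univ : Finset N.Om)
  refine ⟨f, fun ω ω' => ?_⟩
  obtain ⟨n, -, hn⟩ := hf.exists_pow_eq (a := ω) (b := ω') (by simp) (by simp)
  exact ⟨n, hn⟩

/-- A cyclic permutation of the `t`-orbits. -/
noncomputable def rot : Equiv.Perm N.Om := N.exists_rot.choose

theorem rot_spec (ω ω' : N.Om) : ∃ i : ℕ, (N.rot ^ i) ω = ω' := N.exists_rot.choose_spec ω ω'

/-- The action of `a`. -/
noncomputable def A : Equiv.Perm N.X :=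
  (coord N.q N.hq).trans ((Equiv.prodCongr N.rot (Equiv.refl ℤ)).trans (coord N.q N.hq).symm)

/-- coordinates -/
def cq (x : N.X) : N.Om × ℤ := coord N.q N.hq x

theorem cq_inj {x y : N.X} (h : N.cq x = N.cq y) : x = y := (coord N.q N.hq).injective h

theorem cq_T (x : N.X) : N.cq (N.T x) = ((N.cq x).1, (N.cq x).2 + 1) := by
  have := coord_add N.q N.hq x.1 x.2 1
  rw [mul_one] at this
  exact this

theorem cq_A (x : N.X) : N.cq (N.A x) = (N.rot (N.cq x).1, (N.cq x).2) := by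
  show coord N.q N.hq ((coord N.q N.hq).symm _) = _
  rw [Equiv.apply_symm_apply]
  rfl

theorem cq_T_zpow (k : ℤ) (x : N.X) : N.cq ((N.T ^ k) x) = ((N.cq x).1, (N.cq x).2 + k) := by
  induction k using Int.induction_on generalizing x with
  | zero => simp
  | succ n ih =>
    rw [add_comm, zpow_add, zpow_one, Equiv.Perm.mul_apply, cq_T, ih]
    simp [add_comm, add_left_comm, add_assoc]
  | pred n ih =>
    have h := cq_T N ((N.T ^ (-(n : ℤ) - 1)) x)
    rw [← Equiv.Perm.mul_apply, ← zpow_one_add, add_sub_cancel, ih] at h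
    obtain ⟨h1, h2⟩ := Prod.mk.inj h
    refine Prod.ext h1.symm ?_
    linarith

theorem cq_A_pow (k : ℕ) (x : N.X) : N.cq ((N.A ^ k) x) = ((N.rot ^ k) (N.cq x).1, (N.cq x).2) := by
  induction k with
  | zero => simp
  | succ n ih =>
    rw [pow_succ', Equiv.Perm.mul_apply, cq_A, ih, pow_succ', Equiv.Perm.mul_apply]

theorem T_A : Commute N.T N.A := by
  refine Equiv.ext fun x => N.cq_inj ?_
  rw [Equiv.Perm.mul_apply, Equiv.Perm.mul_apply, cq_T, cq_A, cq_A, cq_T]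

theorem S_conj : N.S⁻¹ * N.T * N.S = N.T' := by
  rw [mul_assoc, ← N.S_T', inv_mul_cancel_left]

/-- The group in which the words are measured. -/
abbrev P : Type := Equiv.Perm N.X × Multiplicative ℤ

theorem exists_act : ∃ F : G →* N.P, F G.t = (N.T, 1) ∧ F G.s = (N.S, Multiplicative.ofAdd 1) ∧
    F G.z = 1 ∧ F G.a = (N.A, 1) := by
  refine G.exists_hom _ _ _ _ ?_ (Commute.one_right _) ?_
  · refine Prod.ext ?_ ?_
    · show N.T * (N.S⁻¹ * N.T * N.S) = (N.S⁻¹ * N.T * N.S) * N.T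
      rw [S_conj, T_T']
    · simp
  · exact Prod.ext N.T_A (by simp)

/-- The action of `G` on the points, together with the exponent sum of `s`. -/
noncomputable def act : G →* N.P := N.exists_act.choose

theorem act_t : N.act G.t = (N.T, 1) := N.exists_act.choose_spec.1
theorem act_s : N.act G.s = (N.S, Multiplicative.ofAdd 1) := N.exists_act.choose_spec.2.1
theorem act_z : N.act G.z = 1 := N.exists_act.choose_spec.2.2.1
theorem act_a : N.act G.a = (N.A, 1) := N.exists_act.choose_spec.2.2.2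

theorem act_t' : N.act G.t' = (N.T', 1) := by
  have h : G.t' = G.s⁻¹ * G.t * G.s := by rw [mul_assoc, ← G.s_t', inv_mul_cancel_left]
  rw [h, map_mul, map_mul, map_inv, act_s, act_t]
  refine Prod.ext ?_ ?_
  · exact N.S_conj
  · simp

variable (x0 : N.X)

/-- number of letters `a` needed to reach the `t`-orbit `ω` -/
noncomputable def ent (ω : N.Om) : ℕ :=
  if ω = (N.cq x0).1 then 0 else (N.rot_spec (N.cq x0).1 ω).choose

theorem ent_spec (ω : N.Om) : (N.rot ^ (N.ent x0 ω)) (N.cq x0).1 = ω := by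
  unfold ent
  split_ifs with h
  · simp [h]
  · exact (N.rot_spec (N.cq x0).1 ω).choose_spec

/-- an element of `G` which maps the base point `x0` to `x` -/
noncomputable def rep (x : N.X) : G :=
  G.t ^ ((N.cq x).2 - (N.cq x0).2) * G.a ^ (N.ent x0 (N.cq x).1)

theorem rep_base : N.rep x0 x0 = 1 := by simp [rep, ent]

theorem act_rep_fst (x : N.X) : (N.act (N.rep x0 x)).1 x0 = x := by
  rw [rep, map_mul, map_zpow, map_pow, act_t, act_a]
  apply N.cq_inj
  have h1 : ∀ k : ℤ, (((N.T, 1) : N.P) ^ k).1 = N.T ^ k := fun k =>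
    map_zpow (MonoidHom.fst (Equiv.Perm N.X) (Multiplicative ℤ)) (N.T, 1) k
  have h2 : ∀ k : ℕ, (((N.A, 1) : N.P) ^ k).1 = N.A ^ k := fun k =>
    map_pow (MonoidHom.fst (Equiv.Perm N.X) (Multiplicative ℤ)) (N.A, 1) k
  rw [Prod.fst_mul, h1, h2, Equiv.Perm.mul_apply, cq_T_zpow, cq_A_pow, ent_spec]
  simp

theorem act_rep_snd (x : N.X) : (N.act (N.rep x0 x)).2 = 1 := by
  rw [rep, map_mul, map_zpow, map_pow, act_t, act_a]
  simp

theorem rep_T_zpow (k : ℤ) (x : N.X) : N.rep x0 ((N.T ^ k) x) = G.t ^ k * N.rep x0 x := by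
  rw [rep, rep, cq_T_zpow, ← mul_assoc, ← zpow_add]
  congr 2
  simp only
  ring

/-- generators of the first kind -/
noncomputable def gS (i : Σ v, Fin (N.p v)) : G :=
  (N.rep x0 (N.S (i.1, ((i.2 : ℕ) : ℤ))))⁻¹ * G.s * N.rep x0 (i.1, ((i.2 : ℕ) : ℤ))

/-- generators of the second kind -/
noncomputable def gT (i : N.Om) : G :=
  (N.rep x0 (N.T' (i.1, ((i.2 : ℕ) : ℤ))))⁻¹ * G.t' * N.rep x0 (i.1, ((i.2 : ℕ) : ℤ))

/-- The generators of `H₀`. -/
noncomputable def Y : Set G := Set.range (N.gS x0) ∪ Set.range (N.gT x0)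

theorem Y_finite : (N.Y x0).Finite := (Set.finite_range _).union (Set.finite_range _)

/-- The subgroup `H₀`. -/
noncomputable def H0 : Subgroup G := Subgroup.closure (N.Y x0)

/-- The subgroup `H = ⟨H₀, z⟩`. -/
noncomputable def H : Subgroup G := Subgroup.closure (insert G.z (N.Y x0))

theorem exists_T (x : N.X) : ∃ (i : N.Om) (k : ℤ), x = (N.T ^ k) (i.1, ((i.2 : ℕ) : ℤ)) := by
  refine ⟨(N.cq x).1, (N.cq x).2, N.cq_inj ?_⟩
  rw [cq_T_zpow]
  have h : N.cq ((N.cq x).1.1, (((N.cq x).1.2 : ℕ) : ℤ)) = ((N.cq x).1, 0) := by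
    have := coord_apply N.q N.hq (N.cq x).1.1 (N.cq x).1.2 0
    rw [mul_zero, zero_add] at this
    exact this
  rw [h]
  simp

theorem T'_zpow_apply (k : ℤ) (x : N.X) : (N.T' ^ k) x = (x.1, x.2 + N.p x.1 * k) := by
  induction k using Int.induction_on generalizing x with
  | zero => simp
  | succ n ih =>
    rw [add_comm, zpow_add, zpow_one, Equiv.Perm.mul_apply, T'_apply, ih]
    refine Prod.ext rfl ?_
    simp only
    ring
  | pred n ih =>
    have h := T'_apply N ((N.T' ^ (-(n : ℤ) - 1)) x)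
    rw [← Equiv.Perm.mul_apply, ← zpow_one_add, add_sub_cancel, ih] at h
    obtain ⟨h1, h2⟩ := Prod.mk.inj h
    have h1' : ((N.T' ^ (-(n : ℤ) - 1)) x).1 = x.1 := h1.symm
    refine Prod.ext h1' ?_
    rw [h1'] at h2
    simp only
    linarith

theorem exists_T' (x : N.X) : ∃ (i : Σ v, Fin (N.p v)) (k : ℤ),
    x = (N.T' ^ k) (i.1, ((i.2 : ℕ) : ℤ)) := by
  obtain ⟨y, rfl⟩ := (coord N.p N.hp).symm.surjective x
  refine ⟨y.1, y.2, ?_⟩
  rw [coord_symm_apply, T'_zpow_apply]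
  refine Prod.ext rfl ?_
  simp only
  ring

theorem T_T'_comm : Commute N.T N.T' := N.T_T'

theorem stepT' (x : N.X) : (N.rep x0 (N.T' x))⁻¹ * G.t' * N.rep x0 x ∈ N.H0 x0 := by
  obtain ⟨i, k, rfl⟩ := N.exists_T x
  have h1 : N.T' ((N.T ^ k) (i.1, ((i.2 : ℕ) : ℤ))) = (N.T ^ k) (N.T' (i.1, ((i.2 : ℕ) : ℤ))) := by
    rw [← Equiv.Perm.mul_apply, ← Equiv.Perm.mul_apply, (N.T_T'_comm.zpow_left k).eq]
  have h2 : Commute (G.t ^ k) G.t' := (show Commute G.t G.t' from G.t_t').zpow_left k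
  rw [h1, rep_T_zpow, rep_T_zpow]
  have h3 : (G.t ^ k * N.rep x0 (N.T' (i.1, ((i.2 : ℕ) : ℤ))))⁻¹ * G.t' *
      (G.t ^ k * N.rep x0 (i.1, ((i.2 : ℕ) : ℤ))) = N.gT x0 i := by
    rw [gT, mul_inv_rev, mul_assoc, mul_assoc, ← mul_assoc G.t' (G.t ^ k), ← h2.eq,
      mul_assoc, inv_mul_cancel_left, mul_assoc]
  rw [h3]
  exact Subgroup.subset_closure (Or.inr ⟨i, rfl⟩)

theorem stepT'_pow (k : ℕ) (x : N.X) :
    (N.rep x0 ((N.T' ^ k) x))⁻¹ * G.t' ^ k * N.rep x0 x ∈ N.H0 x0 := by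
  induction k with
  | zero => simp
  | succ n ih =>
    have h := mul_mem (N.stepT' x0 ((N.T' ^ n) x)) ih
    rw [pow_succ', Equiv.Perm.mul_apply, pow_succ']
    convert h using 1
    group

theorem stepT'_zpow (k : ℤ) (x : N.X) :
    (N.rep x0 ((N.T' ^ k) x))⁻¹ * G.t' ^ k * N.rep x0 x ∈ N.H0 x0 := by
  obtain ⟨n, rfl | rfl⟩ := k.eq_nat_or_neg
  · simpa using N.stepT'_pow x0 n x
  · have h := inv_mem (N.stepT'_pow x0 n ((N.T' ^ (-(n : ℤ))) x))
    have e : (N.T' ^ n) ((N.T' ^ (-(n : ℤ))) x) = x := by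
      rw [← Equiv.Perm.mul_apply, ← zpow_natCast, ← zpow_add]
      simp
    rw [e] at h
    convert h using 1
    simp only [mul_inv_rev, inv_inv, zpow_neg, zpow_natCast]
    group

theorem stepS (x : N.X) : (N.rep x0 (N.S x))⁻¹ * G.s * N.rep x0 x ∈ N.H0 x0 := by
  obtain ⟨i, k, rfl⟩ := N.exists_T' x
  have hc : ∀ k : ℤ, N.S * N.T' ^ k = N.T ^ k * N.S := by
    intro k
    have h : SemiconjBy N.S N.T' N.T := N.S_T'
    exact (h.zpow_right k).eq
  have hc' : ∀ k : ℤ, G.s * G.t' ^ k = G.t ^ k * G.s := by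
    intro k
    have h : SemiconjBy G.s G.t' G.t := G.s_t'
    exact (h.zpow_right k).eq
  have h1 : N.S ((N.T' ^ k) (i.1, ((i.2 : ℕ) : ℤ))) = (N.T ^ k) (N.S (i.1, ((i.2 : ℕ) : ℤ))) := by
    rw [← Equiv.Perm.mul_apply, ← Equiv.Perm.mul_apply, hc]
  rw [h1, rep_T_zpow]
  have h2 : N.gS x0 i ∈ N.H0 x0 := Subgroup.subset_closure (Or.inl ⟨i, rfl⟩)
  have h3 := inv_mem (N.stepT'_zpow x0 k (i.1, ((i.2 : ℕ) : ℤ)))
  have h4 := mul_mem h2 h3
  convert h4 using 1
  have h5 : G.s = G.t ^ k * G.s * (G.t' ^ k)⁻¹ := by rw [← hc', mul_inv_cancel_right]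
  rw [gS]
  conv_lhs => rw [h5]
  group

theorem step_pow (n : ℕ) : (N.rep x0 ((N.S ^ n) x0))⁻¹ * G.s ^ n ∈ N.H0 x0 := by
  induction n with
  | zero => simp [rep_base]
  | succ n ih =>
    have h := mul_mem (N.stepS x0 ((N.S ^ n) x0)) ih
    rw [pow_succ', Equiv.Perm.mul_apply, pow_succ']
    convert h using 1
    group

/-- The elements `rep⁻¹ z rep` are in `H`. -/
theorem mem_H (n : ℕ) :
    (N.rep x0 ((N.S ^ n) x0))⁻¹ * G.z * N.rep x0 ((N.S ^ n) x0) ∈ N.H x0 := by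
  have h1 : N.H0 x0 ≤ N.H x0 := Subgroup.closure_mono (Set.subset_insert _ _)
  have h2 := h1 (N.step_pow x0 n)
  have h3 : G.z ∈ N.H x0 := Subgroup.subset_closure (Set.mem_insert _ _)
  have h4 := mul_mem (mul_mem h2 h3) (inv_mem h2)
  convert h4 using 1
  have h5 : Commute (G.s ^ n) G.z := (show Commute G.s G.z from G.s_z).pow_left n
  have h6 : G.s ^ n * G.z * (G.s ^ n)⁻¹ = G.z := by rw [h5.eq, mul_inv_cancel_right]
  calc _ = (N.rep x0 ((N.S ^ n) x0))⁻¹ * (G.s ^ n * G.z * (G.s ^ n)⁻¹) *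
      N.rep x0 ((N.S ^ n) x0) := by rw [h6]
    _ = _ := by group

theorem H_fg : (N.H x0).FG := by
  rw [Subgroup.fg_iff]
  exact ⟨_, rfl, (N.Y_finite x0).insert _⟩

/-! ### The elements of `Y` fix the base point -/

theorem act_Y_fst {y : G} (hy : y ∈ N.Y x0) : (N.act y).1 x0 = x0 := by
  rcases hy with ⟨i, rfl⟩ | ⟨i, rfl⟩
  · rw [gS, map_mul, map_mul, map_inv, act_s]
    show ((N.act _).1)⁻¹ (N.S ((N.act _).1 x0)) = x0
    rw [act_rep_fst, Equiv.Perm.inv_eq_iff_eq, act_rep_fst]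
  · rw [gT, map_mul, map_mul, map_inv, act_t']
    show ((N.act _).1)⁻¹ (N.T' ((N.act _).1 x0)) = x0
    rw [act_rep_fst, Equiv.Perm.inv_eq_iff_eq, act_rep_fst]

theorem act_Y_snd {y : G} (hy : y ∈ N.Y x0) : (Multiplicative.toAdd (N.act y).2).natAbs ≤ 1 := by
  rcases hy with ⟨i, rfl⟩ | ⟨i, rfl⟩
  · rw [gS, map_mul, map_mul, map_inv, act_s]
    show (Multiplicative.toAdd (((N.act _).2)⁻¹ * (Multiplicative.ofAdd (1 : ℤ)) * (N.act _).2)).natAbs ≤ 1
    rw [act_rep_snd, act_rep_snd]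
    simp
  · rw [gT, map_mul, map_mul, map_inv, act_t']
    show (Multiplicative.toAdd (((N.act _).2)⁻¹ * (1 : Multiplicative ℤ) * (N.act _).2)).natAbs ≤ 1
    rw [act_rep_snd, act_rep_snd]
    simp

end Net

end Pool.Agent.DIST
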