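import Pool.Agent.DIST.Prog

/-!
# Residue-affine machines

A machine has finitely many lines `v`, each a copy of `ℤ`; an edge with source `(v, r)` and
destination `(v', c)` sends the point `p v * k + r` of the line `v` to the point `q v' * k + c` of
the line `v'`.
-/

namespace Pool.Agent.DIST

open Function

/-- A machine with an entry line and an exit line. -/
structure Mach : Type 1 where
  V : Type
  E : Type
  fV : Fintype V
  fE : Fintype E
  dV : DecidableEq V
  p : V → ℕ
  q : V → ℕ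
  src : E → V × ℕ
  dst : E → V × ℕ
  inn : V
  out : V

namespace Mach

/-- The conditions on a machine: residues in range, sources distinct, destinations distinct, the
entry and exit are free. -/
structure Ok (M : Mach) : Prop where
  hp : ∀ v, 0 < M.p v
  hq : ∀ v, 0 < M.q v
  pq : ∀ v, M.p v = 1 ∨ M.q v = 1
  hsrc : ∀ e, (M.src e).2 < M.p (M.src e).1
  hdst : ∀ e, (M.dst e).2 < M.q (M.dst e).1
  isrc : Injective M.src
  idst : Injective M.dst
  qinn : M.q M.inn = 1
  pout : M.p M.out = 1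
  no_in : ∀ e, (M.dst e).1 ≠ M.inn
  no_out : ∀ e, (M.src e).1 ≠ M.out

/-- One step. -/
def Step (M : Mach) (a b : M.V × ℤ) : Prop :=
  ∃ (e : M.E) (k : ℤ), a = ((M.src e).1, M.p (M.src e).1 * k + (M.src e).2) ∧
    b = ((M.dst e).1, M.q (M.dst e).1 * k + (M.dst e).2)

/-- A path, with the list of the points visited before the last one. -/
inductive Path (M : Mach) : M.V × ℤ → M.V × ℤ → List (M.V × ℤ) → Prop
  | nil (a) : Path M a a []
  | cons {a b c l} : M.Step a b → Path M b c l → Path M a c (a :: l)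

theorem Path.single {M : Mach} {a b : M.V × ℤ} (h : M.Step a b) : M.Path a b [a] :=
  .cons h (.nil b)

theorem Path.append {M : Mach} {a b c : M.V × ℤ} {l l' : List (M.V × ℤ)} (h : M.Path a b l)
    (h' : M.Path b c l') : M.Path a c (l ++ l') := by
  induction h with
  | nil => exact h'
  | cons h1 _ ih => exact .cons h1 (ih h')

/-- An embedding of machines. -/
structure Emb (M N : Mach) where
  φ : M.V → N.V
  ψ : M.E → N.E
  src : ∀ e, N.src (ψ e) = (φ (M.src e).1, (M.src e).2)
  dst : ∀ e, N.dst (ψ e) = (φ (M.dst e).1, (M.dst e).2)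
  p : ∀ v, N.p (φ v) = M.p v
  q : ∀ v, N.q (φ v) = M.q v

/-- the map on points -/
def Emb.pt {M N : Mach} (f : Emb M N) (x : M.V × ℤ) : N.V × ℤ := (f.φ x.1, x.2)

theorem Emb.step {M N : Mach} (f : Emb M N) {a b : M.V × ℤ} (h : M.Step a b) :
    N.Step (f.pt a) (f.pt b) := by
  obtain ⟨e, k, rfl, rfl⟩ := h
  refine ⟨f.ψ e, k, ?_, ?_⟩
  · simp only [Emb.pt, f.src, f.p]
  · simp only [Emb.pt, f.dst, f.q]

theorem Emb.path {M N : Mach} (f : Emb M N) {a b : M.V × ℤ} {l : List (M.V × ℤ)}
    (h : M.Path a b l) : N.Path (f.pt a) (f.pt b) (l.map f.pt) := by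
  induction h with
  | nil => exact .nil _
  | cons h1 _ ih => exact .cons (f.step h1) ih

/-- a link edge -/
theorem step_link (M : Mach) (e : M.E) {v w : M.V} (h1 : M.src e = (v, 0)) (h2 : M.dst e = (w, 0))
    (hp : M.p v = 1) (hq : M.q w = 1) (n : ℤ) : M.Step (v, n) (w, n) := by
  refine ⟨e, n, ?_, ?_⟩
  · simp [h1, hp]
  · simp [h2, hq]

/-- an edge which keeps the value -/
theorem step_same (M : Mach) (e : M.E) {v w : M.V} {m r n : ℕ} (h1 : M.src e = (v, r))
    (h2 : M.dst e = (w, r)) (hp : M.p v = m) (hq : M.q w = m) (hn : n % m = r) :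
    M.Step (v, (n : ℤ)) (w, (n : ℤ)) := by
  have e1 : (n : ℤ) = m * ((n / m : ℕ) : ℤ) + r := by
    have := Nat.div_add_mod n m
    rw [hn] at this
    exact_mod_cast this.symm
  refine ⟨e, ((n / m : ℕ) : ℤ), ?_, ?_⟩
  · simp only [h1, hp, ← e1]
  · simp only [h2, hq, ← e1]

/-- the machine of `skip` -/
def skip : Mach where
  V := Unit
  E := Empty
  fV := inferInstance
  fE := inferInstance
  dV := inferInstance
  p _ := 1
  q _ := 1
  src := Empty.elim
  dst := Empty.elim
  inn := ()
  out := ()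

theorem skip_ok : skip.Ok where
  hp _ := Nat.one_pos
  hq _ := Nat.one_pos
  pq _ := Or.inl rfl
  hsrc e := e.elim
  hdst e := e.elim
  isrc e := e.elim
  idst e := e.elim
  qinn := rfl
  pout := rfl
  no_in e := e.elim
  no_out e := e.elim

/-- multiplication by `m` -/
def mul (m : ℕ) : Mach where
  V := Bool
  E := Unit
  fV := inferInstance
  fE := inferInstance
  dV := inferInstance
  p _ := 1
  q v := if v then m else 1
  src _ := (false, 0)
  dst _ := (true, 0)
  inn := false
  out := true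

theorem mul_ok {m : ℕ} (hm : 0 < m) : (mul m).Ok where
  hp _ := Nat.one_pos
  hq v := by cases v <;> simp [mul, hm]
  pq _ := Or.inl rfl
  hsrc _ := Nat.one_pos
  hdst _ := by simp [mul, hm]
  isrc _ _ _ := rfl
  idst _ _ _ := rfl
  qinn := rfl
  pout := rfl
  no_in _ := by simp [mul]
  no_out _ := by simp [mul]

theorem mul_step (m n : ℕ) : (mul m).Step (false, (n : ℤ)) (true, ((m * n : ℕ) : ℤ)) :=
  ⟨(), n, by simp [mul], by simp [mul]⟩

/-- division by `m` -/
def div (m : ℕ) : Mach where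
  V := Bool
  E := Unit
  fV := inferInstance
  fE := inferInstance
  dV := inferInstance
  p v := if v then 1 else m
  q _ := 1
  src _ := (false, 0)
  dst _ := (true, 0)
  inn := false
  out := true

theorem div_ok {m : ℕ} (hm : 0 < m) : (div m).Ok where
  hp v := by cases v <;> simp [div, hm]
  hq _ := Nat.one_pos
  pq _ := Or.inr rfl
  hsrc _ := by simp [div, hm]
  hdst _ := Nat.one_pos
  isrc _ _ _ := rfl
  idst _ _ _ := rfl
  qinn := rfl
  pout := rfl
  no_in _ := by simp [div]
  no_out _ := by simp [div]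

theorem div_step (m n : ℕ) : (div m).Step (false, ((m * n : ℕ) : ℤ)) (true, (n : ℤ)) :=
  ⟨(), n, by simp [div], by simp [div]⟩

/-- sequential composition -/
def seq (M N : Mach) : Mach where
  V := M.V ⊕ N.V
  E := Unit ⊕ (M.E ⊕ N.E)
  fV := @instFintypeSum _ _ M.fV N.fV
  fE := @instFintypeSum _ _ _ (@instFintypeSum _ _ M.fE N.fE)
  dV := @instDecidableEqSum _ _ M.dV N.dV
  p := Sum.elim M.p N.p
  q := Sum.elim M.q N.q
  src := Sum.elim (fun _ => (.inl M.out, 0))
    (Sum.elim (fun e => (.inl (M.src e).1, (M.src e).2)) (fun e => (.inr (N.src e).1, (N.src e).2)))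
  dst := Sum.elim (fun _ => (.inr N.inn, 0))
    (Sum.elim (fun e => (.inl (M.dst e).1, (M.dst e).2)) (fun e => (.inr (N.dst e).1, (N.dst e).2)))
  inn := .inl M.inn
  out := .inr N.out

theorem seq_ok {M N : Mach} (hM : M.Ok) (hN : N.Ok) : (seq M N).Ok where
  hp v := by rcases v with v | v; exacts [hM.hp v, hN.hp v]
  hq v := by rcases v with v | v; exacts [hM.hq v, hN.hq v]
  pq v := by rcases v with v | v; exacts [hM.pq v, hN.pq v]
  hsrc e := by
    rcases e with e | e | e
    · simp [seq, hM.pout]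
    · exact hM.hsrc e
    · exact hN.hsrc e
  hdst e := by
    rcases e with e | e | e
    · simp [seq, hN.qinn]
    · exact hM.hdst e
    · exact hN.hdst e
  isrc := by
    rintro (e | e | e) (f | f | f) h <;> simp only [seq, Sum.elim_inl, Sum.elim_inr,
      Prod.mk.injEq, Sum.inl.injEq, Sum.inr.injEq, reduceCtorEq, false_and] at h
    · rfl
    · exact absurd h.1.symm (hM.no_out f)
    · exact absurd h.1 (hM.no_out e)
    · rw [hM.isrc (Prod.ext h.1 h.2)]
    · rw [hN.isrc (Prod.ext h.1 h.2)]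
  idst := by
    rintro (e | e | e) (f | f | f) h <;> simp only [seq, Sum.elim_inl, Sum.elim_inr,
      Prod.mk.injEq, Sum.inl.injEq, Sum.inr.injEq, reduceCtorEq, false_and] at h
    · rfl
    · exact absurd h.1.symm (hN.no_in f)
    · rw [hM.idst (Prod.ext h.1 h.2)]
    · exact absurd h.1 (hN.no_in e)
    · rw [hN.idst (Prod.ext h.1 h.2)]
  qinn := hM.qinn
  pout := hN.pout
  no_in e := by
    rcases e with e | e | e
    · simp [seq]
    · simpa [seq] using hM.no_in e
    · simp [seq]
  no_out e := by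
    rcases e with e | e | e
    · simp [seq]
    · simp [seq]
    · simpa [seq] using hN.no_out e

/-- the first factor -/
def seqL (M N : Mach) : Emb M (seq M N) where
  φ := Sum.inl
  ψ e := .inr (.inl e)
  src _ := rfl
  dst _ := rfl
  p _ := rfl
  q _ := rfl

/-- the second factor -/
def seqR (M N : Mach) : Emb N (seq M N) where
  φ := Sum.inr
  ψ e := .inr (.inr e)
  src _ := rfl
  dst _ := rfl
  p _ := rfl
  q _ := rfl

theorem seq_link {M N : Mach} (hM : M.Ok) (hN : N.Ok) (n : ℤ) :
    (seq M N).Step (.inl M.out, n) (.inr N.inn, n) :=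
  step_link (seq M N) (Sum.inl () : Unit ⊕ (M.E ⊕ N.E)) rfl rfl hM.pout hN.qinn n

/-! ### The loop

Lines: `0` return (`m' ∣ n`), `1` entry (`m' ∤ n`), `2` head, `3` test, `4` body (`m ∣ n`),
`5` exit (`m ∤ n`). -/

/-- the loop: enter if `m' ∤ n`, while `m ∣ n` do `M`, return if `m' ∣ n` -/
def loop (m m' : ℕ) (M : Mach) : Mach where
  V := Fin 6 ⊕ M.V
  E := (Fin m' ⊕ Fin m) ⊕ (Fin 3 ⊕ M.E)
  fV := @instFintypeSum _ _ _ M.fV
  fE := @instFintypeSum _ _ _ (@instFintypeSum _ _ _ M.fE)
  dV := @instDecidableEqSum _ _ _ M.dV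
  p := Sum.elim ![m', m', 1, m, 1, 1] M.p
  q := Sum.elim ![1, 1, m', 1, m, m] M.q
  src := Sum.elim
    (Sum.elim (fun r => (.inl (if (r : ℕ) = 0 then 0 else 1), r)) (fun r => (.inl 3, r)))
    (Sum.elim ![(.inl 2, 0), (.inl 4, 0), (.inr M.out, 0)]
      (fun e => (.inr (M.src e).1, (M.src e).2)))
  dst := Sum.elim
    (Sum.elim (fun r => (.inl 2, r)) (fun r => (.inl (if (r : ℕ) = 0 then 4 else 5), r)))
    (Sum.elim ![(.inl 3, 0), (.inr M.inn, 0), (.inl 0, 0)]
      (fun e => (.inr (M.dst e).1, (M.dst e).2)))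
  inn := .inl 1
  out := .inl 5

theorem loop_ok {m m' : ℕ} (hm : 0 < m) (hm' : 0 < m') {M : Mach} (hM : M.Ok) :
    (loop m m' M).Ok where
  hp v := by
    rcases v with v | v
    · fin_cases v <;> simp [loop, hm, hm']
    · exact hM.hp v
  hq v := by
    rcases v with v | v
    · fin_cases v <;> simp [loop, hm, hm']
    · exact hM.hq v
  pq v := by
    rcases v with v | v
    · fin_cases v <;> simp [loop]
    · exact hM.pq v
  hsrc e := by
    rcases e with (e | e) | e | e
    · by_cases h : (e : ℕ) = 0 <;> simp [loop, h, hm']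
    · simp [loop]
    · fin_cases e <;> simp [loop, hM.pout]
    · exact hM.hsrc e
  hdst e := by
    rcases e with (e | e) | e | e
    · simp [loop]
    · by_cases h : (e : ℕ) = 0 <;> simp [loop, h, hm]
    · fin_cases e <;> simp [loop, hM.qinn]
    · exact hM.hdst e
  isrc := by
    rintro ((e | e) | e | e) ((f | f) | f | f) h
    · have := (Prod.mk.inj h).2
      rw [Fin.ext this]
    · by_cases h0 : (e : ℕ) = 0 <;> simp [loop, h0] at h
    · by_cases h0 : (e : ℕ) = 0 <;> fin_cases f <;> simp [loop, h0] at h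
    · simp [loop] at h
    · by_cases h0 : (f : ℕ) = 0 <;> simp [loop, h0] at h
    · have := (Prod.mk.inj h).2
      rw [Fin.ext this]
    · fin_cases f <;> simp [loop] at h
    · simp [loop] at h
    · by_cases h0 : (f : ℕ) = 0 <;> fin_cases e <;> simp [loop, h0] at h
    · fin_cases e <;> simp [loop] at h
    · fin_cases e <;> fin_cases f <;> simp [loop] at h ⊢
    · fin_cases e <;> simp [loop] at h
      exact absurd h.1.symm (hM.no_out f)
    · simp [loop] at h
    · simp [loop] at h
    · fin_cases f <;> simp [loop] at h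
      exact absurd h.1 (hM.no_out e)
    · simp only [loop, Sum.elim_inr, Prod.mk.injEq, Sum.inr.injEq] at h
      rw [hM.isrc (Prod.ext h.1 h.2)]
  idst := by
    rintro ((e | e) | e | e) ((f | f) | f | f) h
    · have := (Prod.mk.inj h).2
      rw [Fin.ext this]
    · by_cases h0 : (f : ℕ) = 0 <;> simp [loop, h0] at h
    · fin_cases f <;> simp [loop] at h
    · simp [loop] at h
    · by_cases h0 : (e : ℕ) = 0 <;> simp [loop, h0] at h
    · have := (Prod.mk.inj h).2
      rw [Fin.ext this]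
    · by_cases h0 : (e : ℕ) = 0 <;> fin_cases f <;> simp [loop, h0] at h
    · simp [loop] at h
    · fin_cases e <;> simp [loop] at h
    · by_cases h0 : (f : ℕ) = 0 <;> fin_cases e <;> simp [loop, h0] at h
    · fin_cases e <;> fin_cases f <;> simp [loop] at h ⊢
    · fin_cases e <;> simp [loop] at h
      exact absurd h.1.symm (hM.no_in f)
    · simp [loop] at h
    · simp [loop] at h
    · fin_cases f <;> simp [loop] at h
      exact absurd h.1 (hM.no_in e)
    · simp only [loop, Sum.elim_inr, Prod.mk.injEq, Sum.inr.injEq] at h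
      rw [hM.idst (Prod.ext h.1 h.2)]
  qinn := rfl
  pout := rfl
  no_in e := by
    rcases e with (e | e) | e | e
    · simp [loop]
    · by_cases h : (e : ℕ) = 0 <;> simp [loop, h]
    · fin_cases e <;> simp [loop]
    · simp [loop]
  no_out e := by
    rcases e with (e | e) | e | e
    · by_cases h : (e : ℕ) = 0 <;> simp [loop, h]
    · simp [loop]
    · fin_cases e <;> simp [loop]
    · simp [loop]

/-- the body -/
def loopB (m m' : ℕ) (M : Mach) : Emb M (loop m m' M) where
  φ := Sum.inr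
  ψ e := .inr (.inr e)
  src _ := rfl
  dst _ := rfl
  p _ := rfl
  q _ := rfl

section loop_steps

variable {m m' : ℕ} {M : Mach}

theorem loop_enter {n : ℕ} (hm' : 0 < m') (hn : ¬ m' ∣ n) :
    (loop m m' M).Path (.inl 1, (n : ℤ)) (.inl 3, (n : ℤ))
      [(.inl 1, (n : ℤ)), (.inl 2, (n : ℤ))] := by
  have h0 : n % m' ≠ 0 := fun h => hn (Nat.dvd_of_mod_eq_zero h)
  refine .cons ?_ (.single ?_)
  · exact step_same (loop m m' M) (m := m') (.inl (.inl ⟨n % m', Nat.mod_lt _ hm'⟩))
      (by simp [loop, h0]) (by simp [loop]) rfl rfl rfl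
  · exact step_link (loop m m' M) (.inr (.inl 0)) rfl rfl rfl rfl n

theorem loop_back {n : ℕ} (hm' : 0 < m') (hM : M.Ok) (hn : m' ∣ n) :
    (loop m m' M).Path (.inr M.out, (n : ℤ)) (.inl 3, (n : ℤ))
      [(.inr M.out, (n : ℤ)), (.inl 0, (n : ℤ)), (.inl 2, (n : ℤ))] := by
  have h0 : n % m' = 0 := Nat.mod_eq_zero_of_dvd hn
  refine .cons ?_ (.cons ?_ (.single ?_))
  · exact step_link (loop m m' M) (.inr (.inl 2)) rfl rfl hM.pout rfl n
  · exact step_same (loop m m' M) (m := m') (r := 0) (.inl (.inl ⟨0, hm'⟩))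
      (by simp [loop]) (by simp [loop]) rfl rfl h0
  · exact step_link (loop m m' M) (.inr (.inl 0)) rfl rfl rfl rfl n

theorem loop_body {n : ℕ} (hm : 0 < m) (hM : M.Ok) (hn : m ∣ n) :
    (loop m m' M).Path (.inl 3, (n : ℤ)) (.inr M.inn, (n : ℤ))
      [(.inl 3, (n : ℤ)), (.inl 4, (n : ℤ))] := by
  have h0 : n % m = 0 := Nat.mod_eq_zero_of_dvd hn
  refine .cons ?_ (.single ?_)
  · exact step_same (loop m m' M) (m := m) (r := 0) (.inl (.inr ⟨0, hm⟩))
      (by simp [loop]) (by simp [loop]) rfl rfl h0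
  · exact step_link (loop m m' M) (.inr (.inl 1)) rfl rfl rfl hM.qinn n

theorem loop_exit {n : ℕ} (hm : 0 < m) (hn : ¬ m ∣ n) :
    (loop m m' M).Path (.inl 3, (n : ℤ)) (.inl 5, (n : ℤ)) [(.inl 3, (n : ℤ))] := by
  have h0 : n % m ≠ 0 := fun h => hn (Nat.dvd_of_mod_eq_zero h)
  refine .single ?_
  exact step_same (loop m m' M) (m := m) (.inl (.inr ⟨n % m, Nat.mod_lt _ hm⟩))
    (by simp [loop]) (by simp [loop, h0]) rfl rfl rfl

end loop_steps

/-! ### The conditional

Lines: `0` test, `1` first branch (`m ∣ n`), `2` second branch, `3` end of the first branch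
(`m' ∣ n`), `4` end of the second branch, `5` exit. -/

/-- the conditional: if `m ∣ n` do `M` (then `m' ∣ n`), else `N` (then `m' ∤ n`) -/
def ite (m m' : ℕ) (M N : Mach) : Mach where
  V := Fin 6 ⊕ (M.V ⊕ N.V)
  E := (Fin m' ⊕ Fin m) ⊕ (Fin 4 ⊕ (M.E ⊕ N.E))
  fV := @instFintypeSum _ _ _ (@instFintypeSum _ _ M.fV N.fV)
  fE := @instFintypeSum _ _ _ (@instFintypeSum _ _ _ (@instFintypeSum _ _ M.fE N.fE))
  dV := @instDecidableEqSum _ _ _ (@instDecidableEqSum _ _ M.dV N.dV)
  p := Sum.elim ![m, 1, 1, m', m', 1] (Sum.elim M.p N.p)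
  q := Sum.elim ![1, m, m, 1, 1, m'] (Sum.elim M.q N.q)
  src := Sum.elim
    (Sum.elim (fun r => (.inl (if (r : ℕ) = 0 then 3 else 4), r)) (fun r => (.inl 0, r)))
    (Sum.elim ![(.inl 1, 0), (.inl 2, 0), (.inr (.inl M.out), 0), (.inr (.inr N.out), 0)]
      (Sum.elim (fun e => (.inr (.inl (M.src e).1), (M.src e).2))
        (fun e => (.inr (.inr (N.src e).1), (N.src e).2))))
  dst := Sum.elim
    (Sum.elim (fun r => (.inl 5, r)) (fun r => (.inl (if (r : ℕ) = 0 then 1 else 2), r)))
    (Sum.elim ![(.inr (.inl M.inn), 0), (.inr (.inr N.inn), 0), (.inl 3, 0), (.inl 4, 0)]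
      (Sum.elim (fun e => (.inr (.inl (M.dst e).1), (M.dst e).2))
        (fun e => (.inr (.inr (N.dst e).1), (N.dst e).2))))
  inn := .inl 0
  out := .inl 5

theorem ite_ok {m m' : ℕ} (hm : 0 < m) (hm' : 0 < m') {M N : Mach} (hM : M.Ok) (hN : N.Ok) :
    (ite m m' M N).Ok where
  hp v := by
    rcases v with v | v | v
    · fin_cases v <;> simp [ite, hm, hm']
    · exact hM.hp v
    · exact hN.hp v
  hq v := by
    rcases v with v | v | v
    · fin_cases v <;> simp [ite, hm, hm']
    · exact hM.hq v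
    · exact hN.hq v
  pq v := by
    rcases v with v | v | v
    · fin_cases v <;> simp [ite]
    · exact hM.pq v
    · exact hN.pq v
  hsrc e := by
    rcases e with (e | e) | e | e | e
    · by_cases h : (e : ℕ) = 0 <;> simp [ite, h, hm']
    · simp [ite]
    · fin_cases e <;> simp [ite, hM.pout, hN.pout]
    · exact hM.hsrc e
    · exact hN.hsrc e
  hdst e := by
    rcases e with (e | e) | e | e | e
    · simp [ite]
    · by_cases h : (e : ℕ) = 0 <;> simp [ite, h, hm]
    · fin_cases e <;> simp [ite, hM.qinn, hN.qinn]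
    · exact hM.hdst e
    · exact hN.hdst e
  isrc := by
    rintro ((e | e) | e | e | e) ((f | f) | f | f | f) h
    · have := (Prod.mk.inj h).2
      rw [Fin.ext this]
    · by_cases h0 : (e : ℕ) = 0 <;> simp [ite, h0] at h
    · by_cases h0 : (e : ℕ) = 0 <;> fin_cases f <;> simp [ite, h0] at h
    · simp [ite] at h
    · simp [ite] at h
    · by_cases h0 : (f : ℕ) = 0 <;> simp [ite, h0] at h
    · have := (Prod.mk.inj h).2
      rw [Fin.ext this]
    · fin_cases f <;> simp [ite] at h
    · simp [ite] at h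
    · simp [ite] at h
    · by_cases h0 : (f : ℕ) = 0 <;> fin_cases e <;> simp [ite, h0] at h
    · fin_cases e <;> simp [ite] at h
    · fin_cases e <;> fin_cases f <;> simp [ite] at h ⊢
    · fin_cases e <;> simp [ite] at h
      exact absurd h.1.symm (hM.no_out f)
    · fin_cases e <;> simp [ite] at h
      exact absurd h.1.symm (hN.no_out f)
    · simp [ite] at h
    · simp [ite] at h
    · fin_cases f <;> simp [ite] at h
      exact absurd h.1 (hM.no_out e)
    · simp only [ite, Sum.elim_inr, Sum.elim_inl, Prod.mk.injEq, Sum.inr.injEq,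
        Sum.inl.injEq] at h
      rw [hM.isrc (Prod.ext h.1 h.2)]
    · simp [ite] at h
    · simp [ite] at h
    · simp [ite] at h
    · fin_cases f <;> simp [ite] at h
      exact absurd h.1 (hN.no_out e)
    · simp [ite] at h
    · simp only [ite, Sum.elim_inr, Prod.mk.injEq, Sum.inr.injEq] at h
      rw [hN.isrc (Prod.ext h.1 h.2)]
  idst := by
    rintro ((e | e) | e | e | e) ((f | f) | f | f | f) h
    · have := (Prod.mk.inj h).2
      rw [Fin.ext this]
    · by_cases h0 : (f : ℕ) = 0 <;> simp [ite, h0] at h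
    · fin_cases f <;> simp [ite] at h
    · simp [ite] at h
    · simp [ite] at h
    · by_cases h0 : (e : ℕ) = 0 <;> simp [ite, h0] at h
    · have := (Prod.mk.inj h).2
      rw [Fin.ext this]
    · by_cases h0 : (e : ℕ) = 0 <;> fin_cases f <;> simp [ite, h0] at h
    · simp [ite] at h
    · simp [ite] at h
    · fin_cases e <;> simp [ite] at h
    · by_cases h0 : (f : ℕ) = 0 <;> fin_cases e <;> simp [ite, h0] at h
    · fin_cases e <;> fin_cases f <;> simp [ite] at h ⊢
    · fin_cases e <;> simp [ite] at h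
      exact absurd h.1.symm (hM.no_in f)
    · fin_cases e <;> simp [ite] at h
      exact absurd h.1.symm (hN.no_in f)
    · simp [ite] at h
    · simp [ite] at h
    · fin_cases f <;> simp [ite] at h
      exact absurd h.1 (hM.no_in e)
    · simp only [ite, Sum.elim_inr, Sum.elim_inl, Prod.mk.injEq, Sum.inr.injEq,
        Sum.inl.injEq] at h
      rw [hM.idst (Prod.ext h.1 h.2)]
    · simp [ite] at h
    · simp [ite] at h
    · simp [ite] at h
    · fin_cases f <;> simp [ite] at h
      exact absurd h.1 (hN.no_in e)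
    · simp [ite] at h
    · simp only [ite, Sum.elim_inr, Prod.mk.injEq, Sum.inr.injEq] at h
      rw [hN.idst (Prod.ext h.1 h.2)]
  qinn := rfl
  pout := rfl
  no_in e := by
    rcases e with (e | e) | e | e | e
    · simp [ite]
    · by_cases h : (e : ℕ) = 0 <;> simp [ite, h]
    · fin_cases e <;> simp [ite]
    · simp [ite]
    · simp [ite]
  no_out e := by
    rcases e with (e | e) | e | e | e
    · by_cases h : (e : ℕ) = 0 <;> simp [ite, h]
    · simp [ite]
    · fin_cases e <;> simp [ite]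
    · simp [ite]
    · simp [ite]

/-- the first branch -/
def iteL (m m' : ℕ) (M N : Mach) : Emb M (ite m m' M N) where
  φ v := .inr (.inl v)
  ψ e := .inr (.inr (.inl e))
  src _ := rfl
  dst _ := rfl
  p _ := rfl
  q _ := rfl

/-- the second branch -/
def iteR (m m' : ℕ) (M N : Mach) : Emb N (ite m m' M N) where
  φ v := .inr (.inr v)
  ψ e := .inr (.inr (.inr e))
  src _ := rfl
  dst _ := rfl
  p _ := rfl
  q _ := rfl

section ite_steps

variable {m m' : ℕ} {M N : Mach}

theorem ite_in1 {n : ℕ} (hm : 0 < m) (hM : M.Ok) (hn : m ∣ n) :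
    (ite m m' M N).Path (.inl 0, (n : ℤ)) (.inr (.inl M.inn), (n : ℤ))
      [(.inl 0, (n : ℤ)), (.inl 1, (n : ℤ))] := by
  have h0 : n % m = 0 := Nat.mod_eq_zero_of_dvd hn
  refine .cons ?_ (.single ?_)
  · exact step_same (ite m m' M N) (m := m) (r := 0) (.inl (.inr ⟨0, hm⟩))
      (by simp [ite]) (by simp [ite]) rfl rfl h0
  · exact step_link (ite m m' M N) (.inr (.inl 0)) rfl rfl rfl hM.qinn n

theorem ite_in2 {n : ℕ} (hm : 0 < m) (hN : N.Ok) (hn : ¬ m ∣ n) :
    (ite m m' M N).Path (.inl 0, (n : ℤ)) (.inr (.inr N.inn), (n : ℤ))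
      [(.inl 0, (n : ℤ)), (.inl 2, (n : ℤ))] := by
  have h0 : n % m ≠ 0 := fun h => hn (Nat.dvd_of_mod_eq_zero h)
  refine .cons ?_ (.single ?_)
  · exact step_same (ite m m' M N) (m := m) (.inl (.inr ⟨n % m, Nat.mod_lt _ hm⟩))
      (by simp [ite]) (by simp [ite, h0]) rfl rfl rfl
  · exact step_link (ite m m' M N) (.inr (.inl 1)) rfl rfl rfl hN.qinn n

theorem ite_out1 {n : ℕ} (hm' : 0 < m') (hM : M.Ok) (hn : m' ∣ n) :
    (ite m m' M N).Path (.inr (.inl M.out), (n : ℤ)) (.inl 5, (n : ℤ))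
      [(.inr (.inl M.out), (n : ℤ)), (.inl 3, (n : ℤ))] := by
  have h0 : n % m' = 0 := Nat.mod_eq_zero_of_dvd hn
  refine .cons ?_ (.single ?_)
  · exact step_link (ite m m' M N) (.inr (.inl 2)) rfl rfl hM.pout rfl n
  · exact step_same (ite m m' M N) (m := m') (r := 0) (.inl (.inl ⟨0, hm'⟩))
      (by simp [ite]) (by simp [ite]) rfl rfl h0

theorem ite_out2 {n : ℕ} (hm' : 0 < m') (hN : N.Ok) (hn : ¬ m' ∣ n) :
    (ite m m' M N).Path (.inr (.inr N.out), (n : ℤ)) (.inl 5, (n : ℤ))
      [(.inr (.inr N.out), (n : ℤ)), (.inl 4, (n : ℤ))] := by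
  have h0 : n % m' ≠ 0 := fun h => hn (Nat.dvd_of_mod_eq_zero h)
  refine .cons ?_ (.single ?_)
  · exact step_link (ite m m' M N) (.inr (.inl 3)) rfl rfl hN.pout rfl n
  · exact step_same (ite m m' M N) (m := m') (.inl (.inl ⟨n % m', Nat.mod_lt _ hm'⟩))
      (by simp [ite, h0]) (by simp [ite]) rfl rfl rfl

end ite_steps

end Mach

end Pool.Agent.DIST
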