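import Pool.Agent.DIST.Net
import Pool.Agent.DIST.Mach

/-!
# From residue-affine machines to networks

One dummy line balances the numbers of `t`-orbits and `t'`-orbits, and the partial matching is
completed to a bijection.
-/

namespace Pool.Agent.DIST


/-- Completion of a partial matching. -/
theorem exists_complete {E A B : Type*} [Fintype A] [Fintype B] (h : Fintype.card A = Fintype.card B)
    (f : E → A) (g : E → B) (hf : Function.Injective f) (hg : Function.Injective g) :
    ∃ e : A ≃ B, ∀ x, e (f x) = g x := by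
  classical
  by_cases hE : Nonempty E
  · obtain ⟨x0⟩ := hE
    have : Nonempty E := ⟨x0⟩
    let F : A → B := fun a => g (Function.invFun f a)
    let s : Finset A := Finset.univ.filter (fun a => ∃ x, f x = a)
    have hs : Set.InjOn F (s : Set A) := by
      intro a ha b hb hab
      obtain ⟨x, rfl⟩ : ∃ x, f x = a := by simpa [s] using ha
      obtain ⟨y, rfl⟩ : ∃ x, f x = b := by simpa [s] using hb
      have h1 := hg hab
      rw [Function.leftInverse_invFun hf, Function.leftInverse_invFun hf] at h1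
      rw [h1]
    obtain ⟨e, he⟩ := Finset.exists_equiv_extend_of_card_eq (t := (Finset.univ : Finset B))
      (by simpa using h) (s := s) (f := F) (by simp) hs
    refine ⟨e.trans (Equiv.subtypeUnivEquiv (by simp)), fun x => ?_⟩
    have h1 := he (f x) (by simp [s])
    show ((e (f x) : _) : B) = g x
    rw [h1]
    show g (Function.invFun f (f x)) = g x
    rw [Function.leftInverse_invFun hf]
  · refine ⟨Fintype.equivOfCardEq h, fun x => absurd ⟨x⟩ hE⟩

/-- The conditions which are needed for the completion. -/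
structure Pre (M : Mach) : Prop where
  hp : ∀ v, 0 < M.p v
  hq : ∀ v, 0 < M.q v
  hsrc : ∀ e, (M.src e).2 < M.p (M.src e).1
  hdst : ∀ e, (M.dst e).2 < M.q (M.dst e).1
  isrc : Function.Injective M.src
  idst : Function.Injective M.dst

theorem exists_net (M : Mach) (h : Pre M) :
    ∃ (N : Net) (ι : M.V → Fin N.m), Function.Injective ι ∧
      ∀ a b : M.V × ℤ, M.Step a b → N.S (ι a.1, a.2) = (ι b.1, b.2) := by
  classical
  let _ := M.fV
  let sp : ℕ := ∑ v, M.p v
  let sq : ℕ := ∑ v, M.q v
  let p' : Option M.V → ℕ := fun o => o.elim ((sq - sp) + 1) M.p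
  let q' : Option M.V → ℕ := fun o => o.elim ((sp - sq) + 1) M.q
  let m := Fintype.card (Option M.V)
  let ε : Option M.V ≃ Fin m := Fintype.equivFin _
  let p : Fin m → ℕ := fun v => p' (ε.symm v)
  let q : Fin m → ℕ := fun v => q' (ε.symm v)
  have hpι : ∀ v : M.V, p (ε (some v)) = M.p v := fun v => by simp [p, p']
  have hqι : ∀ v : M.V, q (ε (some v)) = M.q v := fun v => by simp [q, q']
  have hcard : Fintype.card (Σ v, Fin (p v)) = Fintype.card (Σ v, Fin (q v)) := by
    rw [Fintype.card_sigma, Fintype.card_sigma]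
    simp only [Fintype.card_fin]
    have e1 : ∑ v, p v = ∑ o, p' o := Equiv.sum_comp ε.symm p'
    have e2 : ∑ v, q v = ∑ o, q' o := Equiv.sum_comp ε.symm q'
    rw [e1, e2, Fintype.sum_option, Fintype.sum_option]
    show (sq - sp) + 1 + sp = (sp - sq) + 1 + sq
    omega
  let src' : M.E → Σ v, Fin (p v) := fun e =>
    ⟨ε (some (M.src e).1), ⟨(M.src e).2, by rw [hpι]; exact h.hsrc e⟩⟩
  let dst' : M.E → Σ v, Fin (q v) := fun e =>
    ⟨ε (some (M.dst e).1), ⟨(M.dst e).2, by rw [hqι]; exact h.hdst e⟩⟩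
  have hsrc : Function.Injective src' := by
    intro e f hef
    have h1 := congrArg (fun x => (x.1, (x.2 : ℕ))) hef
    obtain ⟨h2, h3⟩ := Prod.mk.inj h1
    refine h.isrc (Prod.ext ?_ h3)
    exact Option.some_injective _ (ε.injective h2)
  have hdst : Function.Injective dst' := by
    intro e f hef
    have h1 := congrArg (fun x => (x.1, (x.2 : ℕ))) hef
    obtain ⟨h2, h3⟩ := Prod.mk.inj h1
    refine h.idst (Prod.ext ?_ h3)
    exact Option.some_injective _ (ε.injective h2)
  obtain ⟨e, he⟩ := exists_complete hcard src' dst' hsrc hdst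
  let N : Net :=
    { m := m
      p := p
      q := q
      hp := fun v => by
        show 0 < p' (ε.symm v)
        rcases ε.symm v with _ | w
        · simp [p']
        · simpa [p'] using h.hp w
      hq := fun v => by
        show 0 < q' (ε.symm v)
        rcases ε.symm v with _ | w
        · simp [q']
        · simpa [q'] using h.hq w
      e := e }
  refine ⟨N, fun v => ε (some v), fun v w hvw => Option.some_injective _ (ε.injective hvw), ?_⟩
  rintro _ _ ⟨x, k, rfl, rfl⟩
  have h1 := N.S_apply (ε (some (M.src x).1)) (src' x).2 k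
  have h2 : N.e ⟨ε (some (M.src x).1), (src' x).2⟩ = dst' x := he x
  rw [h2] at h1
  have e1 : (N.p (ε (some (M.src x).1)) : ℤ) = (M.p (M.src x).1 : ℤ) := by
    exact_mod_cast hpι _
  have e2 : (N.q (ε (some (M.dst x).1)) : ℤ) = (M.q (M.dst x).1 : ℤ) := by
    exact_mod_cast hqι _
  rw [e1] at h1
  have h3 : (N.q (dst' x).1 : ℤ) = (M.q (M.dst x).1 : ℤ) := e2
  rw [h3] at h1
  exact h1

/-- the closed machine: one more edge from the exit to the entry -/
def closed (M : Mach) : Mach where
  V := M.V
  E := Option M.E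
  fV := M.fV
  fE := @instFintypeOption _ M.fE
  dV := M.dV
  p := M.p
  q := M.q
  src := fun e => e.elim (M.out, 0) M.src
  dst := fun e => e.elim (M.inn, 0) M.dst
  inn := M.inn
  out := M.out

theorem closed_pre {M : Mach} (h : M.Ok) : Pre (closed M) where
  hp := h.hp
  hq := h.hq
  hsrc e := by
    rcases e with _ | e
    · exact h.hp _
    · exact h.hsrc e
  hdst e := by
    rcases e with _ | e
    · exact h.hq _
    · exact h.hdst e
  isrc := by
    rintro (_ | e) (_ | f) hef
    · rfl
    · exact absurd (congrArg Prod.fst hef).symm (h.no_out f)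
    · exact absurd (congrArg Prod.fst hef) (h.no_out e)
    · rw [h.isrc hef]
  idst := by
    rintro (_ | e) (_ | f) hef
    · rfl
    · exact absurd (congrArg Prod.fst hef).symm (h.no_in f)
    · exact absurd (congrArg Prod.fst hef) (h.no_in e)
    · rw [h.idst hef]

/-- the embedding into the closed machine -/
def closedE (M : Mach) : Mach.Emb M (closed M) where
  φ := id
  ψ e := some e
  src _ := rfl
  dst _ := rfl
  p _ := rfl
  q _ := rfl

theorem closed_step {M : Mach} (h : M.Ok) (n : ℤ) : (closed M).Step (M.out, n) (M.inn, n) :=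
  Mach.step_link (closed M) (none : Option M.E) rfl rfl h.pout h.qinn n

theorem path_pow {M : Mach} {N : Net} {ι : M.V → Fin N.m}
    (hι : ∀ a b : M.V × ℤ, M.Step a b → N.S (ι a.1, a.2) = (ι b.1, b.2)) {a b : M.V × ℤ}
    {l : List (M.V × ℤ)} (h : M.Path a b l) : (N.S ^ l.length) (ι a.1, a.2) = (ι b.1, b.2) := by
  induction h with
  | nil => rfl
  | cons h1 _ ih => rw [List.length_cons, pow_succ, Equiv.Perm.mul_apply, hι _ _ h1, ih]

/-- The machine `M₁; M₂` repeated forever. -/
theorem forever {M1 M2 : Mach} (h1 : M1.Ok) (h2 : M2.Ok) (x y : ℕ → ℤ)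
    (hx : Function.Injective x)
    (hxy : ∀ k, ∃ l, M1.Path (M1.inn, x k) (M1.out, y k) l)
    (hyx : ∀ k, ∃ l, M2.Path (M2.inn, y k) (M2.out, x (k + 1)) l) :
    ∃ (N : Net) (x0 : N.X), (∀ k : ℤ, k ≠ 0 → (N.S ^ k) x0 ≠ x0) ∧
      ∀ k, ∃ n, k ≤ n ∧ ((N.S ^ n) x0).2 = y k := by
  have hM : (Mach.seq M1 M2).Ok := Mach.seq_ok h1 h2
  obtain ⟨N, ι, -, hι⟩ := exists_net (closed (Mach.seq M1 M2)) (closed_pre hM)
  let inn : (Mach.seq M1 M2).V := (Mach.seq M1 M2).inn
  let x0 : N.X := (ι inn, x 0)
  -- the first half of a round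
  have r1 : ∀ k, ∃ n, (N.S ^ n) (ι inn, x k) = (ι (Sum.inl M1.out), y k) := by
    intro k
    obtain ⟨l, hl⟩ := hxy k
    have e1 := (closedE (Mach.seq M1 M2)).path ((Mach.seqL M1 M2).path hl)
    exact ⟨_, path_pow hι e1⟩
  -- the second half of a round
  have r2 : ∀ k, ∃ n, (N.S ^ (n + 1)) (ι (Sum.inl M1.out), y k) = (ι inn, x (k + 1)) := by
    intro k
    obtain ⟨l, hl⟩ := hyx k
    have e1 := (closedE (Mach.seq M1 M2)).path ((Mach.seqR M1 M2).path hl)
    have e2 := (closedE (Mach.seq M1 M2)).step (Mach.seq_link h1 h2 (y k))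
    have e3 := (Mach.Path.cons e2 e1).append (Mach.Path.single (closed_step hM (x (k + 1))))
    have e4 := path_pow hι e3
    rw [List.length_append, List.length_singleton] at e4
    exact ⟨_, e4⟩
  have r3 : ∀ k, ∃ n, k ≤ n ∧ (N.S ^ n) x0 = (ι inn, x k) := by
    intro k
    induction k with
    | zero => exact ⟨0, le_rfl, rfl⟩
    | succ k ih =>
      obtain ⟨n, hn, hn'⟩ := ih
      obtain ⟨n1, hn1⟩ := r1 k
      obtain ⟨n2, hn2⟩ := r2 k
      refine ⟨(n2 + 1) + (n1 + n), by omega, ?_⟩
      rw [pow_add N.S (n2 + 1) (n1 + n), Equiv.Perm.mul_apply, pow_add N.S n1 n,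
        Equiv.Perm.mul_apply, hn', hn1, hn2]
  refine ⟨N, x0, ?_, fun k => ?_⟩
  · -- infinite orbit
    have key : ∀ j : ℕ, 0 < j → (N.S ^ j) x0 ≠ x0 := by
      intro j hj hper
      have hmod : ∀ n : ℕ, (N.S ^ n) x0 = (N.S ^ (n % j)) x0 := by
        intro n
        have hq : ∀ q : ℕ, (N.S ^ (j * q)) x0 = x0 := by
          intro q
          induction q with
          | zero => simp
          | succ q ih => rw [Nat.mul_succ, pow_add, Equiv.Perm.mul_apply, hper, ih]
        conv_lhs => rw [← Nat.mod_add_div n j, pow_add, Equiv.Perm.mul_apply, hq]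
      have hfin : Set.Finite (Set.range fun i : Fin j => (N.S ^ (i : ℕ)) x0) := Set.finite_range _
      have hinj : Function.Injective fun k : ℕ => ((ι inn, x k) : N.X) := by
        intro k l hkl
        exact hx (Prod.mk.inj hkl).2
      refine Set.infinite_of_injective_forall_mem hinj (fun k => ?_) hfin
      obtain ⟨n, -, hn⟩ := r3 k
      refine ⟨⟨n % j, Nat.mod_lt _ hj⟩, ?_⟩
      show (N.S ^ (n % j)) x0 = (ι inn, x k)
      rw [← hmod, hn]
    intro k hk hper
    obtain ⟨j, rfl | rfl⟩ := k.eq_nat_or_neg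
    · refine key j (by omega) ?_
      rw [← zpow_natCast]
      exact hper
    · refine key j (by omega) ?_
      rw [← zpow_natCast]
      conv_lhs => rw [← hper]
      rw [← Equiv.Perm.mul_apply, ← zpow_add]
      simp
  · obtain ⟨n, hn, hn'⟩ := r3 k
    obtain ⟨n1, hn1⟩ := r1 k
    refine ⟨n1 + n, by omega, ?_⟩
    rw [pow_add, Equiv.Perm.mul_apply, hn', hn1]

end Pool.Agent.DIST
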