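import Pool.Agent.DIST.Mach

/-!
# The compiler
-/

namespace Pool.Agent.DIST

open Function

/-- the code of a state -/
noncomputable def encP (K : ℕ) (a : St) : ℕ := ∏ i ∈ Finset.range K, (Nat.nth Nat.Prime i) ^ (a i)

theorem encP_update {K i : ℕ} (hi : i < K) (a : St) :
    encP K (update a i (a i + 1)) = Nat.nth Nat.Prime i * encP K a := by
  have hi' : i ∈ Finset.range K := Finset.mem_range.2 hi
  rw [encP, encP, ← Finset.mul_prod_erase _ _ hi', ← Finset.mul_prod_erase _ _ hi', update_self,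
    pow_succ, ← mul_assoc, mul_comm (Nat.nth Nat.Prime i ^ a i) (Nat.nth Nat.Prime i)]
  congr 1
  refine Finset.prod_congr rfl fun j hj => ?_
  rw [update_of_ne (Finset.ne_of_mem_erase hj)]

theorem dvd_encP {K i : ℕ} (hi : i < K) (a : St) : Nat.nth Nat.Prime i ∣ encP K a ↔ a i ≠ 0 := by
  have hp := Nat.prime_nth_prime i
  rw [encP, Prime.dvd_finsetProd_iff hp.prime]
  constructor
  · rintro ⟨j, hj, hd⟩
    have h1 := hp.dvd_of_dvd_pow hd
    have h2 : Nat.nth Nat.Prime i = Nat.nth Nat.Prime j :=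
      (Nat.prime_dvd_prime_iff_eq hp (Nat.prime_nth_prime j)).1 h1
    have h3 : i = j := Nat.nth_injective Nat.infinite_setOfPred_prime h2
    subst h3
    rintro h0
    rw [h0, pow_zero] at hd
    exact hp.one_lt.ne' (Nat.dvd_one.1 hd)
  · intro h
    exact ⟨i, Finset.mem_range.2 hi, dvd_pow_self _ h⟩

theorem compile (K : ℕ) (P : Prog) : P.bd ≤ K → ∃ M : Mach, M.Ok ∧ ∀ a b : St, Prog.Run P a b →
    ∃ l, M.Path (M.inn, (encP K a : ℤ)) (M.out, (encP K b : ℤ)) l := by
  have hpos : ∀ i, 0 < Nat.nth Nat.Prime i := fun i => (Nat.prime_nth_prime i).pos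
  induction P with
  | skip =>
    intro _
    refine ⟨Mach.skip, Mach.skip_ok, fun a b h => ?_⟩
    obtain rfl : a = b := h
    exact ⟨_, .nil _⟩
  | inc i =>
    intro hb
    have hi : i < K := hb
    refine ⟨Mach.mul (Nat.nth Nat.Prime i), Mach.mul_ok (hpos i), fun a b h => ?_⟩
    obtain rfl : b = update a i (a i + 1) := h
    rw [encP_update hi]
    exact ⟨_, .single (Mach.mul_step _ _)⟩
  | dec i =>
    intro hb
    have hi : i < K := hb
    refine ⟨Mach.div (Nat.nth Nat.Prime i), Mach.div_ok (hpos i), fun a b h => ?_⟩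
    obtain rfl : a = update b i (b i + 1) := h
    rw [encP_update hi]
    exact ⟨_, .single (Mach.div_step _ _)⟩
  | seq P Q hP hQ =>
    intro hb
    obtain ⟨M, okM, hM⟩ := hP (le_trans (le_max_left _ _) hb)
    obtain ⟨N, okN, hN⟩ := hQ (le_trans (le_max_right _ _) hb)
    refine ⟨Mach.seq M N, Mach.seq_ok okM okN, ?_⟩
    rintro a b ⟨c, h1, h2⟩
    obtain ⟨l1, e1⟩ := hM a c h1
    obtain ⟨l2, e2⟩ := hN c b h2
    exact ⟨_, ((Mach.seqL M N).path e1).append (.cons (Mach.seq_link okM okN _)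
      ((Mach.seqR M N).path e2))⟩
  | loop i j P hP =>
    intro hb
    have hi : i < K := lt_of_lt_of_le (lt_of_lt_of_le (Nat.lt_succ_self i)
      (le_trans (le_max_left _ _) (le_max_left _ _))) hb
    have hj : j < K := lt_of_lt_of_le (lt_of_lt_of_le (Nat.lt_succ_self j)
      (le_trans (le_max_right _ _) (le_max_left _ _))) hb
    obtain ⟨M, okM, hM⟩ := hP (le_trans (le_max_right _ _) hb)
    refine ⟨Mach.loop (Nat.nth Nat.Prime i) (Nat.nth Nat.Prime j) M,
      Mach.loop_ok (hpos i) (hpos j) okM, ?_⟩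
    rintro a b ⟨h1, h2, h3⟩
    have e1 := Mach.loop_enter (m := Nat.nth Nat.Prime i) (M := M) (hpos j)
      (n := encP K a) (by rw [dvd_encP hj]; simpa using h1)
    have e2 : ∀ c, Relation.ReflTransGen
        (fun a c => a i ≠ 0 ∧ Prog.Run P a c ∧ c j ≠ 0) a c →
        ∃ l, (Mach.loop (Nat.nth Nat.Prime i) (Nat.nth Nat.Prime j) M).Path
          (.inl 3, (encP K a : ℤ)) (.inl 3, (encP K c : ℤ)) l := by
      intro c hc
      induction hc with
      | refl => exact ⟨_, .nil _⟩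
      | tail _ hstep ih =>
        obtain ⟨l, hl⟩ := ih
        obtain ⟨s1, s2, s3⟩ := hstep
        obtain ⟨l2, hl2⟩ := hM _ _ s2
        have b1 := Mach.loop_body (m' := Nat.nth Nat.Prime j) (hpos i) okM
          ((dvd_encP hi _).2 s1)
        have b2 := (Mach.loopB (Nat.nth Nat.Prime i) (Nat.nth Nat.Prime j) M).path hl2
        have b3 := Mach.loop_back (m := Nat.nth Nat.Prime i) (hpos j) okM ((dvd_encP hj _).2 s3)
        exact ⟨_, hl.append (b1.append (b2.append b3))⟩
    obtain ⟨l, hl⟩ := e2 b h3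
    have e3 := Mach.loop_exit (m' := Nat.nth Nat.Prime j) (M := M) (hpos i)
      (n := encP K b) (by rw [dvd_encP hi]; simpa using h2)
    exact ⟨_, e1.append (hl.append e3)⟩
  | ite i j P Q hP hQ =>
    intro hb
    have hi : i < K := lt_of_lt_of_le (lt_of_lt_of_le (Nat.lt_succ_self i)
      (le_trans (le_max_left _ _) (le_max_left _ _))) hb
    have hj : j < K := lt_of_lt_of_le (lt_of_lt_of_le (Nat.lt_succ_self j)
      (le_trans (le_max_right _ _) (le_max_left _ _))) hb
    obtain ⟨M, okM, hM⟩ := hP (le_trans (le_trans (le_max_left _ _) (le_max_right _ _)) hb)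
    obtain ⟨N, okN, hN⟩ := hQ (le_trans (le_trans (le_max_right _ _) (le_max_right _ _)) hb)
    refine ⟨Mach.ite (Nat.nth Nat.Prime i) (Nat.nth Nat.Prime j) M N,
      Mach.ite_ok (hpos i) (hpos j) okM okN, ?_⟩
    rintro a b (⟨h1, h2, h3⟩ | ⟨h1, h2, h3⟩)
    · obtain ⟨l, hl⟩ := hM _ _ h2
      have b1 := Mach.ite_in1 (m' := Nat.nth Nat.Prime j) (N := N) (hpos i) okM
        ((dvd_encP hi _).2 h1)
      have b2 := (Mach.iteL (Nat.nth Nat.Prime i) (Nat.nth Nat.Prime j) M N).path hl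
      have b3 := Mach.ite_out1 (m := Nat.nth Nat.Prime i) (N := N) (hpos j) okM
        ((dvd_encP hj _).2 h3)
      exact ⟨_, b1.append (b2.append b3)⟩
    · obtain ⟨l, hl⟩ := hN _ _ h2
      have b1 := Mach.ite_in2 (m' := Nat.nth Nat.Prime j) (M := M) (hpos i) okN
        (n := encP K a) (by rw [dvd_encP hi]; simpa using h1)
      have b2 := (Mach.iteR (Nat.nth Nat.Prime i) (Nat.nth Nat.Prime j) M N).path hl
      have b3 := Mach.ite_out2 (m := Nat.nth Nat.Prime i) (M := M) (hpos j) okN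
        (n := encP K b) (by rw [dvd_encP hj]; simpa using h3)
      exact ⟨_, b1.append (b2.append b3)⟩

end Pool.Agent.DIST
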