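import Pool.Agent.DIST.Low

/-!
# Distortion functions and the final theorem, from the machine theorem
-/

namespace Pool.Agent.DIST

open Pool.Agent.helper12.FD

/-- Word length: the least `n` such that `g` is a product of at most `n` elements of `S ∪ S⁻¹`. -/
noncomputable def wordLength {G : Type*} [Group G] (S : Set G) (g : G) : ℕ :=
  sInf {n | ∃ w : List G, w.length ≤ n ∧ (∀ x ∈ w, x ∈ S ∨ x⁻¹ ∈ S) ∧ w.prod = g}

/-- The distortion function of `H` for the generating sets `S` of the group and `T` of `H`: the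
largest `|h|_T` for `h ∈ H` with `|h|_S ≤ n`. -/
noncomputable def distortion {G : Type*} [Group G] (S T : Set G) (H : Subgroup G) (n : ℕ) : ℕ :=
  sSup {k | ∃ h ∈ H, wordLength S h ≤ n ∧ wordLength T h = k}

/-- The usual comparison of functions. -/
def Preceq (f g : ℕ → ℕ) : Prop := ∃ C : ℕ, 1 ≤ C ∧ ∀ n, f n ≤ C * g (C * n + C) + C * n + C

section gen

variable {E : Type*} [Group E]

theorem wordLength_le {S : Set E} {g : E} {n : ℕ} (h : W S g n) : wordLength S g ≤ n :=
  Nat.sInf_le h

theorem W_wordLength {S : Set E} {g : E} (h : g ∈ Subgroup.closure S) :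
    W S g (wordLength S g) :=
  Nat.sInf_mem (s := {n | W S g n}) (exists_W h)

theorem ball_finite {S : Set E} (hS : S.Finite) (n : ℕ) : {g | W S g n}.Finite := by
  induction n with
  | zero =>
    refine (Set.finite_singleton (1 : E)).subset fun g hg => ?_
    exact W_zero hg
  | succ n ih =>
    have hS' : (S ∪ S⁻¹).Finite := hS.union hS.inv
    refine (ih.union (hS'.mul ih)).subset fun g hg => ?_
    obtain ⟨l, h1, h2, h3⟩ := hg
    cases l with
    | nil => exact Or.inl ⟨[], by simp, by simp, h3⟩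
    | cons x l =>
      refine Or.inr ⟨x, ?_, l.prod, ⟨l, by simpa using h1, fun y hy => h2 y (by simp [hy]), rfl⟩, ?_⟩
      · rcases h2 x (by simp) with h | h
        · exact Or.inl h
        · exact Or.inr h
      · simpa using h3

theorem bdd {S T : Set E} (hS : S.Finite) (hS' : Subgroup.closure S = ⊤) (H : Subgroup E) (n : ℕ) :
    BddAbove {k | ∃ h ∈ H, wordLength S h ≤ n ∧ wordLength T h = k} := by
  refine (((ball_finite hS n).image (wordLength T))).bddAbove.mono ?_
  rintro k ⟨h, -, h2, rfl⟩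
  refine ⟨h, W_mono (W_wordLength ?_) h2, rfl⟩
  rw [hS']
  trivial

theorem le_distortion {S T : Set E} (hS : S.Finite) (hS' : Subgroup.closure S = ⊤)
    {H : Subgroup E} {h : E} (hh : h ∈ H) {n : ℕ} (hn : wordLength S h ≤ n) :
    wordLength T h ≤ distortion S T H n :=
  le_csSup (bdd hS hS' H n) ⟨h, hh, hn, rfl⟩

theorem distortion_mono {S T : Set E} (hS : S.Finite) (hS' : Subgroup.closure S = ⊤)
    (H : Subgroup E) : Monotone (distortion S T H) := by
  intro m n hmn
  refine csSup_le' ?_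
  rintro k ⟨h, h1, h2, rfl⟩
  exact le_distortion hS hS' h1 (h2.trans hmn)

end gen

namespace Net

variable (N : Net) (x0 : N.X)

/-- The lower bound for the distortion function of `H`. -/
theorem group_main (hinf : ∀ k : ℤ, k ≠ 0 → (N.S ^ k) x0 ≠ x0) {S T : Set G}
    (hS : S.Finite) (hS' : Subgroup.closure S = ⊤) (hT : T.Finite)
    (hT' : Subgroup.closure T = N.H x0) :
    ∃ C : ℕ, 1 ≤ C ∧ ∀ n : ℕ,
      n ≤ C * distortion S T (N.H x0) (C * (((N.S ^ n) x0).2.natAbs + 1)) := by
  obtain ⟨K, hK⟩ := exists_bound (S := {G.t, G.a, G.z}) (S' := S) (by simp)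
    (fun x _ => by rw [hS']; trivial)
  obtain ⟨Q, hQ⟩ := exists_bound (S := T) (S' := insert G.z (N.Y x0)) hT
    (fun x hx => by
      have : x ∈ Subgroup.closure T := Subgroup.subset_closure hx
      rw [hT'] at this
      exact this)
  have hKt : W S G.t K := hK _ (by simp)
  have hKa : W S G.a K := hK _ (by simp)
  have hKz : W S G.z K := hK _ (by simp)
  let M : ℕ := Finset.univ.sup (N.ent x0)
  have hM : ∀ ω, N.ent x0 ω ≤ M := fun ω => Finset.le_sup (Finset.mem_univ ω)
  let c : ℕ := (N.cq x0).2.natAbs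
  have hrep : ∀ x : N.X, W S (N.rep x0 x) (K * (x.2.natAbs + c) + K * M) := by
    intro x
    refine W_mul (W_mono (W_zpow hKt _) ?_) (W_mono (W_pow hKa _) (Nat.mul_le_mul_left _ (hM _)))
    refine Nat.mul_le_mul_left _ ?_
    have h1 : (N.cq x).2.natAbs ≤ x.2.natAbs := by
      show (x.2 / (N.q x.1 : ℤ)).natAbs ≤ _
      exact Int.natAbs_ediv_le_natAbs _ _
    have h2 : ((N.cq x).2 - (N.cq x0).2).natAbs ≤ (N.cq x).2.natAbs + (N.cq x0).2.natAbs := by
      omega
    show _ ≤ x.2.natAbs + (N.cq x0).2.natAbs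
    omega
  refine ⟨(2 * K * (1 + c + M) + K) + Q + 1, by omega, fun n => ?_⟩
  let x := (N.S ^ n) x0
  have h1 : W S (N.gel x0 n) ((K * (x.2.natAbs + c) + K * M) + K + (K * (x.2.natAbs + c) + K * M)) :=
    W_mul (W_mul (W_inv (hrep x)) hKz) (hrep x)
  have h2 : N.gel x0 n ∈ N.H x0 := N.mem_H x0 n
  set C := (2 * K * (1 + c + M) + K) + Q + 1 with hC
  have h3 : wordLength S (N.gel x0 n) ≤ C * (x.2.natAbs + 1) := by
    refine (wordLength_le h1).trans ?_
    have e1 : (2 * K * (1 + c + M) + K) * (x.2.natAbs + 1) ≤ C * (x.2.natAbs + 1) :=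
      Nat.mul_le_mul_right _ (by omega)
    refine le_trans ?_ e1
    have e2 : 0 ≤ K * c * x.2.natAbs := Nat.zero_le _
    have e3 : 0 ≤ K * M * x.2.natAbs := Nat.zero_le _
    have e4 : 0 ≤ K * x.2.natAbs := Nat.zero_le _
    nlinarith
  have h4 := le_distortion (T := T) hS hS' h2 h3
  have h5 : W T (N.gel x0 n) (wordLength T (N.gel x0 n)) := W_wordLength (by rw [hT']; exact h2)
  have h6 := N.low x0 hinf n (W_trans hQ h5)
  calc n ≤ Q * wordLength T (N.gel x0 n) := h6
    _ ≤ C * distortion S T (N.H x0) (C * (x.2.natAbs + 1)) :=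
        Nat.mul_le_mul (by omega) h4

end Net

/-- The interface to the machine half. -/
def MachineStatement : Prop :=
  ∃ (N : Net) (x0 : N.X), (∀ k : ℤ, k ≠ 0 → (N.S ^ k) x0 ≠ x0) ∧
    ∀ B : ℕ → ℕ, Computable B → ∃ y0 : ℕ, ∀ y, y0 ≤ y →
      ∃ n : ℕ, ((N.S ^ n) x0).2.natAbs ≤ y ∧ B y < n

theorem computable_sum {f : ℕ → ℕ} (hf : Computable f) :
    Computable (fun n => ∑ i ∈ Finset.range n, f i) := by
  have h : Computable (fun n : ℕ => Nat.rec (motive := fun _ => ℕ) 0
      (fun i acc => acc + f i) n) := by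
    refine Computable.nat_rec (f := fun n : ℕ => n) (g := fun _ => 0)
      (h := fun _ p => p.2 + f p.1) Computable.id (Computable.const 0) ?_
    exact (Primrec.nat_add.to_comp).comp (Computable.snd.comp Computable.snd)
      (hf.comp (Computable.fst.comp Computable.snd))
  refine h.of_eq fun n => ?_
  induction n with
  | zero => simp
  | succ n ih => rw [Finset.sum_range_succ, ← ih]

/-- A finitely generated subgroup of `F₄ ⋊ ℤ` whose distortion function eventually dominates every
computable function. -/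
theorem main_of_machine (hmach : MachineStatement) :
    ∃ H : Subgroup G, H.FG ∧ ∀ S T : Set G, S.Finite → Subgroup.closure S = ⊤ →
      T.Finite → Subgroup.closure T = H →
        ∀ f : ℕ → ℕ, Computable f → ∃ n0 : ℕ, ∀ n, n0 ≤ n → f n < distortion S T H n := by
  obtain ⟨N, x0, hinf, hB⟩ := hmach
  refine ⟨N.H x0, N.H_fg x0, fun S T hS hS' hT hT' f hf => ?_⟩
  obtain ⟨C, hC1, hC⟩ := N.group_main x0 hinf hS hS' hT hT'
  have hcomp : Computable (fun y => C * (∑ i ∈ Finset.range (C * (y + 2)), f i)) := by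
    have h1 : Computable (fun y : ℕ => C * (y + 2)) :=
      (Primrec.nat_mul.comp (Primrec.const C)
        (Primrec.nat_add.comp Primrec.id (Primrec.const 2))).to_comp
    exact Primrec.nat_mul.to_comp.comp (Computable.const C) ((computable_sum hf).comp h1)
  obtain ⟨y0, hy0⟩ := hB _ hcomp
  refine ⟨C * (y0 + 1), fun m hm => ?_⟩
  -- choose `y` with `C * (y + 1) ≤ m < C * (y + 2)`
  have hq : y0 + 1 ≤ m / C := (Nat.le_div_iff_mul_le (by omega)).2 (by rw [mul_comm]; exact hm)
  obtain ⟨y, hy⟩ : ∃ y, m / C = y + 1 := ⟨m / C - 1, by omega⟩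
  obtain ⟨n, hn1, hn2⟩ := hy0 y (by omega)
  have hm1 : C * (y + 1) ≤ m := by
    rw [← hy]
    exact Nat.mul_div_le m C
  have hm2 : m < C * (y + 2) := by
    have := Nat.lt_mul_div_succ m (show 0 < C by omega)
    rw [hy] at this
    exact this
  have h1 : f m ≤ ∑ i ∈ Finset.range (C * (y + 2)), f i :=
    Finset.single_le_sum (f := f) (fun _ _ => Nat.zero_le _) (Finset.mem_range.2 hm2)
  have h2 : n ≤ C * distortion S T (N.H x0) m := by
    refine (hC n).trans (Nat.mul_le_mul_left _ (distortion_mono hS hS' _ ?_))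
    exact (Nat.mul_le_mul_left _ (by omega)).trans hm1
  have h3 : C * f m < C * distortion S T (N.H x0) m := by
    calc C * f m ≤ C * ∑ i ∈ Finset.range (C * (y + 2)), f i := Nat.mul_le_mul_left _ h1
      _ < n := hn2
      _ ≤ _ := h2
  exact lt_of_mul_lt_mul_left h3 (Nat.zero_le _)

theorem not_preceq_of_dominates {d : ℕ → ℕ}
    (h : ∀ f : ℕ → ℕ, Computable f → ∃ n0 : ℕ, ∀ n, n0 ≤ n → f n < d n) (f : ℕ → ℕ)
    (hf : Computable f) : ¬ Preceq d f := by
  rintro ⟨C, -, hC⟩
  have h1 : Computable (fun n : ℕ => C * f (C * n + C) + C * n + C) := by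
    have e1 : Computable (fun n : ℕ => C * n + C) :=
      (Primrec.nat_add.comp (Primrec.nat_mul.comp (Primrec.const C) Primrec.id)
        (Primrec.const C)).to_comp
    have e2 : Computable (fun n : ℕ => C * f (C * n + C)) :=
      Primrec.nat_mul.to_comp.comp (Computable.const C) (hf.comp e1)
    have e3 : Computable (fun n : ℕ => C * n) := (Primrec.nat_mul.comp (Primrec.const C) Primrec.id).to_comp
    exact Primrec.nat_add.to_comp.comp (Primrec.nat_add.to_comp.comp e2 e3) (Computable.const C)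
  obtain ⟨n0, hn0⟩ := h _ h1
  have := hn0 n0 le_rfl
  have := hC n0
  omega

end Pool.Agent.DIST
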