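import Pool.Agent.FBC.Halt

/-!
# DIST: the first zeros of `E` beat every computable function at exponential scale
-/

namespace Pool.Agent.DIST

open Pool.Agent.FBC

/-- Let `E` be as in `Pool.Agent.FBC.halt`. For all constants `c`, `q ≥ 2` and every computable
`B`, for all large `y` there are `a` and the first zero `m` of `E a` with `c * q ^ a ≤ y` and
`B y < m`. -/
theorem growth {E : ℕ → ℕ → ℕ}
    (hE : ∀ g : ℕ → ℕ, Computable g → ∃ C : ℕ, ∀ m, ∃ a k, a ≤ C * (m + 1) ∧ g m ≤ k ∧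
      E a k = 0 ∧ ∀ k' < k, E a k' ≠ 0)
    (c q : ℕ) (hq : 2 ≤ q) (B : ℕ → ℕ) (hB : Computable B) :
    ∃ y0, ∀ y, y0 ≤ y → ∃ a m, E a m = 0 ∧ (∀ m' < m, E a m' ≠ 0) ∧ c * q ^ a ≤ y ∧ B y < m := by
  have hpow : Primrec₂ (fun a b : ℕ => a ^ b) := by
    have h : Primrec₂ (fun a b : ℕ => Nat.rec (motive := fun _ => ℕ) 1 (fun _ ih => ih * a) b) := by
      refine Primrec.nat_rec' (f := fun p : ℕ × ℕ => p.2) (g := fun _ => 1)
        (h := fun p r => r.2 * p.1) Primrec.snd (Primrec.const 1) ?_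
      exact (Primrec.nat_mul.comp (Primrec.snd.comp Primrec.snd)
        (Primrec.fst.comp Primrec.fst)).to₂
    refine h.of_eq fun a b => ?_
    induction b with
    | zero => rfl
    | succ b ih => rw [pow_succ, ← ih]
  have hbd : Computable (fun m : ℕ => q ^ ((m + 2) * (m + 2))) := by
    have h2 : Primrec (fun m : ℕ => (m + 2) * (m + 2)) :=
      Primrec.nat_mul.comp (Primrec.nat_add.comp Primrec.id (Primrec.const 2))
        (Primrec.nat_add.comp Primrec.id (Primrec.const 2))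
    exact (hpow.comp (Primrec.const q) h2).to_comp
  have hg : Computable (fun m : ℕ => hG B (q ^ ((m + 2) * (m + 2))) + 1) :=
    Computable.succ.comp ((hG_computable hB).comp hbd)
  obtain ⟨C, hC⟩ := hE _ hg
  have hD1 : 1 ≤ C + c + 1 := by omega
  have hqp : 0 < q := by omega
  refine ⟨q ^ ((C + c + 1) * (C + c + 2)), fun y hy => ?_⟩
  have hy0 : y ≠ 0 := by
    have := Nat.pow_pos hqp (n := (C + c + 1) * (C + c + 2))
    omega
  have hL : (C + c + 1) * (C + c + 2) ≤ Nat.log q y := (Nat.le_log_iff_pow_le hq hy0).2 hy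
  have hL1 : q ^ Nat.log q y ≤ y := Nat.pow_log_le_self q hy0
  have hL2 : y < q ^ (Nat.log q y + 1) := Nat.lt_pow_succ_log_self hq y
  generalize Nat.log q y = L at hL hL1 hL2
  -- `m + 1 = L / D`
  have hm1 : C + c + 2 ≤ L / (C + c + 1) := (Nat.le_div_iff_mul_le hD1).2 (by rwa [Nat.mul_comm])
  obtain ⟨m, hm⟩ : ∃ m, L / (C + c + 1) = m + 1 := ⟨L / (C + c + 1) - 1, by omega⟩
  rw [hm] at hm1
  have hlo : (C + c + 1) * (m + 1) ≤ L := by
    have := Nat.mul_div_le L (C + c + 1)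
    rwa [hm] at this
  have hhi : L + 1 ≤ (m + 2) * (m + 2) := by
    have h1 : L < (C + c + 1) * (m + 1 + 1) := by
      have := Nat.lt_mul_div_succ L (show 0 < C + c + 1 by omega)
      rwa [hm] at this
    have h2 : (C + c + 1) * (m + 2) ≤ (m + 2) * (m + 2) := Nat.mul_le_mul_right _ (by omega)
    exact lt_of_lt_of_le h1 h2
  obtain ⟨a, k, ha, hk, h0, hmin⟩ := hC m
  refine ⟨a, k, h0, hmin, ?_, ?_⟩
  · have h1 : c ≤ q ^ c := (Nat.lt_pow_self hq).le
    calc c * q ^ a ≤ q ^ c * q ^ (C * (m + 1)) :=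
          Nat.mul_le_mul h1 (Nat.pow_le_pow_right hqp ha)
      _ = q ^ (c + C * (m + 1)) := (pow_add _ _ _).symm
      _ ≤ q ^ ((C + c + 1) * (m + 1)) := Nat.pow_le_pow_right hqp (by nlinarith)
      _ ≤ q ^ L := Nat.pow_le_pow_right hqp hlo
      _ ≤ y := hL1
  · have h2 : y ≤ q ^ ((m + 2) * (m + 2)) :=
      hL2.le.trans (Nat.pow_le_pow_right hqp hhi)
    have h3 := le_hG B _ y h2
    omega

end Pool.Agent.DIST
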