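import Pool.Agent.DIST.Prog
import Pool.Agent.FBC.Halt

/-!
# The main loop

Registers: `0 = A`, `1 = B`, `2 = K`, `3 = M`, `4 = T`; scratch registers from `5` on.
-/

namespace Pool.Agent.DIST

open Pool.Agent.FBC Function

/-- the state with the given contents of the registers `0, …, 4` -/
def st (a b k m t : ℕ) : St := fun i =>
  match i with
  | 0 => a
  | 1 => b
  | 2 => k
  | 3 => m
  | 4 => t
  | _ => 0

theorem st_up0 (a b k m t v : ℕ) : update (st a b k m t) 0 v = st v b k m t := by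
  funext i
  match i with
  | 0 => simp [st]
  | 1 => simp [st]
  | 2 => simp [st]
  | 3 => simp [st]
  | 4 => simp [st]
  | (n + 5) => simp [st]

theorem st_up1 (a b k m t v : ℕ) : update (st a b k m t) 1 v = st a v k m t := by
  funext i
  match i with
  | 0 => simp [st]
  | 1 => simp [st]
  | 2 => simp [st]
  | 3 => simp [st]
  | 4 => simp [st]
  | (n + 5) => simp [st]

theorem st_up2 (a b k m t v : ℕ) : update (st a b k m t) 2 v = st a b v m t := by
  funext i
  match i with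
  | 0 => simp [st]
  | 1 => simp [st]
  | 2 => simp [st]
  | 3 => simp [st]
  | 4 => simp [st]
  | (n + 5) => simp [st]

theorem st_up3 (a b k m t v : ℕ) : update (st a b k m t) 3 v = st a b k v t := by
  funext i
  match i with
  | 0 => simp [st]
  | 1 => simp [st]
  | 2 => simp [st]
  | 3 => simp [st]
  | 4 => simp [st]
  | (n + 5) => simp [st]

theorem st_up4 (a b k m t v : ℕ) : update (st a b k m t) 4 v = st a b k m v := by
  funext i
  match i with
  | 0 => simp [st]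
  | 1 => simp [st]
  | 2 => simp [st]
  | 3 => simp [st]
  | 4 => simp [st]
  | (n + 5) => simp [st]

theorem st_zero (a b k m t : ℕ) (r : ℕ) (hr : 5 ≤ r) : st a b k m t r = 0 := by
  obtain ⟨n, rfl⟩ := Nat.exists_eq_add_of_le' hr
  rfl

/-- `P` adds `f (xs)` to the register `y`, with scratch registers from `5` on. -/
def Adds {k : ℕ} (P : Prog) (f : (Fin k → ℕ) → ℕ) (xs : Fin k → ℕ) (y : ℕ) : Prop :=
  ∀ ρ : St, (∀ r, 5 ≤ r → ρ r = 0) → Prog.Run P ρ (update ρ y (ρ y + f (fun i => ρ (xs i))))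

section

variable {E : ℕ → ℕ → ℕ} {good : ℕ → ℕ}
  {PG PL PR PP PE : Prog}

/-- the search program -/
def search (PE : Prog) : Prog :=
  .seq PE (.loop 4 3 (.seq PE.inv (.seq (.inc 3) PE)))

theorem run_search (hE : Adds PE (fun v : Fin 2 → ℕ => E (v 0) (v 1)) ![0, 3] 4) {a b m : ℕ}
    (h0 : E a m = 0) (h1 : ∀ j < m, E a j ≠ 0) :
    Prog.Run (search PE) (st a b 0 0 0) (st a b 0 m 0) := by
  have e1 : ∀ j : ℕ, Prog.Run PE (st a b 0 j 0) (st a b 0 j (E a j)) := by
    intro j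
    have := hE (st a b 0 j 0) (st_zero _ _ _ _ _)
    rw [st_up4] at this
    simpa [st] using this
  have e2 : Prog.Run (.loop 4 3 (.seq PE.inv (.seq (.inc 3) PE)))
      (st a b 0 0 (E a 0)) (st a b 0 m (E a m)) := by
    refine Prog.Run.loop (fun j => st a b 0 j (E a j)) m rfl h0 fun j hj => ⟨h1 j hj, ?_, ?_⟩
    · refine Prog.Run.seq ((Prog.run_inv _ _ _).2 (e1 j)) ?_
      refine Prog.Run.seq (Prog.run_inc 3 _) ?_
      rw [st_up3]
      exact e1 (j + 1)
    · exact Nat.succ_ne_zero j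
  rw [h0] at e2
  exact Prog.Run.seq (e1 0) e2

/-- the branch for the good stages -/
def branch (PL PR PP PE : Prog) : Prog :=
  .seq PL (.seq PR (.seq PP.inv (search PE).inv))

theorem run_branch (hL : Adds PL (fun v : Fin 1 → ℕ => (v 0).unpair.1) ![2] 0)
    (hR : Adds PR (fun v : Fin 1 → ℕ => (v 0).unpair.2) ![2] 3)
    (hP : Adds PP (fun v : Fin 2 → ℕ => Nat.pair (v 0) (v 1)) ![0, 3] 2)
    (hE : Adds PE (fun v : Fin 2 → ℕ => E (v 0) (v 1)) ![0, 3] 4) {k : ℕ}
    (h0 : E k.unpair.1 k.unpair.2 = 0) (h1 : ∀ j < k.unpair.2, E k.unpair.1 j ≠ 0) :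
    Prog.Run (branch PL PR PP PE) (st 0 1 k 0 0) (st k.unpair.1 1 0 0 0) := by
  have e1 : Prog.Run PL (st 0 1 k 0 0) (st k.unpair.1 1 k 0 0) := by
    have := hL (st 0 1 k 0 0) (st_zero _ _ _ _ _)
    rw [st_up0] at this
    simpa [st] using this
  have e2 : Prog.Run PR (st k.unpair.1 1 k 0 0) (st k.unpair.1 1 k k.unpair.2 0) := by
    have := hR (st k.unpair.1 1 k 0 0) (st_zero _ _ _ _ _)
    rw [st_up3] at this
    simpa [st] using this
  have e3 : Prog.Run PP (st k.unpair.1 1 0 k.unpair.2 0) (st k.unpair.1 1 k k.unpair.2 0) := by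
    have := hP (st k.unpair.1 1 0 k.unpair.2 0) (st_zero _ _ _ _ _)
    rw [st_up2] at this
    simpa [st] using this
  exact Prog.Run.seq e1 (Prog.Run.seq e2 (Prog.Run.seq ((Prog.run_inv _ _ _).2 e3)
    ((Prog.run_inv _ _ _).2 (run_search hE h0 h1))))

/-- the first half of a stage -/
def first (PG PL PR PP PE : Prog) : Prog := .seq PG (.ite 1 1 (branch PL PR PP PE) .skip)

/-- the second half of a stage -/
def second (PG PL PR PP PE : Prog) : Prog := .seq (first PG PL PR PP PE).inv (.inc 2)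

/-- the state in the middle of stage `k` -/
def mid (good : ℕ → ℕ) (k : ℕ) : St :=
  if good k = 0 then st 0 0 k 0 0 else st k.unpair.1 1 0 0 0

theorem run_first (hG : Adds PG (fun v : Fin 1 → ℕ => good (v 0)) ![2] 1)
    (hL : Adds PL (fun v : Fin 1 → ℕ => (v 0).unpair.1) ![2] 0)
    (hR : Adds PR (fun v : Fin 1 → ℕ => (v 0).unpair.2) ![2] 3)
    (hP : Adds PP (fun v : Fin 2 → ℕ => Nat.pair (v 0) (v 1)) ![0, 3] 2)
    (hE : Adds PE (fun v : Fin 2 → ℕ => E (v 0) (v 1)) ![0, 3] 4)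
    (hg : ∀ k, good k = 0 ∨ (good k = 1 ∧ E k.unpair.1 k.unpair.2 = 0 ∧
      ∀ j < k.unpair.2, E k.unpair.1 j ≠ 0)) (k : ℕ) :
    Prog.Run (first PG PL PR PP PE) (st 0 0 k 0 0) (mid good k) := by
  have e1 : Prog.Run PG (st 0 0 k 0 0) (st 0 (good k) k 0 0) := by
    have := hG (st 0 0 k 0 0) (st_zero _ _ _ _ _)
    rw [st_up1] at this
    simpa [st] using this
  refine Prog.Run.seq e1 ?_
  rcases hg k with h | ⟨h, h0, h1⟩
  · rw [mid, if_pos h, h]
    exact Or.inr ⟨rfl, rfl, rfl⟩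
  · rw [mid, if_neg (by omega), h]
    exact Or.inl ⟨one_ne_zero, run_branch hL hR hP hE h0 h1, one_ne_zero⟩

theorem run_second (hG : Adds PG (fun v : Fin 1 → ℕ => good (v 0)) ![2] 1)
    (hL : Adds PL (fun v : Fin 1 → ℕ => (v 0).unpair.1) ![2] 0)
    (hR : Adds PR (fun v : Fin 1 → ℕ => (v 0).unpair.2) ![2] 3)
    (hP : Adds PP (fun v : Fin 2 → ℕ => Nat.pair (v 0) (v 1)) ![0, 3] 2)
    (hE : Adds PE (fun v : Fin 2 → ℕ => E (v 0) (v 1)) ![0, 3] 4)
    (hg : ∀ k, good k = 0 ∨ (good k = 1 ∧ E k.unpair.1 k.unpair.2 = 0 ∧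
      ∀ j < k.unpair.2, E k.unpair.1 j ≠ 0)) (k : ℕ) :
    Prog.Run (second PG PL PR PP PE) (mid good k) (st 0 0 (k + 1) 0 0) := by
  refine Prog.Run.seq ((Prog.run_inv _ _ _).2 (run_first hG hL hR hP hE hg k)) ?_
  have := Prog.run_inc 2 (st 0 0 k 0 0)
  rw [st_up2] at this
  exact this

end

/-! ### The predicate `good` -/

/-- the product of the values before `m` -/
def prodE (E : ℕ → ℕ → ℕ) (a m : ℕ) : ℕ := Nat.rec 1 (fun j acc => acc * E a j) m

theorem prodE_ne {E : ℕ → ℕ → ℕ} {a m : ℕ} : prodE E a m ≠ 0 ↔ ∀ j < m, E a j ≠ 0 := by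
  induction m with
  | zero => simp [prodE]
  | succ m ih =>
    have : prodE E a (m + 1) = prodE E a m * E a m := rfl
    rw [this, mul_ne_zero_iff, ih]
    constructor
    · rintro ⟨h1, h2⟩ j hj
      rcases Nat.lt_succ_iff_lt_or_eq.1 hj with h | rfl
      · exact h1 j h
      · exact h2
    · exact fun h => ⟨fun j hj => h j (by omega), h m (by omega)⟩

/-- the good stages -/
def goodE (E : ℕ → ℕ → ℕ) (k : ℕ) : ℕ :=
  (1 - E k.unpair.1 k.unpair.2) * (1 - (1 - prodE E k.unpair.1 k.unpair.2))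

theorem goodE_spec (E : ℕ → ℕ → ℕ) (k : ℕ) : goodE E k = 0 ∨ (goodE E k = 1 ∧
    E k.unpair.1 k.unpair.2 = 0 ∧ ∀ j < k.unpair.2, E k.unpair.1 j ≠ 0) := by
  by_cases h1 : E k.unpair.1 k.unpair.2 = 0
  · by_cases h2 : prodE E k.unpair.1 k.unpair.2 = 0
    · exact Or.inl (by simp [goodE, h2])
    · refine Or.inr ⟨?_, h1, prodE_ne.1 h2⟩
      have : 1 - prodE E k.unpair.1 k.unpair.2 = 0 := by omega
      simp [goodE, h1, this]
  · refine Or.inl ?_
    have : 1 - E k.unpair.1 k.unpair.2 = 0 := by omega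
    simp [goodE, this]

theorem goodE_pos {E : ℕ → ℕ → ℕ} {a m : ℕ} (h0 : E a m = 0) (h1 : ∀ j < m, E a j ≠ 0) :
    goodE E (Nat.pair a m) ≠ 0 := by
  have h2 := prodE_ne.2 h1
  have : 1 - prodE E a m = 0 := by omega
  simp [goodE, h0, this]

theorem goodE_primrec {E : ℕ → ℕ → ℕ} (hE : Nat.Primrec (fun n => E n.unpair.1 n.unpair.2)) :
    Nat.Primrec (goodE E) := by
  have hE2 : Primrec₂ E := by
    have h1 : Primrec (fun n : ℕ => E n.unpair.1 n.unpair.2) := Primrec.nat_iff.2 hE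
    have h2 : Primrec (fun p : ℕ × ℕ => E (Nat.pair p.1 p.2).unpair.1 (Nat.pair p.1 p.2).unpair.2) :=
      h1.comp (Primrec₂.natPair.comp Primrec.fst Primrec.snd)
    exact h2.of_eq fun p => by simp
  have hP : Primrec₂ (prodE E) := by
    have h : Primrec₂ (fun (a : ℕ) (p : ℕ × ℕ) => p.2 * E a p.1) :=
      Primrec.nat_mul.comp (Primrec.snd.comp Primrec.snd)
        (hE2.comp Primrec.fst (Primrec.fst.comp Primrec.snd))
    exact Primrec.nat_rec (Primrec.const 1) h
  have hl : Primrec (fun k : ℕ => k.unpair.1) := Primrec.fst.comp Primrec.unpair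
  have hr : Primrec (fun k : ℕ => k.unpair.2) := Primrec.snd.comp Primrec.unpair
  refine Primrec.nat_iff.1 ?_
  exact Primrec.nat_mul.comp
    (Primrec.nat_sub.comp (Primrec.const 1) (hE2.comp hl hr))
    (Primrec.nat_sub.comp (Primrec.const 1)
      (Primrec.nat_sub.comp (Primrec.const 1) (hP.comp hl hr)))

end Pool.Agent.DIST
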