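import Pool.Agent.DIST.Fin
import Pool.Agent.DIST.Close
import Pool.Agent.DIST.Comp
import Pool.Agent.DIST.Master
import Pool.Agent.DIST.Growth
import Pool.Agent.DIST.Arith
import Pool.Agent.FBC.ClB

namespace Pool.Agent.DIST

open Pool.Agent.FBC Function

theorem adds_of_cl {k : ℕ} {f : (Fin k → ℕ) → ℕ} (hf : Cl f) (xs : Fin k → ℕ) (y : ℕ)
    (h1 : ∀ i, xs i < 5) (h2 : y < 5) (h3 : ∀ i, xs i ≠ y) : ∃ P : Prog, Adds P f xs y :=
  computes_of_cl hf xs y 5 h1 h2 h3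

/-- The programs of the main loop. -/
theorem exists_programs : ∃ (E : ℕ → ℕ → ℕ) (P1 P2 : Prog) (good : ℕ → ℕ),
    (∀ g : ℕ → ℕ, Computable g → ∃ C : ℕ, ∀ m, ∃ a k, a ≤ C * (m + 1) ∧ g m ≤ k ∧
      E a k = 0 ∧ ∀ k' < k, E a k' ≠ 0) ∧
    (∀ a m, E a m = 0 → (∀ j < m, E a j ≠ 0) → good (Nat.pair a m) ≠ 0) ∧
    (∀ k, Prog.Run P1 (st 0 0 k 0 0) (mid good k)) ∧
    (∀ k, Prog.Run P2 (mid good k) (st 0 0 (k + 1) 0 0)) := by
  obtain ⟨E, hE1, hE2⟩ := halt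
  have cE : Cl (fun v : Fin 2 → ℕ => E (v 0) (v 1)) := by
    have := primrec_cl hE1 (Cl.pair (Cl.proj (0 : Fin 2)) (Cl.proj (1 : Fin 2)))
    simpa using this
  have cG : Cl (fun v : Fin 1 → ℕ => goodE E (v 0)) := primrec_cl (goodE_primrec hE1) (Cl.proj 0)
  have cL : Cl (fun v : Fin 1 → ℕ => (v 0).unpair.1) := Cl.left (Cl.proj 0)
  have cR : Cl (fun v : Fin 1 → ℕ => (v 0).unpair.2) := Cl.right (Cl.proj 0)
  have cP : Cl (fun v : Fin 2 → ℕ => Nat.pair (v 0) (v 1)) := Cl.pair (Cl.proj 0) (Cl.proj 1)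
  obtain ⟨PG, hG⟩ := adds_of_cl cG ![2] 1 (by decide) (by decide) (by decide)
  obtain ⟨PL, hL⟩ := adds_of_cl cL ![2] 0 (by decide) (by decide) (by decide)
  obtain ⟨PR, hR⟩ := adds_of_cl cR ![2] 3 (by decide) (by decide) (by decide)
  obtain ⟨PP, hP⟩ := adds_of_cl cP ![0, 3] 2 (by decide) (by decide) (by decide)
  obtain ⟨PE, hE⟩ := adds_of_cl cE ![0, 3] 4 (by decide) (by decide) (by decide)
  exact ⟨E, first PG PL PR PP PE, second PG PL PR PP PE, goodE E, hE2,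
    fun a m h0 h1 => goodE_pos h0 h1, run_first hG hL hR hP hE (goodE_spec E),
    run_second hG hL hR hP hE (goodE_spec E)⟩

theorem encP_st {K : ℕ} (hK : 5 ≤ K) (a b k m t : ℕ) :
    encP K (st a b k m t) = Nat.nth Nat.Prime 0 ^ a * Nat.nth Nat.Prime 1 ^ b *
      Nat.nth Nat.Prime 2 ^ k * Nat.nth Nat.Prime 3 ^ m * Nat.nth Nat.Prime 4 ^ t := by
  obtain ⟨L, rfl⟩ := Nat.exists_eq_add_of_le hK
  rw [encP, Finset.prod_range_add]
  have h : ∏ x ∈ Finset.range L, Nat.nth Nat.Prime (5 + x) ^ st a b k m t (5 + x) = 1 := by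
    refine Finset.prod_eq_one fun x _ => ?_
    rw [st_zero _ _ _ _ _ _ (by omega), pow_zero]
  rw [h, mul_one]
  simp [Finset.prod_range_succ, st]

/-- The machine theorem from the compiler. -/
theorem machine_of_compile
    (hc : ∀ (K : ℕ) (P : Prog), P.bd ≤ K → ∃ M : Mach, M.Ok ∧ ∀ a b : St, Prog.Run P a b →
      ∃ l, M.Path (M.inn, (encP K a : ℤ)) (M.out, (encP K b : ℤ)) l) :
    MachineStatement := by
  obtain ⟨E, P1, P2, good, hE, hgood, h1, h2⟩ := exists_programs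
  let K := max 5 (max P1.bd P2.bd)
  have hK : 5 ≤ K := le_max_left _ _
  obtain ⟨M1, ok1, c1⟩ := hc K P1 (le_trans (le_max_left _ _) (le_max_right _ _))
  obtain ⟨M2, ok2, c2⟩ := hc K P2 (le_trans (le_max_right _ _) (le_max_right _ _))
  have hp : ∀ i, 2 ≤ Nat.nth Nat.Prime i := fun i => (Nat.prime_nth_prime i).two_le
  have hx : Function.Injective (fun k : ℕ => (encP K (st 0 0 k 0 0) : ℤ)) := by
    intro k l hkl
    have h : encP K (st 0 0 k 0 0) = encP K (st 0 0 l 0 0) := Int.natCast_inj.1 hkl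
    rw [encP_st hK, encP_st hK] at h
    simp only [pow_zero, one_mul, mul_one] at h
    exact Nat.pow_right_injective (hp 2) h
  obtain ⟨N, x0, hinf, hvis⟩ := forever ok1 ok2 (fun k : ℕ => (encP K (st 0 0 k 0 0) : ℤ))
    (fun k => (encP K (mid good k) : ℤ)) hx (fun k => c1 _ _ (h1 k)) (fun k => c2 _ _ (h2 k))
  refine ⟨N, x0, hinf, fun B hB => ?_⟩
  obtain ⟨y0, hy0⟩ := growth hE (Nat.nth Nat.Prime 1) (Nat.nth Nat.Prime 0) (hp 0) B hB
  refine ⟨y0, fun y hy => ?_⟩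
  obtain ⟨a, m, h3, h4, h5, h6⟩ := hy0 y hy
  obtain ⟨n, hn, hn'⟩ := hvis (Nat.pair a m)
  refine ⟨n, ?_, ?_⟩
  · rw [hn', mid, if_neg (hgood a m h3 h4), Int.natAbs_natCast, encP_st hK]
    simp only [pow_zero, mul_one, pow_one, Nat.unpair_pair]
    rw [mul_comm]
    exact h5
  · have : m ≤ Nat.pair a m := Nat.right_le_pair a m
    omega

/-- The machine theorem. -/
theorem machine : MachineStatement := machine_of_compile compile

end Pool.Agent.DIST
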