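import Pool.Agent.DIST.Act

/-!
# The lower bound for the length of `rep⁻¹ z rep` in `H`
-/

namespace Pool.Agent.DIST

open Pool.Agent.helper12.FD

namespace Net

variable (N : Net)

/-- the space on which the lower bound is read off: a point, a counter and a lamp -/
abbrev Lmp : Type := N.X × ℤ × Bool

/-- the natural action of `P` -/
def lf : N.P →* Equiv.Perm N.Lmp where
  toFun g :=
    { toFun := fun x => (g.1 x.1, x.2.1 + Multiplicative.toAdd g.2, x.2.2)
      invFun := fun x => (g.1⁻¹ x.1, x.2.1 - Multiplicative.toAdd g.2, x.2.2)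
      left_inv := fun x => by simp
      right_inv := fun x => by simp }
  map_one' := by
    refine Equiv.ext fun x => ?_
    simp
  map_mul' g h := by
    refine Equiv.ext fun x => ?_
    refine Prod.ext rfl (Prod.ext ?_ rfl)
    show x.2.1 + Multiplicative.toAdd (g.2 * h.2) =
      x.2.1 + Multiplicative.toAdd h.2 + Multiplicative.toAdd g.2
    rw [toAdd_mul]
    ring

theorem lf_apply (g : N.P) (x : N.Lmp) :
    N.lf g x = (g.1 x.1, x.2.1 + Multiplicative.toAdd g.2, x.2.2) := rfl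

variable (x0 : N.X)

open Classical in
/-- the action of `z` -/
noncomputable def zl : Equiv.Perm N.Lmp :=
  Function.Involutive.toPerm (fun x => (x.1, x.2.1, xor x.2.2 (decide (x.1 = (N.S ^ x.2.1) x0))))
    (fun x => by
      refine Prod.ext rfl (Prod.ext rfl ?_)
      simp)

open Classical in
theorem zl_apply (x : N.Lmp) :
    N.zl x0 x = (x.1, x.2.1, xor x.2.2 (decide (x.1 = (N.S ^ x.2.1) x0))) := rfl

theorem s_zl : Commute (N.lf (N.S, Multiplicative.ofAdd 1)) (N.zl x0) := by
  classical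
  refine Equiv.ext fun x => ?_
  rw [Equiv.Perm.mul_apply, Equiv.Perm.mul_apply, lf_apply, zl_apply, zl_apply, lf_apply]
  refine Prod.ext rfl (Prod.ext rfl ?_)
  simp only [toAdd_ofAdd]
  congr 1
  have h : (N.S ^ (x.2.1 + 1)) x0 = N.S ((N.S ^ x.2.1) x0) := by
    rw [add_comm, zpow_add, zpow_one, Equiv.Perm.mul_apply]
  simp [h]

theorem exists_lmp : ∃ F : G →* Equiv.Perm N.Lmp, F G.t = N.lf (N.T, 1) ∧
    F G.s = N.lf (N.S, Multiplicative.ofAdd 1) ∧ F G.z = N.zl x0 ∧ F G.a = N.lf (N.A, 1) := by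
  refine G.exists_hom _ _ _ _ ?_ (N.s_zl x0) ?_
  · have h : Commute ((N.T, 1) : N.P) ((N.S, Multiplicative.ofAdd 1)⁻¹ * (N.T, 1) *
        (N.S, Multiplicative.ofAdd 1)) := by
      refine Prod.ext ?_ ?_
      · show N.T * (N.S⁻¹ * N.T * N.S) = (N.S⁻¹ * N.T * N.S) * N.T
        rw [S_conj, T_T']
      · simp
    have h2 := h.map N.lf
    rwa [map_mul, map_mul, map_inv] at h2
  · exact (show Commute ((N.T, 1) : N.P) (N.A, 1) from Prod.ext N.T_A (by simp)).map N.lf

/-- the action of `G` -/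
noncomputable def lmp : G →* Equiv.Perm N.Lmp := (N.exists_lmp x0).choose

theorem lmp_t : N.lmp x0 G.t = N.lf (N.T, 1) := (N.exists_lmp x0).choose_spec.1
theorem lmp_s : N.lmp x0 G.s = N.lf (N.S, Multiplicative.ofAdd 1) :=
  (N.exists_lmp x0).choose_spec.2.1
theorem lmp_z : N.lmp x0 G.z = N.zl x0 := (N.exists_lmp x0).choose_spec.2.2.1
theorem lmp_a : N.lmp x0 G.a = N.lf (N.A, 1) := (N.exists_lmp x0).choose_spec.2.2.2

/-- the subgroup on which both actions agree -/
noncomputable def good : Subgroup G := (N.lmp x0).eqLocus (N.lf.comp N.act)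

theorem mem_good {g : G} : g ∈ N.good x0 ↔ N.lmp x0 g = N.lf (N.act g) := Iff.rfl

theorem t_good : G.t ∈ N.good x0 := by rw [mem_good, lmp_t, act_t]
theorem s_good : G.s ∈ N.good x0 := by rw [mem_good, lmp_s, act_s]
theorem a_good : G.a ∈ N.good x0 := by rw [mem_good, lmp_a, act_a]

theorem t'_good : G.t' ∈ N.good x0 := by
  have h : G.t' = G.s⁻¹ * G.t * G.s := by rw [mul_assoc, ← G.s_t', inv_mul_cancel_left]
  rw [h]
  exact mul_mem (mul_mem (inv_mem (N.s_good x0)) (N.t_good x0)) (N.s_good x0)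

theorem rep_good (x : N.X) : N.rep x0 x ∈ N.good x0 :=
  mul_mem (zpow_mem (N.t_good x0) _) (pow_mem (N.a_good x0) _)

theorem Y_good {y : G} (hy : y ∈ N.Y x0) : y ∈ N.good x0 := by
  rcases hy with ⟨i, rfl⟩ | ⟨i, rfl⟩
  · exact mul_mem (mul_mem (inv_mem (N.rep_good x0 _)) (N.s_good x0)) (N.rep_good x0 _)
  · exact mul_mem (mul_mem (inv_mem (N.rep_good x0 _)) (N.t'_good x0)) (N.rep_good x0 _)

theorem zl_symm : (N.zl x0)⁻¹ = N.zl x0 := rfl

theorem low_aux (hinf : ∀ k : ℤ, k ≠ 0 → (N.S ^ k) x0 ≠ x0) (n : ℕ) {g : G} {L : ℕ}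
    (hg : W (insert G.z (N.Y x0)) g L) :
    (N.lmp x0 g (x0, (n : ℤ), false)).1 = x0 ∧
      ((N.lmp x0 g (x0, (n : ℤ), false)).2.1 - (n : ℤ)).natAbs ≤ L ∧
      ((N.lmp x0 g (x0, (n : ℤ), false)).2.2 = true → n ≤ L) := by
  classical
  refine W_induction (P := fun g L => (N.lmp x0 g (x0, (n : ℤ), false)).1 = x0 ∧
      ((N.lmp x0 g (x0, (n : ℤ), false)).2.1 - (n : ℤ)).natAbs ≤ L ∧
      ((N.lmp x0 g (x0, (n : ℤ), false)).2.2 = true → n ≤ L)) ?_ ?_ ?_ hg
  · simp
  · intro y g L hy hP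
    rw [map_mul, Equiv.Perm.mul_apply]
    generalize N.lmp x0 g (x0, (n : ℤ), false) = st at hP ⊢
    obtain ⟨x, k, b⟩ := st
    obtain ⟨h1, h2, h3⟩ := hP
    simp only at h1 h2 h3
    subst h1
    -- an element of `Y` or its inverse
    have hYgen : ∀ y : G, N.lmp x y = N.lf (N.act y) → (N.act y).1 x = x →
        (Multiplicative.toAdd (N.act y).2).natAbs ≤ 1 →
        (N.lmp x y (x, k, b)).1 = x ∧ ((N.lmp x y (x, k, b)).2.1 - (n : ℤ)).natAbs ≤ L + 1 ∧
        ((N.lmp x y (x, k, b)).2.2 = true → n ≤ L + 1) := by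
      intro y e1 e2 e3
      rw [e1, lf_apply]
      refine ⟨e2, ?_, fun h => ?_⟩
      · simp only
        omega
      · have := h3 h
        omega
    rcases hy with hy | hy
    · rcases hy with rfl | hy
      · rw [lmp_z, zl_apply]
        refine ⟨rfl, by simp only; omega, ?_⟩
        simp only
        intro h
        by_cases hb : b = true
        · have := h3 hb
          omega
        · have hx : x = (N.S ^ k) x := by simpa [hb] using h
          by_cases hk : k = 0
          · subst hk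
            omega
          · exact absurd hx.symm (hinf k hk)
      · exact hYgen y (N.Y_good x hy) (N.act_Y_fst x hy) (N.act_Y_snd x hy)
    · rcases hy with hy | hy
      · have hy' : y = G.z⁻¹ := by rw [← hy, inv_inv]
        rw [hy', map_inv, lmp_z, zl_symm, zl_apply]
        refine ⟨rfl, by simp only; omega, ?_⟩
        simp only
        intro h
        by_cases hb : b = true
        · have := h3 hb
          omega
        · have hx : x = (N.S ^ k) x := by simpa [hb] using h
          by_cases hk : k = 0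
          · subst hk
            omega
          · exact absurd hx.symm (hinf k hk)
      · have e1 : N.act y = (N.act y⁻¹)⁻¹ := by rw [map_inv, inv_inv]
        have e2 : y ∈ N.good x := by
          have := inv_mem (N.Y_good x hy)
          rwa [inv_inv] at this
        refine hYgen y e2 ?_ ?_
        · rw [e1, Prod.fst_inv, Equiv.Perm.inv_eq_iff_eq, N.act_Y_fst x hy]
        · rw [e1, Prod.snd_inv, toAdd_inv, Int.natAbs_neg]
          exact N.act_Y_snd x hy
  · intro g m L hmL hP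
    refine ⟨hP.1, hP.2.1.trans hmL, fun h => (hP.2.2 h).trans hmL⟩

/-- The element `rep⁻¹ z rep`. -/
noncomputable def gel (n : ℕ) : G :=
  (N.rep x0 ((N.S ^ n) x0))⁻¹ * G.z * N.rep x0 ((N.S ^ n) x0)

theorem low (hinf : ∀ k : ℤ, k ≠ 0 → (N.S ^ k) x0 ≠ x0) (n : ℕ) {L : ℕ}
    (hg : W (insert G.z (N.Y x0)) (N.gel x0 n) L) : n ≤ L := by
  classical
  refine (N.low_aux x0 hinf n hg).2.2 ?_
  have h1 : N.lmp x0 (N.rep x0 ((N.S ^ n) x0)) (x0, (n : ℤ), false) =
      ((N.S ^ n) x0, (n : ℤ), false) := by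
    rw [(N.mem_good x0).1 (N.rep_good x0 _), lf_apply, act_rep_snd]
    simp [act_rep_fst]
  have h2 : N.lmp x0 (N.rep x0 ((N.S ^ n) x0)) (x0, (n : ℤ), true) =
      ((N.S ^ n) x0, (n : ℤ), true) := by
    rw [(N.mem_good x0).1 (N.rep_good x0 _), lf_apply, act_rep_snd]
    simp [act_rep_fst]
  rw [gel, map_mul, map_mul, Equiv.Perm.mul_apply, Equiv.Perm.mul_apply, h1, lmp_z, zl_apply,
    map_inv]
  simp only [zpow_natCast, decide_true, Bool.xor_true, Bool.not_false]
  rw [← h2, ← Equiv.Perm.mul_apply, inv_mul_cancel]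
  rfl

end Net

end Pool.Agent.DIST
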