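import Mathlib

/-!
# Residue networks

A network has finitely many lines `Fin m × ℤ`; `T` translates the line `v` by `q v`, `T'` by `p v`,
and `S` sends `(v, p v * k + r)` to `(v', q v' * k + c)` where `(v', c) = e (v, r)`.
Then `S T' = T S` and `T T' = T' T`.
-/

namespace Pool.Agent.DIST

/-- A residue network. -/
structure Net where
  m : ℕ
  p : Fin m → ℕ
  q : Fin m → ℕ
  hp : ∀ v, 0 < p v
  hq : ∀ v, 0 < q v
  e : (Σ v, Fin (p v)) ≃ (Σ v, Fin (q v))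

/-- Coordinates on the lines: `(v, n)` with `n = d v * k + r` corresponds to `((v, r), k)`. -/
def coord {m : ℕ} (d : Fin m → ℕ) (hd : ∀ v, 0 < d v) : Fin m × ℤ ≃ (Σ v, Fin (d v)) × ℤ where
  toFun x := (⟨x.1, ⟨(x.2 % (d x.1 : ℤ)).toNat, by
    have h1 := Int.emod_nonneg x.2 (b := (d x.1 : ℤ)) (by have := hd x.1; omega)
    have h2 := Int.emod_lt_of_pos x.2 (b := (d x.1 : ℤ)) (by have := hd x.1; omega)
    omega⟩⟩, x.2 / (d x.1 : ℤ))
  invFun y := (y.1.1, (d y.1.1 : ℤ) * y.2 + ((y.1.2 : ℕ) : ℤ))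
  left_inv x := by
    have h1 := Int.emod_nonneg x.2 (b := (d x.1 : ℤ)) (by have := hd x.1; omega)
    have h3 := Int.emod_add_mul_ediv x.2 (d x.1 : ℤ)
    refine Prod.ext rfl ?_
    simp only [Int.toNat_of_nonneg h1]
    linarith
  right_inv y := by
    obtain ⟨⟨v, r⟩, k⟩ := y
    have h0 : (0 : ℤ) < d v := by have := hd v; omega
    have hr : ((r : ℕ) : ℤ) < d v := by have := r.2; omega
    have h1 : ((d v : ℤ) * k + ((r : ℕ) : ℤ)) % (d v : ℤ) = ((r : ℕ) : ℤ) := by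
      rw [Int.mul_add_emod_self_left]
      exact Int.emod_eq_of_lt (by omega) hr
    have h2 : ((d v : ℤ) * k + ((r : ℕ) : ℤ)) / (d v : ℤ) = k := by
      rw [Int.mul_add_ediv_left _ _ (by omega), Int.ediv_eq_zero_of_lt (by omega) hr, add_zero]
    refine Prod.ext ?_ h2
    refine Sigma.ext rfl (heq_of_eq (Fin.ext ?_))
    simp [h1]

theorem coord_symm_apply {m : ℕ} (d : Fin m → ℕ) (hd : ∀ v, 0 < d v) (y : (Σ v, Fin (d v)) × ℤ) :
    (coord d hd).symm y = (y.1.1, (d y.1.1 : ℤ) * y.2 + ((y.1.2 : ℕ) : ℤ)) := rfl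

theorem coord_apply {m : ℕ} (d : Fin m → ℕ) (hd : ∀ v, 0 < d v) (v : Fin m) (r : Fin (d v))
    (k : ℤ) : coord d hd (v, (d v : ℤ) * k + ((r : ℕ) : ℤ)) = (⟨v, r⟩, k) :=
  (coord d hd).apply_symm_apply (⟨v, r⟩, k)

theorem coord_add {m : ℕ} (d : Fin m → ℕ) (hd : ∀ v, 0 < d v) (v : Fin m) (n l : ℤ) :
    coord d hd (v, n + d v * l) = ((coord d hd (v, n)).1, (coord d hd (v, n)).2 + l) := by
  obtain ⟨y, hy⟩ := (coord d hd).symm.surjective (v, n)
  obtain ⟨⟨w, r⟩, k⟩ := y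
  rw [coord_symm_apply] at hy
  obtain ⟨rfl, h2⟩ := Prod.mk.inj hy
  simp only at h2 ⊢
  subst h2
  have : (d w : ℤ) * k + ((r : ℕ) : ℤ) + d w * l = (d w : ℤ) * (k + l) + ((r : ℕ) : ℤ) := by ring
  rw [this, coord_apply, coord_apply]

namespace Net

variable (N : Net)

/-- The set of points of the network. -/
abbrev X : Type := Fin N.m × ℤ

/-- Translation of the line `v` by `d v`. -/
def shift {m : ℕ} (d : Fin m → ℕ) : Equiv.Perm (Fin m × ℤ) where
  toFun x := (x.1, x.2 + d x.1)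
  invFun x := (x.1, x.2 - d x.1)
  left_inv x := by simp
  right_inv x := by simp

/-- The action of `t`. -/
def T : Equiv.Perm N.X := shift N.q

/-- The action of `t' = s⁻¹ t s`. -/
def T' : Equiv.Perm N.X := shift N.p

/-- The action of `s`: `(v, p v * k + r) ↦ (v', q v' * k + c)` with `(v', c) = e (v, r)`. -/
def S : Equiv.Perm N.X :=
  (coord N.p N.hp).trans ((Equiv.prodCongr N.e (Equiv.refl ℤ)).trans (coord N.q N.hq).symm)

theorem T_apply (x : N.X) : N.T x = (x.1, x.2 + N.q x.1) := rfl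

theorem T'_apply (x : N.X) : N.T' x = (x.1, x.2 + N.p x.1) := rfl

theorem S_apply (v : Fin N.m) (r : Fin (N.p v)) (k : ℤ) :
    N.S (v, (N.p v : ℤ) * k + ((r : ℕ) : ℤ)) =
      ((N.e ⟨v, r⟩).1, (N.q (N.e ⟨v, r⟩).1 : ℤ) * k + (((N.e ⟨v, r⟩).2 : ℕ) : ℤ)) := by
  show (coord N.q N.hq).symm ((Equiv.prodCongr N.e (Equiv.refl ℤ)) (coord N.p N.hp (v, _))) = _
  rw [coord_apply]
  rfl

theorem T_T' : N.T * N.T' = N.T' * N.T := by
  ext x
  · rfl
  · show x.2 + N.p x.1 + N.q x.1 = x.2 + N.q x.1 + N.p x.1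
    ring

theorem S_T' : N.S * N.T' = N.T * N.S := by
  refine Equiv.ext fun x => ?_
  obtain ⟨v, n⟩ := x
  obtain ⟨y, hy⟩ := (coord N.p N.hp).symm.surjective (v, n)
  obtain ⟨⟨w, r⟩, k⟩ := y
  rw [coord_symm_apply] at hy
  obtain ⟨rfl, h2⟩ := Prod.mk.inj hy
  simp only at h2
  subst h2
  rw [Equiv.Perm.mul_apply, Equiv.Perm.mul_apply, T'_apply, S_apply, T_apply]
  have : (N.p w : ℤ) * k + ((r : ℕ) : ℤ) + N.p w = (N.p w : ℤ) * (k + 1) + ((r : ℕ) : ℤ) := by ring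
  simp only [this]
  rw [S_apply]
  refine Prod.ext rfl ?_
  simp only
  ring

end Net

end Pool.Agent.DIST
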