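import Pool.Agent.DIST.UpDist
import Pool.Agent.FBC.Defs

/-!
# From total residue machines to distortion functions
-/

set_option autoImplicit false

namespace Pool.Agent.DIST

open Pool.Agent.helper12.FD Pool.Agent.FBC

/-- A total residue machine is a network. -/
theorem net_of_total {V : Type} [Finite V] (M : RM V) (h : M.Total) :
    ∃ (N : Net) (ε : V ≃ Fin N.m), (∀ v, N.p (ε v) = M.p v) ∧ (∀ v, N.q (ε v) = M.q v) ∧
      ∀ a b : V × ℤ, M.Step a b → N.S (ε a.1, a.2) = (ε b.1, b.2) := by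
  classical
  obtain ⟨m, ⟨ε⟩⟩ := Finite.exists_equiv_fin V
  let p : Fin m → ℕ := fun i => M.p (ε.symm i)
  let q : Fin m → ℕ := fun i => M.q (ε.symm i)
  choose w c hwc using fun (x : Σ i, Fin (p i)) => h.out (ε.symm x.1) x.2 x.2.2
  have hqw : ∀ x, q (ε (w x)) = M.q (w x) := fun x => by
    show M.q (ε.symm (ε (w x))) = _
    rw [Equiv.symm_apply_apply]
  let f : (Σ i, Fin (p i)) → Σ i, Fin (q i) := fun x =>
    ⟨ε (w x), ⟨c x, by rw [hqw]; exact (M.lt (hwc x)).2⟩⟩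
  have finj : Function.Injective f := by
    intro x y hxy
    have h1 := congrArg (fun z => (z.1, (z.2 : ℕ))) hxy
    obtain ⟨h2, h3⟩ := Prod.mk.inj h1
    have h4 : w x = w y := ε.injective h2
    have h5 : c x = c y := h3
    have h6 := hwc x
    rw [h4, h5] at h6
    obtain ⟨h7, h8⟩ := M.inj h6 (hwc y)
    have h9 : x.1 = y.1 := ε.symm.injective h7
    obtain ⟨x1, x2⟩ := x
    obtain ⟨y1, y2⟩ := y
    simp only at h9
    subst h9
    congr 1
    exact Fin.ext h8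
  have fsurj : Function.Surjective f := by
    rintro ⟨i, d⟩
    obtain ⟨v, r, hvr⟩ := h.inn (ε.symm i) d d.2
    have hr : r < p (ε v) := by
      show r < M.p (ε.symm (ε v))
      rw [Equiv.symm_apply_apply]
      exact (M.lt hvr).1
    refine ⟨⟨ε v, ⟨r, hr⟩⟩, ?_⟩
    have h1 := hwc ⟨ε v, ⟨r, hr⟩⟩
    simp only [Equiv.symm_apply_apply] at h1
    obtain ⟨h2, h3⟩ := M.det h1 hvr
    have h4 : ε (w ⟨ε v, ⟨r, hr⟩⟩) = i := by rw [h2, Equiv.apply_symm_apply]
    refine Sigma.ext h4 ?_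
    refine (Fin.heq_ext_iff ?_).2 h3
    show q (ε (w ⟨ε v, ⟨r, hr⟩⟩)) = q i
    rw [h4]
  let N : Net :=
    { m := m
      p := p
      q := q
      hp := fun i => M.hp _
      hq := fun i => M.hq _
      e := Equiv.ofBijective f ⟨finj, fsurj⟩ }
  have hp : ∀ v, N.p (ε v) = M.p v := fun v => by
    show M.p (ε.symm (ε v)) = _
    rw [Equiv.symm_apply_apply]
  have hq : ∀ v, N.q (ε v) = M.q v := fun v => by
    show M.q (ε.symm (ε v)) = _
    rw [Equiv.symm_apply_apply]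
  refine ⟨N, ε, hp, hq, ?_⟩
  rintro ⟨v, y⟩ ⟨v', y'⟩ ⟨k, r, d, hE, h1, h2⟩
  simp only at hE h1 h2
  have hr : r < N.p (ε v) := by rw [hp]; exact (M.lt hE).1
  have h3 := N.S_apply (ε v) ⟨r, hr⟩ k
  have h4 : ((⟨ε v, ⟨r, hr⟩⟩ : Σ i, Fin (p i)).2 : ℕ) = r := rfl
  have h5 := hwc ⟨ε v, ⟨r, hr⟩⟩
  simp only [Equiv.symm_apply_apply] at h5
  obtain ⟨h6, h7⟩ := M.det h5 hE
  have h8 : N.e ⟨ε v, ⟨r, hr⟩⟩ = f ⟨ε v, ⟨r, hr⟩⟩ := rfl
  have h9 : (N.e ⟨ε v, ⟨r, hr⟩⟩).1 = ε v' := by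
    rw [h8]
    show ε (w ⟨ε v, ⟨r, hr⟩⟩) = ε v'
    rw [h6]
  have h10 : (((N.e ⟨ε v, ⟨r, hr⟩⟩).2 : ℕ)) = d := by
    rw [h8]
    exact h7
  have hpz : (N.p (ε v) : ℤ) = (M.p v : ℤ) := by exact_mod_cast hp v
  have e1 : (N.p (ε v) : ℤ) * k + (((⟨r, hr⟩ : Fin (N.p (ε v))) : ℕ) : ℤ) = y := by
    rw [hpz, h1]
  rw [e1] at h3
  show N.S (ε v, y) = (ε v', y')
  rw [h3, h10]
  refine Prod.ext h9 ?_
  show (N.q (N.e ⟨ε v, ⟨r, hr⟩⟩).1 : ℤ) * k + (d : ℤ) = y'
  rw [h9, hq, h2]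

theorem run_zero {V : Type} {M : RM V} {n : ℕ} {a b : V × ℤ} (h : M.Run n a b) (hn : n = 0) :
    a = b := by
  cases h with
  | refl => rfl
  | step => omega

theorem run_pow {V : Type} {M : RM V} {N : Net} {ε : V ≃ Fin N.m}
    (hst : ∀ a b : V × ℤ, M.Step a b → N.S (ε a.1, a.2) = (ε b.1, b.2)) {n : ℕ}
    {a b : V × ℤ} (h : M.Run n a b) : (N.S ^ n) (ε a.1, a.2) = (ε b.1, b.2) := by
  induction h with
  | refl a => rfl
  | @step n a b c h1 _ ih => rw [pow_succ, Equiv.Perm.mul_apply, hst _ _ h1, ih]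

/-- The bounds for the distortion function of the subgroup of a machine. -/
theorem machine_two_sided {V : Type} [Finite V] {M : RM V} (htot : M.Total) {v0 u j mS : V} {Dm : ℕ → Prop} {nu lo Y : ℕ → ℕ}
    (hm : Mach M v0 u j mS Dm nu lo Y) (D : ℕ) (hD : ∀ N, Y N ≤ D ^ (N + 1)) (g : ℕ → ℕ)
    (hg : Monotone g) (hg1 : ∀ n, n ≤ g n) (hgN : ∀ N n, lo N ≤ n → N ≤ g n) :
    ∃ H : Subgroup G, H.FG ∧ ∀ S T : Set G, S.Finite → Subgroup.closure S = ⊤ →
      T.Finite → Subgroup.closure T = H → ∃ C : ℕ, 1 ≤ C ∧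
        (∀ n, 2 ^ n ≤ C * distortion S T H (C * n + C)) ∧
        (∀ N, Dm N → 2 ^ N ≤ C * distortion S T H (C * nu N + C)) ∧
        (∀ n, distortion S T H n ≤ 2 ^ (C * (g (C * n + C) + 1))) := by
  classical
  obtain ⟨N, ε, hp, hq, hst⟩ := net_of_total M htot
  let x0 : N.X := (ε v0, 1)
  have hrun : ∀ {n : ℕ} {b : V × ℤ}, M.Run n (v0, 1) b → (N.S ^ n) x0 = (ε b.1, b.2) :=
    fun h => run_pow (a := (v0, 1)) hst h
  -- the backward orbit
  have hback1 : ∀ l : ℕ, N.S (ε v0, 2 ^ (l + 1)) = (ε v0, 2 ^ l) := by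
    intro l
    refine hst (v0, 2 ^ (l + 1)) (v0, 2 ^ l) ⟨2 ^ l, 0, 0, hm.e0, ?_, ?_⟩
    · rw [hm.p0, pow_succ]; push_cast; ring
    · rw [hm.q0]; simp
  have hback : ∀ l : ℕ, (N.S⁻¹ ^ l) x0 = (ε v0, 2 ^ l) := by
    intro l
    induction l with
    | zero => simp [x0]
    | succ l ih =>
      rw [pow_succ', Equiv.Perm.mul_apply, ih, Equiv.Perm.inv_eq_iff_eq, hback1]
  have hinf : ∀ k : ℤ, k ≠ 0 → (N.S ^ k) x0 ≠ x0 := by
    have key : ∀ l : ℕ, 0 < l → (N.S⁻¹ ^ l) x0 ≠ x0 := by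
      intro l hl h
      rw [hback l] at h
      have h1 : (2 : ℤ) ^ l = 1 := (Prod.mk.inj h).2
      have h2 : (1 : ℤ) < 2 ^ l := one_lt_pow₀ (by norm_num) (by omega)
      omega
    intro k hk h
    obtain ⟨l, rfl | rfl⟩ := k.eq_nat_or_neg
    · refine key l (by omega) ?_
      rw [inv_pow, Equiv.Perm.inv_eq_iff_eq, ← zpow_natCast]
      exact h.symm
    · refine key l (by omega) ?_
      rw [inv_pow, ← zpow_natCast, ← zpow_neg]
      exact h
  have hinj : Function.Injective fun i : ℕ => (N.S ^ i) x0 := by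
    intro i i' h
    by_contra hne
    have h1 : (N.S ^ ((i : ℤ) - i')) x0 = x0 := by
      rw [sub_eq_neg_add, zpow_add, Equiv.Perm.mul_apply, zpow_natCast, zpow_neg,
        Equiv.Perm.inv_eq_iff_eq, zpow_natCast]
      exact h
    exact hinf _ (by omega) h1
  -- control
  have hpos : ∀ i : ℕ, 0 ≤ ((N.S ^ i) x0).2 := by
    intro i
    obtain ⟨b, n, -, -, h3⟩ := hm.ctl i
    obtain ⟨b', h4, h5, -⟩ := h3 i le_rfl
    rw [hrun h4]
    show (0 : ℤ) ≤ b'.2
    omega
  refine ⟨N.HH x0, N.HH_fg x0, fun S T hS hS' hT hT' => ?_⟩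
  obtain ⟨C, hC1, hA, hB, hU⟩ := N.two_sided x0 hinf (ε mS) (ε v0) (by rw [hp, hm.pm])
    (by rw [hq, hm.qm]) (by rw [hp, hq, hm.p0, hm.qm]) (by rw [hq, hm.q0]) hS hS' hT hT'
  have hmono := distortion_mono (T := T) hS hS' (N.HH x0)
  -- the cost of the orbit
  obtain ⟨m, hmdef⟩ : ∃ m, m = N.m := ⟨_, rfl⟩
  have hcost : ∀ (r : ℕ) (K : ℤ), N.sz ((N.S ^ K) x0) ≤ 2 ^ r →
      N.cost x0 K ≤ 2 ^ (r + 2) + m * (D ^ (g (r + 1) + 1) + 1) ^ 2 := by
    intro r K hK
    rcases le_or_gt 0 K with h0 | h0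
    · obtain ⟨i, rfl⟩ := Int.eq_ofNat_of_zero_le h0
      refine le_trans ?_ (Nat.le_add_left _ _)
      obtain ⟨b, n, h1, h2, h3⟩ := hm.ctl i
      have h4 := hrun h1
      rw [zpow_natCast, h4] at hK
      have hb1 : 1 ≤ b.2 := by
        obtain ⟨b', h5, h6, -⟩ := h3 i le_rfl
        have h7 := (hrun h5).symm.trans h4
        have h8 : b'.2 = b.2 := (Prod.mk.inj h7).2
        omega
      have h5 : lo n ≤ r + 1 := by
        have h6 : (b.2.natAbs + 1) ≤ 2 ^ r := hK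
        have h7 : (2 : ℤ) ^ (lo n) ≤ 2 ^ (r + 1) := by
          have h8 : (b.2 : ℤ) + 1 ≤ 2 ^ r := by
            have : ((b.2.natAbs + 1 : ℕ) : ℤ) ≤ ((2 ^ r : ℕ) : ℤ) := by exact_mod_cast h6
            push_cast at this
            rw [abs_of_pos (by omega)] at this
            exact this
          rw [pow_succ]
          omega
        have h9 : 2 ^ (lo n) ≤ 2 ^ (r + 1) := by exact_mod_cast h7
        exact (Nat.pow_le_pow_iff_right (by norm_num)).1 h9
      have h6 : n ≤ g (r + 1) := hgN n _ h5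
      have h7 : ∀ i' ≤ i, 1 ≤ ((N.S ^ i') x0).2 ∧ ((N.S ^ i') x0).2 ≤ (Y n : ℤ) := by
        intro i' hi'
        obtain ⟨b', h8, h9, h10⟩ := h3 i' hi'
        rw [hrun h8]
        exact ⟨h9, h10⟩
      -- the number of steps
      have h8 : i + 1 ≤ m * Y n := by
        have hcard : ((Finset.range (i + 1)).image (fun i' => (N.S ^ i') x0)).card = i + 1 := by
          rw [Finset.card_image_of_injective _ hinj, Finset.card_range]
        rw [← hcard]
        have hsub : (Finset.range (i + 1)).image (fun i' => (N.S ^ i') x0) ⊆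
            (Finset.univ : Finset (Fin N.m)) ×ˢ (Finset.Icc (1 : ℤ) (Y n)) := by
          intro y hy
          obtain ⟨i', hi', rfl⟩ := Finset.mem_image.1 hy
          have := h7 i' (by have := Finset.mem_range.1 hi'; omega)
          exact Finset.mem_product.2 ⟨Finset.mem_univ _, Finset.mem_Icc.2 this⟩
        refine (Finset.card_le_card hsub).trans ?_
        rw [Finset.card_product, Finset.card_univ, Fintype.card_fin, Int.card_Icc, ← hmdef]
        simp
      have h9 : N.cost x0 (i : ℤ) ≤ i * (Y n + 1) := by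
        unfold Net.cost
        rw [if_pos (by omega), Int.natAbs_natCast]
        calc _ ≤ ∑ _i' ∈ Finset.range i, (Y n + 1) := by
              refine Finset.sum_le_sum fun i' hi' => ?_
              have := h7 i' (by have := Finset.mem_range.1 hi'; omega)
              unfold Net.sz
              omega
          _ = _ := by rw [Finset.sum_const, Finset.card_range, smul_eq_mul]
      have h10 : Y n ≤ D ^ (g (r + 1) + 1) := by
        rcases Nat.eq_zero_or_pos D with rfl | hDpos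
        · have h11 := h7 0 (Nat.zero_le _)
          have h12 := hD n
          rw [zero_pow (by omega)] at h12
          omega
        · exact (hD n).trans (Nat.pow_le_pow_right hDpos (by omega))
      calc N.cost x0 (i : ℤ) ≤ i * (Y n + 1) := h9
        _ ≤ (m * Y n) * (Y n + 1) := Nat.mul_le_mul_right _ (by omega)
        _ ≤ (m * (D ^ (g (r + 1) + 1) + 1)) * (D ^ (g (r + 1) + 1) + 1) :=
          Nat.mul_le_mul (Nat.mul_le_mul_left _ (by omega)) (by omega)
        _ = _ := by ring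
    · obtain ⟨l, hl⟩ : ∃ l : ℕ, K = -(l : ℤ) := ⟨K.natAbs, by omega⟩
      subst hl
      refine le_trans ?_ (Nat.le_add_right _ _)
      have h1 : (N.S ^ (-(l : ℤ))) x0 = (ε v0, 2 ^ l) := by
        rw [zpow_neg, zpow_natCast, ← inv_pow, hback]
      rw [h1] at hK
      have h2 : 2 ^ l ≤ 2 ^ r := by
        have h3 : ((2 : ℤ) ^ l).natAbs + 1 ≤ 2 ^ r := hK
        rw [Int.natAbs_pow] at h3
        have h4 : (2 : ℤ).natAbs = 2 := rfl
        rw [h4] at h3
        omega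
      have h3 : l ≤ r := (Nat.pow_le_pow_iff_right (by norm_num)).1 h2
      unfold Net.cost
      rw [if_neg (by omega), Int.natAbs_neg, Int.natAbs_natCast]
      have h4 : ∀ l : ℕ, ∑ i ∈ Finset.range l, N.sz ((N.S⁻¹ ^ (i + 1)) x0) + 2 ≤ 2 ^ (l + 1) + l := by
        intro l
        induction l with
        | zero => simp
        | succ l ih =>
          rw [Finset.sum_range_succ]
          have h5 : N.sz ((N.S⁻¹ ^ (l + 1)) x0) = 2 ^ (l + 1) + 1 := by
            rw [hback]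
            show ((2 : ℤ) ^ (l + 1)).natAbs + 1 = _
            rw [Int.natAbs_pow]
            rfl
          rw [h5, pow_succ 2 (l + 1)]
          omega
      have h5 := h4 l
      have h6 : l ≤ 2 ^ l := Nat.lt_two_pow_self.le
      have h7 : 2 ^ (l + 2) ≤ 2 ^ (r + 2) := Nat.pow_le_pow_right (by norm_num) (by omega)
      rw [pow_succ] at h5
      rw [pow_succ, pow_succ] at h7
      omega
  -- the constant
  refine ⟨10 * C + 2 * D + 2 * m + 20, by omega, fun n => ?_, fun n hn => ?_, fun n => ?_⟩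
  all_goals set C' := 10 * C + 2 * D + 2 * m + 20 with hC'
  · refine (hA n).trans (Nat.mul_le_mul (by omega) (hmono ?_))
    exact Nat.add_le_add (Nat.mul_le_mul_right _ (by omega)) (by omega)
  · obtain ⟨i1, i2, h1, h2⟩ := hm.hit n hn
    have e1 := hrun h1
    have e2 : (N.S ^ (i2 + i1)) x0 = (ε j, 3 ^ (nu n)) := by
      rw [pow_add, Equiv.Perm.mul_apply, e1]
      exact run_pow (a := (mS, 2 ^ n)) hst h2
    have hi2 : 0 < i2 := by
      rcases Nat.eq_zero_or_pos i2 with rfl | h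
      · exfalso
        have h2' := run_zero h2 rfl
        have h2'' : mS = j := (Prod.mk.inj h2').1
        have := hm.qm
        rw [h2''] at this
        rw [hm.qj] at this
        omega
      · exact h
    have h3 := hB (2 * nu n + 1) (i2 + i1) i1 (by omega) (fun j _ => hpos j) (by
      rw [e2]
      show ((3 : ℤ) ^ (nu n)).natAbs + 1 ≤ _
      rw [Int.natAbs_pow]
      have h4 : (3 : ℤ).natAbs = 3 := rfl
      rw [h4, pow_succ, pow_mul]
      have h5 : 3 ^ nu n ≤ (2 ^ 2) ^ nu n := Nat.pow_le_pow_left (by norm_num) _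
      have h6 : 1 ≤ (2 ^ 2) ^ nu n := Nat.one_le_pow _ _ (by norm_num)
      omega)
    rw [e1] at h3
    have h4 : N.sz ((ε mS, 2 ^ n) : N.X) = 2 ^ n + 1 := by
      show ((2 : ℤ) ^ n).natAbs + 1 = _
      rw [Int.natAbs_pow]
      rfl
    have h5 : N.sz ((ε (mS, (2 : ℤ) ^ n).1, (mS, (2 : ℤ) ^ n).2) : N.X) = 2 ^ n + 1 := h4
    rw [h5] at h3
    have h6 : C * (2 * nu n + 1) + C ≤ C' * nu n + C' := by
      have e1 : C * (2 * nu n + 1) + C = (2 * C) * nu n + 2 * C := by ring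
      rw [e1]
      exact Nat.add_le_add (Nat.mul_le_mul_right _ (by omega)) (by omega)
    calc 2 ^ n ≤ C * distortion S T (N.HH x0) (C * (2 * nu n + 1) + C) := by omega
      _ ≤ C' * distortion S T (N.HH x0) (C' * nu n + C') :=
        Nat.mul_le_mul (by omega) (hmono h6)
  · have h1 := hU n _ (hcost (C * n + C))
    refine h1.trans ?_
    set r := C * n + C with hr
    set γ := g (C' * n + C') with hγ
    have g1 : g (r + 1) ≤ γ := by
      refine hg ?_
      have : C * n + C + 1 ≤ C' * n + C' := by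
        have := Nat.mul_le_mul_right n (show C ≤ C' by omega)
        omega
      exact this
    have g2 : C' * n + C' ≤ γ := hg1 _
    have g3 : 2 * r + 4 ≤ γ := by
      refine le_trans ?_ g2
      have e1 : (2 * C) * n ≤ C' * n := Nat.mul_le_mul_right _ (by omega)
      have e2 : 2 * r = 2 * C * n + 2 * C := by rw [hr]; ring
      omega
    have g4 : n + 1 ≤ γ := by
      refine le_trans ?_ g2
      have e1 : 1 * n ≤ C' * n := Nat.mul_le_mul_right _ (by omega)
      omega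
    -- powers of two
    have a1 : C ≤ 2 ^ C := Nat.lt_two_pow_self.le
    have a2 : n + 1 ≤ 2 ^ γ := g4.trans Nat.lt_two_pow_self.le
    have a3 : 2 ^ (r + 2) ≤ 2 ^ γ := Nat.pow_le_pow_right (by norm_num) (by omega)
    have a4 : m ≤ 2 ^ m := Nat.lt_two_pow_self.le
    have a5 : D ^ (g (r + 1) + 1) + 1 ≤ 2 ^ ((D + 1) * (γ + 1)) := by
      have b1 : D ^ (g (r + 1) + 1) ≤ 2 ^ (D * (γ + 1)) := by
        calc D ^ (g (r + 1) + 1) ≤ (2 ^ D) ^ (g (r + 1) + 1) :=
              Nat.pow_le_pow_left Nat.lt_two_pow_self.le _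
          _ = 2 ^ (D * (g (r + 1) + 1)) := by rw [pow_mul]
          _ ≤ _ := Nat.pow_le_pow_right (by norm_num) (Nat.mul_le_mul_left _ (by omega))
      have b2 : 1 ≤ 2 ^ (D * (γ + 1)) := Nat.one_le_two_pow
      calc _ ≤ 2 ^ (D * (γ + 1)) * 2 := by omega
        _ ≤ 2 ^ (D * (γ + 1)) * 2 ^ (γ + 1) := Nat.mul_le_mul_left _ (by
          calc 2 = 2 ^ 1 := rfl
            _ ≤ _ := Nat.pow_le_pow_right (by norm_num) (by omega))
        _ = _ := by rw [← pow_add]; congr 1; ring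
    have a6 : m * (D ^ (g (r + 1) + 1) + 1) ^ 2 ≤ 2 ^ (m + 2 * ((D + 1) * (γ + 1))) := by
      calc _ ≤ 2 ^ m * (2 ^ ((D + 1) * (γ + 1))) ^ 2 :=
            Nat.mul_le_mul a4 (Nat.pow_le_pow_left a5 2)
        _ = _ := by rw [← pow_mul, ← pow_add]; congr 1; ring
    have a7 : 2 ^ (r + 2) + m * (D ^ (g (r + 1) + 1) + 1) ^ 2 + 2 ^ r ≤
        2 ^ (γ + 2 + (m + 2 * ((D + 1) * (γ + 1)))) := by
      have c1 : 2 ^ r ≤ 2 ^ γ := Nat.pow_le_pow_right (by norm_num) (by omega)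
      have c2 : 2 ^ γ ≤ 2 ^ (γ + (m + 2 * ((D + 1) * (γ + 1)))) :=
        Nat.pow_le_pow_right (by norm_num) (by omega)
      have c3 : 2 ^ (m + 2 * ((D + 1) * (γ + 1))) ≤ 2 ^ (γ + (m + 2 * ((D + 1) * (γ + 1)))) :=
        Nat.pow_le_pow_right (by norm_num) (by omega)
      have c4 : 2 ^ (γ + 2 + (m + 2 * ((D + 1) * (γ + 1)))) =
          4 * 2 ^ (γ + (m + 2 * ((D + 1) * (γ + 1)))) := by
        rw [show γ + 2 + (m + 2 * ((D + 1) * (γ + 1))) =
          2 + (γ + (m + 2 * ((D + 1) * (γ + 1)))) by ring, pow_add]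
        norm_num
      rw [c4]
      omega
    calc _ ≤ 2 ^ C * (2 ^ γ * 2 ^ (γ + 2 + (m + 2 * ((D + 1) * (γ + 1))))) :=
          Nat.mul_le_mul a1 (Nat.mul_le_mul a2 a7)
      _ = 2 ^ (C + (γ + (γ + 2 + (m + 2 * ((D + 1) * (γ + 1)))))) := by
          rw [← pow_add, ← pow_add]
      _ ≤ 2 ^ (C' * (γ + 1)) := by
          refine Nat.pow_le_pow_right (by norm_num) ?_
          have d1 : C' * (γ + 1) = 10 * C * (γ + 1) + 2 * m * (γ + 1) + 18 * (γ + 1) +
              2 * ((D + 1) * (γ + 1)) := by rw [hC']; ring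
          have d2 : 10 * C * 1 ≤ 10 * C * (γ + 1) := Nat.mul_le_mul_left _ (by omega)
          have d3 : 2 * m * 1 ≤ 2 * m * (γ + 1) := Nat.mul_le_mul_left _ (by omega)
          omega

/-- iterated doubling -/
theorem mul_le_of_double {g : ℕ → ℕ} (hg : Monotone g) (h2 : ∃ C : ℕ, ∀ n, 2 * g n ≤ g (C * n + C))
    (k : ℕ) : ∃ C : ℕ, ∀ n, k * g n ≤ g (C * n + C) := by
  obtain ⟨C, hC⟩ := h2
  have key : ∀ i : ℕ, ∃ C' : ℕ, ∀ n, 2 ^ i * g n ≤ g (C' * n + C') := by
    intro i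
    induction i with
    | zero =>
      refine ⟨1, fun n => ?_⟩
      rw [pow_zero, one_mul]
      exact hg (by omega)
    | succ i ih =>
      obtain ⟨C', hC'⟩ := ih
      refine ⟨C' * C + C', fun n => ?_⟩
      calc 2 ^ (i + 1) * g n = 2 ^ i * (2 * g n) := by ring
        _ ≤ 2 ^ i * g (C * n + C) := Nat.mul_le_mul_left _ (hC n)
        _ ≤ g (C' * (C * n + C) + C') := hC' _
        _ ≤ _ := hg (by
          have : C' * (C * n + C) + C' = C' * C * n + (C' * C + C') := by ring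
          rw [this, add_mul]
          omega)
  obtain ⟨C', hC'⟩ := key k
  exact ⟨C', fun n => (Nat.mul_le_mul_right _ Nat.lt_two_pow_self.le).trans (hC' n)⟩

/-- **Exact distortion functions from machines.** -/
theorem spectrum {V : Type} [Finite V] {M : RM V} (htot : M.Total) {v0 u j mS : V}
    {Dm : ℕ → Prop} {nu lo Y : ℕ → ℕ}
    (hm : Mach M v0 u j mS Dm nu lo Y) (D : ℕ) (hD : ∀ N, Y N ≤ D ^ (N + 1)) (g : ℕ → ℕ)
    (hg : Monotone g) (hg1 : ∀ n, n ≤ g n) (hgN : ∀ N n, lo N ≤ n → N ≤ g n)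
    (hlow : ∀ n, g n = n ∨ (Dm (g n) ∧ nu (g n) ≤ n))
    (h2 : ∃ C : ℕ, ∀ n, 2 * g n ≤ g (C * n + C)) :
    ∃ H : Subgroup G, H.FG ∧ ∀ S T : Set G, S.Finite → Subgroup.closure S = ⊤ →
      T.Finite → Subgroup.closure T = H →
        Preceq (distortion S T H) (fun n => 2 ^ g n) ∧
        Preceq (fun n => 2 ^ g n) (distortion S T H) := by
  obtain ⟨H, hH, h⟩ := machine_two_sided htot hm D hD g hg hg1 hgN
  refine ⟨H, hH, fun S T hS hS' hT hT' => ?_⟩
  obtain ⟨C, hC1, hA, hB, hU⟩ := h S T hS hS' hT hT'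
  have hmono := distortion_mono (T := T) hS hS' H
  constructor
  · obtain ⟨C2, hC2⟩ := mul_le_of_double hg h2 (2 * C)
    refine ⟨C2 * C + C2 + 1, by omega, fun n => ?_⟩
    have e1 : 1 ≤ g (C * n + C) := le_trans (by omega) (hg1 (C * n + C))
    have e2 : C * (g (C * n + C) + 1) ≤ 2 * C * g (C * n + C) := by nlinarith
    have e3 := hC2 (C * n + C)
    have e4 : g (C2 * (C * n + C) + C2) ≤
        g ((C2 * C + C2 + 1) * n + (C2 * C + C2 + 1)) := hg (by
      have : C2 * (C * n + C) + C2 = C2 * C * n + (C2 * C + C2) := by ring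
      rw [this, add_mul, add_mul]
      omega)
    have e5 : distortion S T H n ≤ 2 ^ g ((C2 * C + C2 + 1) * n + (C2 * C + C2 + 1)) :=
      (hU n).trans (Nat.pow_le_pow_right (by norm_num) (by omega))
    have e6 : 1 * 2 ^ g ((C2 * C + C2 + 1) * n + (C2 * C + C2 + 1)) ≤ (C2 * C + C2 + 1) *
        2 ^ g ((C2 * C + C2 + 1) * n + (C2 * C + C2 + 1)) := Nat.mul_le_mul_right _ (by omega)
    rw [one_mul] at e6
    show distortion S T H n ≤ (C2 * C + C2 + 1) *
      2 ^ g ((C2 * C + C2 + 1) * n + (C2 * C + C2 + 1)) + _ + _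
    omega
  · refine ⟨C, hC1, fun n => ?_⟩
    have key : 2 ^ g n ≤ C * distortion S T H (C * n + C) := by
      rcases hlow n with h1 | ⟨h1, h3⟩
      · rw [h1]
        exact hA n
      · refine (hB _ h1).trans (Nat.mul_le_mul_left _ (hmono ?_))
        exact Nat.add_le_add_right (Nat.mul_le_mul_left _ h3) _
    show 2 ^ g n ≤ _
    omega

end Pool.Agent.DIST
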