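import Pool.Agent.DIST.Act

/-!
# Combing: the length of the stabiliser cocycle

`|rep (g x)⁻¹ g rep x| ≤ n D ^ n sz x` for `g` a word of length `n` in `t, s, a`, with respect to
the finite set `Y1`.
-/

set_option autoImplicit false

namespace Pool.Agent.DIST

open Pool.Agent.helper12.FD

namespace Net

variable (N : Net) (x0 : N.X)

/-- generators of the third kind -/
noncomputable def gA (ω : N.Om) : G :=
  (G.a ^ N.ent x0 (N.rot ω))⁻¹ * G.a * G.a ^ N.ent x0 ω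

/-- The generators of the stabiliser. -/
noncomputable def Y1 : Set G := N.Y x0 ∪ Set.range (N.gA x0)

theorem Y1_finite : (N.Y1 x0).Finite := (N.Y_finite x0).union (Set.finite_range _)

/-- The cocycle of the action with respect to the representatives. -/
noncomputable def coc (g : G) (x : N.X) : G := (N.rep x0 ((N.act g).1 x))⁻¹ * g * N.rep x0 x

theorem coc_mul (g h : G) (x : N.X) :
    N.coc x0 (g * h) x = N.coc x0 g ((N.act h).1 x) * N.coc x0 h x := by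
  have : (N.act (g * h)).1 x = (N.act g).1 ((N.act h).1 x) := by
    rw [map_mul]; rfl
  rw [coc, coc, coc, this]
  group

theorem coc_inv (g : G) (x : N.X) :
    N.coc x0 g⁻¹ x = (N.coc x0 g ((N.act g⁻¹).1 x))⁻¹ := by
  have : (N.act g).1 ((N.act g⁻¹).1 x) = x := by
    rw [map_inv]; exact Equiv.apply_symm_apply _ _
  rw [coc, coc, this]
  group

theorem coc_t (x : N.X) : N.coc x0 G.t x = 1 := by
  have h := N.rep_T_zpow x0 1 x
  rw [zpow_one, zpow_one] at h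
  rw [coc, act_t, h]
  group

theorem coc_a (x : N.X) : N.coc x0 G.a x = N.gA x0 (N.cq x).1 := by
  rw [coc, act_a]
  show (N.rep x0 (N.A x))⁻¹ * G.a * N.rep x0 x = _
  rw [rep, rep, cq_A, gA]
  simp only
  have h : Commute (G.t ^ ((N.cq x).2 - (N.cq x0).2)) G.a :=
    (show Commute G.t G.a from G.t_a).zpow_left _
  rw [mul_inv_rev, mul_assoc, mul_assoc, ← mul_assoc G.a, ← h.eq, mul_assoc (G.t ^ _) G.a,
    inv_mul_cancel_left, mul_assoc]

/-- length of the cocycle of a power of `t'` -/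
theorem W_t'_pow (k : ℕ) (x : N.X) :
    W (N.Y x0) ((N.rep x0 ((N.T' ^ k) x))⁻¹ * G.t' ^ k * N.rep x0 x) k := by
  have h1 : ∀ x : N.X, W (N.Y x0) ((N.rep x0 (N.T' x))⁻¹ * G.t' * N.rep x0 x) 1 := by
    intro x
    obtain ⟨i, k, rfl⟩ := N.exists_T x
    have h1 : N.T' ((N.T ^ k) (i.1, ((i.2 : ℕ) : ℤ))) =
        (N.T ^ k) (N.T' (i.1, ((i.2 : ℕ) : ℤ))) := by
      rw [← Equiv.Perm.mul_apply, ← Equiv.Perm.mul_apply, (N.T_T'_comm.zpow_left k).eq]
    have h2 : Commute (G.t ^ k) G.t' := (show Commute G.t G.t' from G.t_t').zpow_left k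
    rw [h1, rep_T_zpow, rep_T_zpow]
    have h3 : (G.t ^ k * N.rep x0 (N.T' (i.1, ((i.2 : ℕ) : ℤ))))⁻¹ * G.t' *
        (G.t ^ k * N.rep x0 (i.1, ((i.2 : ℕ) : ℤ))) = N.gT x0 i := by
      rw [gT, mul_inv_rev, mul_assoc, mul_assoc, ← mul_assoc G.t' (G.t ^ k), ← h2.eq,
        mul_assoc, inv_mul_cancel_left, mul_assoc]
    rw [h3]
    exact W_of_mem (Or.inr ⟨i, rfl⟩)
  induction k with
  | zero => simpa using W_one 0
  | succ n ih =>
    have h := W_mul (h1 ((N.T' ^ n) x)) ih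
    rw [pow_succ', Equiv.Perm.mul_apply, pow_succ']
    refine W_mono (n := n + 1) ?_ (le_refl _)
    rw [add_comm n 1]
    convert h using 1
    group

theorem W_t'_zpow (k : ℤ) (x : N.X) :
    W (N.Y x0) ((N.rep x0 ((N.T' ^ k) x))⁻¹ * G.t' ^ k * N.rep x0 x) k.natAbs := by
  obtain ⟨n, rfl | rfl⟩ := k.eq_nat_or_neg
  · simpa using N.W_t'_pow x0 n x
  · have h := W_inv (N.W_t'_pow x0 n ((N.T' ^ (-(n : ℤ))) x))
    have e : (N.T' ^ n) ((N.T' ^ (-(n : ℤ))) x) = x := by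
      rw [← Equiv.Perm.mul_apply, ← zpow_natCast, ← zpow_add]
      simp
    rw [e] at h
    have h2 : (-(n : ℤ)).natAbs = n := by simp
    rw [h2]
    convert h using 1
    simp only [mul_inv_rev, inv_inv, zpow_neg, zpow_natCast]
    group

/-- size of a point -/
def sz (x : N.X) : ℕ := x.2.natAbs + 1

theorem one_le_sz (x : N.X) : 1 ≤ N.sz x := by unfold sz; omega

/-- a constant bounding the moduli -/
def D : ℕ := 1 + ∑ v, (N.p v + N.q v)

theorem one_le_D : 1 ≤ N.D := by unfold D; omega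

theorem p_lt_D (v : Fin N.m) : N.p v < N.D := by
  have : N.p v + N.q v ≤ ∑ v, (N.p v + N.q v) :=
    Finset.single_le_sum (f := fun v => N.p v + N.q v) (fun _ _ => Nat.zero_le _)
      (Finset.mem_univ v)
  unfold D
  omega

theorem q_lt_D (v : Fin N.m) : N.q v < N.D := by
  have : N.p v + N.q v ≤ ∑ v, (N.p v + N.q v) :=
    Finset.single_le_sum (f := fun v => N.p v + N.q v) (fun _ _ => Nat.zero_le _)
      (Finset.mem_univ v)
  unfold D
  omega

theorem coord_snd_le {m : ℕ} (d : Fin m → ℕ) (hd : ∀ v, 0 < d v) (x : Fin m × ℤ) :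
    (coord d hd x).2.natAbs ≤ x.2.natAbs := by
  show (x.2 / (d x.1 : ℤ)).natAbs ≤ x.2.natAbs
  exact Int.natAbs_ediv_le_natAbs _ _

theorem coord_symm_le {m : ℕ} (d : Fin m → ℕ) (hd : ∀ v, 0 < d v)
    (y : (Σ v, Fin (d v)) × ℤ) :
    ((coord d hd).symm y).2.natAbs + 1 ≤ d y.1.1 * (y.2.natAbs + 1) := by
  rw [coord_symm_apply]
  simp only
  have h1 := y.1.2.2
  have h2 := Int.natAbs_add_le ((d y.1.1 : ℤ) * y.2) ((y.1.2 : ℕ) : ℤ)
  rw [Int.natAbs_mul, Int.natAbs_natCast, Int.natAbs_natCast] at h2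
  rw [mul_add, mul_one]
  omega

theorem sz_T (x : N.X) : N.sz (N.T x) ≤ N.D * N.sz x := by
  have h := N.q_lt_D x.1
  have h1 : N.sz (N.T x) ≤ N.sz x + N.q x.1 := by
    rw [T_apply]
    unfold sz
    simp only
    omega
  have h2 := N.one_le_sz x
  calc _ ≤ N.sz x + N.q x.1 * 1 := by rw [mul_one]; exact h1
    _ ≤ N.sz x + N.q x.1 * N.sz x := Nat.add_le_add_left (Nat.mul_le_mul_left _ h2) _
    _ = (N.q x.1 + 1) * N.sz x := by ring
    _ ≤ _ := Nat.mul_le_mul_right _ h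

theorem sz_Tinv (x : N.X) : N.sz (N.T⁻¹ x) ≤ N.D * N.sz x := by
  have h := N.q_lt_D x.1
  have h1 : N.sz (N.T⁻¹ x) ≤ N.sz x + N.q x.1 := by
    show (x.2 - N.q x.1).natAbs + 1 ≤ _
    unfold sz
    omega
  have h2 := N.one_le_sz x
  calc _ ≤ N.sz x + N.q x.1 * 1 := by rw [mul_one]; exact h1
    _ ≤ N.sz x + N.q x.1 * N.sz x := Nat.add_le_add_left (Nat.mul_le_mul_left _ h2) _
    _ = (N.q x.1 + 1) * N.sz x := by ring
    _ ≤ _ := Nat.mul_le_mul_right _ h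

theorem sz_S (x : N.X) : N.sz (N.S x) ≤ N.D * N.sz x := by
  have h1 := coord_symm_le N.q N.hq ((Equiv.prodCongr N.e (Equiv.refl ℤ)) (coord N.p N.hp x))
  have h2 := coord_snd_le N.p N.hp x
  refine le_trans h1 ?_
  exact Nat.mul_le_mul (N.q_lt_D _).le (Nat.add_le_add_right h2 1)

theorem sz_Sinv (x : N.X) : N.sz (N.S⁻¹ x) ≤ N.D * N.sz x := by
  have h1 := coord_symm_le N.p N.hp ((Equiv.prodCongr N.e (Equiv.refl ℤ)).symm (coord N.q N.hq x))
  have h2 := coord_snd_le N.q N.hq x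
  refine le_trans h1 ?_
  exact Nat.mul_le_mul (N.p_lt_D _).le (Nat.add_le_add_right h2 1)

theorem sz_A (x : N.X) : N.sz (N.A x) ≤ N.D * N.sz x := by
  have h1 := coord_symm_le N.q N.hq ((Equiv.prodCongr N.rot (Equiv.refl ℤ)) (coord N.q N.hq x))
  have h2 := coord_snd_le N.q N.hq x
  refine le_trans h1 ?_
  exact Nat.mul_le_mul (N.q_lt_D _).le (Nat.add_le_add_right h2 1)

theorem sz_Ainv (x : N.X) : N.sz (N.A⁻¹ x) ≤ N.D * N.sz x := by
  have h1 := coord_symm_le N.q N.hq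
    ((Equiv.prodCongr N.rot (Equiv.refl ℤ)).symm (coord N.q N.hq x))
  have h2 := coord_snd_le N.q N.hq x
  refine le_trans h1 ?_
  exact Nat.mul_le_mul (N.q_lt_D _).le (Nat.add_le_add_right h2 1)

/-- length of the cocycle of `s` -/
theorem W_coc_s (x : N.X) : W (N.Y x0) (N.coc x0 G.s x) (N.sz x) := by
  obtain ⟨y, hy⟩ := (coord N.p N.hp).symm.surjective x
  have hx : x = (N.T' ^ y.2) (y.1.1, ((y.1.2 : ℕ) : ℤ)) := by
    rw [← hy, coord_symm_apply, T'_zpow_apply]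
    refine Prod.ext rfl ?_
    simp only
    ring
  have hk : y.2.natAbs ≤ x.2.natAbs := by
    have := coord_snd_le N.p N.hp x
    rw [← hy, Equiv.apply_symm_apply] at this
    rw [← hy]
    exact this
  obtain ⟨i, k⟩ := y
  simp only at hx hk
  have hc : ∀ k : ℤ, N.S * N.T' ^ k = N.T ^ k * N.S := by
    intro k
    have h : SemiconjBy N.S N.T' N.T := N.S_T'
    exact (h.zpow_right k).eq
  have hc' : ∀ k : ℤ, G.s * G.t' ^ k = G.t ^ k * G.s := by
    intro k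
    have h : SemiconjBy G.s G.t' G.t := G.s_t'
    exact (h.zpow_right k).eq
  have h1 : N.S x = (N.T ^ k) (N.S (i.1, ((i.2 : ℕ) : ℤ))) := by
    rw [hx, ← Equiv.Perm.mul_apply, ← Equiv.Perm.mul_apply, hc]
  have h2 : W (N.Y x0) (N.gS x0 i) 1 := W_of_mem (Or.inl ⟨i, rfl⟩)
  have h3 := W_inv (N.W_t'_zpow x0 k (i.1, ((i.2 : ℕ) : ℤ)))
  have h4 := W_mul h2 h3
  have h5 : G.s = G.t ^ k * G.s * (G.t' ^ k)⁻¹ := by rw [← hc', mul_inv_cancel_right]
  have h6 : N.coc x0 G.s x = N.gS x0 i *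
      ((N.rep x0 ((N.T' ^ k) (i.1, ((i.2 : ℕ) : ℤ))))⁻¹ * G.t' ^ k *
        N.rep x0 (i.1, ((i.2 : ℕ) : ℤ)))⁻¹ := by
    rw [coc, act_s]
    show (N.rep x0 (N.S x))⁻¹ * G.s * N.rep x0 x = _
    rw [h1, rep_T_zpow, ← hx]
    rw [gS]
    conv_lhs => rw [h5]
    group
  rw [h6]
  refine W_mono h4 ?_
  unfold sz
  omega

/-- The generating set `{t, s, a}`. -/
def S1 : Set G := {G.t, G.s, G.a}

theorem act_inv_fst (g : G) (x : N.X) : (N.act g⁻¹).1 x = ((N.act g).1)⁻¹ x := by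
  rw [map_inv]; rfl

theorem sz_letter {y : G} (hy : y ∈ S1 ∨ y⁻¹ ∈ S1) (x : N.X) :
    N.sz ((N.act y).1 x) ≤ N.D * N.sz x := by
  rcases hy with hy | hy
  · rcases hy with rfl | rfl | rfl
    · rw [act_t]; exact N.sz_T x
    · rw [act_s]; exact N.sz_S x
    · rw [act_a]; exact N.sz_A x
  · rw [← inv_inv y, act_inv_fst]
    rcases hy with h | h | h
    · rw [h, act_t]; exact N.sz_Tinv x
    · rw [h, act_s]; exact N.sz_Sinv x
    · rw [Set.mem_singleton_iff.1 h, act_a]; exact N.sz_Ainv x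

theorem W_coc_letter {y : G} (hy : y ∈ S1 ∨ y⁻¹ ∈ S1) (x : N.X) :
    W (N.Y1 x0) (N.coc x0 y x) (N.D * N.sz x) := by
  have hs : ∀ y ∈ S1, ∀ x, W (N.Y1 x0) (N.coc x0 y x) (N.sz x) := by
    intro y hy x
    have h1 := N.one_le_sz x
    rcases hy with rfl | rfl | rfl
    · rw [coc_t]; exact W_one _
    · exact W_subset Set.subset_union_left (N.W_coc_s x0 x)
    · rw [coc_a]
      exact W_mono (W_of_mem (Or.inr ⟨_, rfl⟩)) h1
  rcases hy with hy | hy
  · exact W_mono (hs y hy x) (Nat.le_mul_of_pos_left _ (by have := N.one_le_D; omega))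
  · have h := hs _ hy ((N.act y).1 x)
    have h2 : N.coc x0 y x = (N.coc x0 y⁻¹ ((N.act y).1 x))⁻¹ := by
      have := N.coc_inv x0 y⁻¹ x
      rwa [inv_inv] at this
    rw [h2]
    exact W_mono (W_inv h) (N.sz_letter (Or.inr hy) x)

/-- **Combing.** -/
theorem comb {g : G} {n : ℕ} (hg : W S1 g n) :
    (∀ x, N.sz ((N.act g).1 x) ≤ N.D ^ n * N.sz x) ∧
      ∀ x, W (N.Y1 x0) (N.coc x0 g x) (n * (N.D ^ n * N.sz x)) := by
  have hD := N.one_le_D
  refine W_induction (P := fun g n => (∀ x, N.sz ((N.act g).1 x) ≤ N.D ^ n * N.sz x) ∧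
      ∀ x, W (N.Y1 x0) (N.coc x0 g x) (n * (N.D ^ n * N.sz x))) ?_ ?_ ?_ hg
  · refine ⟨fun x => by simp, fun x => ?_⟩
    have : N.coc x0 1 x = 1 := by
      rw [coc, map_one]
      show (N.rep x0 x)⁻¹ * 1 * N.rep x0 x = 1
      group
    rw [this]
    exact W_one _
  · intro y g n hy ⟨h1, h2⟩
    have h3 : ∀ x, N.sz ((N.act (y * g)).1 x) ≤ N.D ^ (n + 1) * N.sz x := by
      intro x
      have e : (N.act (y * g)).1 x = (N.act y).1 ((N.act g).1 x) := by rw [map_mul]; rfl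
      rw [e]
      refine (N.sz_letter hy _).trans ?_
      calc _ ≤ N.D * (N.D ^ n * N.sz x) := Nat.mul_le_mul_left _ (h1 x)
        _ = _ := by ring
    refine ⟨h3, fun x => ?_⟩
    rw [coc_mul]
    refine W_mono (W_mul (N.W_coc_letter x0 hy _) (h2 x)) ?_
    have e1 : N.D * N.sz ((N.act g).1 x) ≤ N.D ^ (n + 1) * N.sz x := by
      calc _ ≤ N.D * (N.D ^ n * N.sz x) := Nat.mul_le_mul_left _ (h1 x)
        _ = _ := by ring
    have e2 : N.D ^ n * N.sz x ≤ N.D ^ (n + 1) * N.sz x :=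
      Nat.mul_le_mul_right _ (Nat.pow_le_pow_right hD (Nat.le_succ n))
    have e3 : n * (N.D ^ n * N.sz x) ≤ n * (N.D ^ (n + 1) * N.sz x) := Nat.mul_le_mul_left _ e2
    calc _ ≤ N.D ^ (n + 1) * N.sz x + n * (N.D ^ (n + 1) * N.sz x) := Nat.add_le_add e1 e3
      _ = _ := by ring
  · intro g m n hmn ⟨h1, h2⟩
    have e2 : ∀ x, N.D ^ m * N.sz x ≤ N.D ^ n * N.sz x := fun x =>
      Nat.mul_le_mul_right _ (Nat.pow_le_pow_right hD hmn)
    exact ⟨fun x => (h1 x).trans (e2 x), fun x => W_mono (h2 x) (Nat.mul_le_mul hmn (e2 x))⟩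

/-! ### The orbit of `s` -/

/-- the cost of `s ^ k` along the orbit of `x0` -/
def cost (k : ℤ) : ℕ :=
  if 0 ≤ k then ∑ i ∈ Finset.range k.natAbs, N.sz ((N.S ^ i) x0)
  else ∑ i ∈ Finset.range k.natAbs, N.sz ((N.S⁻¹ ^ (i + 1)) x0)

theorem W_coc_pow (k : ℕ) :
    W (N.Y1 x0) (N.coc x0 (G.s ^ k) x0) (∑ i ∈ Finset.range k, N.sz ((N.S ^ i) x0)) := by
  induction k with
  | zero =>
    have : N.coc x0 (G.s ^ 0) x0 = 1 := by
      rw [pow_zero, coc, map_one]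
      show (N.rep x0 x0)⁻¹ * 1 * N.rep x0 x0 = 1
      group
    rw [this]
    exact W_one _
  | succ n ih =>
    rw [pow_succ', coc_mul, Finset.sum_range_succ, add_comm]
    refine W_mul ?_ ih
    have e : (N.act (G.s ^ n)).1 x0 = (N.S ^ n) x0 := by
      rw [map_pow, act_s]
      rfl
    rw [e]
    exact W_subset Set.subset_union_left (N.W_coc_s x0 _)

theorem act_s_zpow (k : ℤ) : (N.act (G.s ^ k)).1 = N.S ^ k := by
  rw [map_zpow, act_s]
  exact map_zpow (MonoidHom.fst (Equiv.Perm N.X) (Multiplicative ℤ)) (N.S, Multiplicative.ofAdd 1) k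

theorem W_coc_neg (k : ℕ) :
    W (N.Y1 x0) (N.coc x0 ((G.s ^ k)⁻¹) x0)
      (∑ i ∈ Finset.range k, N.sz ((N.S⁻¹ ^ (i + 1)) x0)) := by
  induction k with
  | zero =>
    have : N.coc x0 ((G.s ^ 0)⁻¹) x0 = 1 := by
      rw [pow_zero, inv_one, coc, map_one]
      show (N.rep x0 x0)⁻¹ * 1 * N.rep x0 x0 = 1
      group
    rw [this]
    exact W_one _
  | succ n ih =>
    rw [pow_succ, mul_inv_rev, coc_mul, Finset.sum_range_succ, add_comm]
    refine W_mul ?_ ih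
    have e : (N.act ((G.s ^ n)⁻¹)).1 x0 = (N.S⁻¹ ^ n) x0 := by
      rw [map_inv, map_pow, act_s]
      show ((N.S ^ n)⁻¹) x0 = _
      rw [inv_pow]
    rw [e, coc_inv]
    have e2 : (N.act G.s⁻¹).1 ((N.S⁻¹ ^ n) x0) = (N.S⁻¹ ^ (n + 1)) x0 := by
      rw [act_inv_fst, act_s, pow_succ']
      rfl
    rw [e2]
    exact W_inv (W_subset Set.subset_union_left (N.W_coc_s x0 _))

theorem W_coc_zpow (k : ℤ) : W (N.Y1 x0) (N.coc x0 (G.s ^ k) x0) (N.cost x0 k) := by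
  unfold cost
  split_ifs with h
  · obtain ⟨n, rfl⟩ := Int.eq_ofNat_of_zero_le h
    have := N.W_coc_pow x0 n
    simpa using this
  · obtain ⟨n, hn⟩ : ∃ n : ℕ, k = -(n : ℤ) := ⟨k.natAbs, by omega⟩
    subst hn
    have := N.W_coc_neg x0 n
    simpa using this

end Net

end Pool.Agent.DIST
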