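import Pool.Agent.DIST.UpLow
import Pool.Agent.DIST.Fin

/-!
# Two-sided bounds for the distortion function of `H1 = ⟨Y1, z⟩`
-/

set_option autoImplicit false

namespace Pool.Agent.DIST

open Pool.Agent.helper12.FD

namespace Net

variable (N : Net) (x0 : N.X)

/-- The subgroup `⟨Y1, z⟩`. -/
noncomputable def HH : Subgroup G := Subgroup.closure (insert G.z (N.Y1 x0))

theorem HH_fg : (N.HH x0).FG := by
  rw [Subgroup.fg_iff]
  exact ⟨_, rfl, (N.Y1_finite x0).insert _⟩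

theorem gens_finite : (insert G.z S1 : Set G).Finite := by
  rw [S1]
  exact Set.toFinite _

theorem dist_ge {S T : Set G} (hS : S.Finite) (hS' : Subgroup.closure S = ⊤) (hT : T.Finite)
    (hT' : Subgroup.closure T = N.HH x0) :
    ∃ C : ℕ, 1 ≤ C ∧ ∀ (h : G) (a m : ℕ), h ∈ N.HH x0 → W (insert G.z S1) h a →
      (∀ L, W (insert G.z (N.Y1 x0)) h L → m ≤ L) →
        m ≤ C * distortion S T (N.HH x0) (C * a) := by
  obtain ⟨K, hK⟩ := exists_bound (S := insert G.z S1) (S' := S) gens_finite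
    (fun x _ => by rw [hS']; trivial)
  obtain ⟨Q, hQ⟩ := exists_bound (S := T) (S' := insert G.z (N.Y1 x0)) hT
    (fun x hx => by
      have : x ∈ Subgroup.closure T := Subgroup.subset_closure hx
      rw [hT'] at this
      exact this)
  refine ⟨K + Q + 1, by omega, fun h a m hh ha hm => ?_⟩
  have h1 : W S h (K * a) := W_trans hK ha
  have h2 : wordLength S h ≤ (K + Q + 1) * a :=
    (wordLength_le h1).trans (Nat.mul_le_mul_right _ (by omega))
  have h3 := le_distortion (T := T) hS hS' hh h2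
  have h4 : W T h (wordLength T h) := W_wordLength (by rw [hT']; exact hh)
  have h5 := hm _ (W_trans hQ h4)
  calc m ≤ Q * wordLength T h := h5
    _ ≤ (K + Q + 1) * distortion S T (N.HH x0) ((K + Q + 1) * a) :=
      Nat.mul_le_mul (by omega) h3

theorem cq_S (x : N.X) : N.cq (N.S x) = (N.e (coord N.p N.hp x).1, N.kap x) := by
  show coord N.q N.hq ((coord N.q N.hq).symm _) = _
  rw [Equiv.apply_symm_apply]
  rfl

/-- **Exponential lower bound.** -/
theorem exp_low (w0 w1 : Fin N.m) (hp0 : N.p w0 = 1) (hq0 : 2 ≤ N.q w0)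
    (hp1 : N.p w1 = N.q w0) (hq1 : N.q w1 = 1) :
    ∃ C : ℕ, ∀ n : ℕ, ∃ h : G, h ∈ N.HH x0 ∧ W (insert G.z S1) h (C * (n + 1)) ∧
      ∀ L, W (insert G.z (N.Y1 x0)) h L → 2 ^ n ≤ L := by
  obtain ⟨M, hM⟩ := N.exists_move
  obtain ⟨C, hC⟩ := N.short x0 w0 hp0 hq0
  set b := N.q w0 with hb
  refine ⟨2 * (C * (b + 2)) + 2 * M + 2, fun n => ?_⟩
  set k : ℤ := 2 ^ n with hk
  have hk0 : 0 ≤ k := by positivity
  let x : N.X := (w0, (b : ℤ) * k)
  have hcx : N.cq x = (⟨w0, ⟨0, N.hq w0⟩⟩, k) := by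
    have h := coord_apply N.q N.hq w0 ⟨0, N.hq w0⟩ k
    have e : (N.q w0 : ℤ) * k + (((⟨0, N.hq w0⟩ : Fin (N.q w0)) : ℕ) : ℤ) = (b : ℤ) * k := by
      simp [hb]
    rw [e] at h
    exact h
  have hkx : N.kap x = (b : ℤ) * k := by
    show ((b : ℤ) * k) / ((N.p w0 : ℕ) : ℤ) = _
    rw [hp0]
    simp
  -- second point
  obtain ⟨i, hi, hi'⟩ := hM (N.S x) ⟨w1, ⟨0, N.hq w1⟩⟩
  rw [cq_S, hkx] at hi'
  have hx2 : (N.A ^ i) (N.S x) = (w1, (b : ℤ) * k) := by
    apply N.cq_inj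
    rw [hi']
    have h := coord_apply N.q N.hq w1 ⟨0, N.hq w1⟩ ((b : ℤ) * k)
    have e : (N.q w1 : ℤ) * ((b : ℤ) * k) + (((⟨0, N.hq w1⟩ : Fin (N.q w1)) : ℕ) : ℤ) =
        (b : ℤ) * k := by
      have : (N.q w1 : ℤ) = 1 := by exact_mod_cast hq1
      rw [this]; simp
    rw [e] at h
    exact h.symm
  have hk2 : N.kap (w1, (b : ℤ) * k) = k := by
    show ((b : ℤ) * k) / ((N.p w1 : ℕ) : ℤ) = k
    rw [hp1]
    exact Int.mul_ediv_cancel_left _ (by omega)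
  obtain ⟨j, hj, hj'⟩ := hM (N.S (w1, (b : ℤ) * k)) ⟨w0, ⟨0, N.hq w0⟩⟩
  rw [cq_S, hk2] at hj'
  have hx3 : (N.A ^ j) (N.S (w1, (b : ℤ) * k)) = x := by
    apply N.cq_inj
    rw [hj', hcx]
  have hszx : N.sz x ≤ 2 ^ (n + b + 1) := by
    show ((b : ℤ) * k).natAbs + 1 ≤ _
    have e1 : ((b : ℤ) * k).natAbs = b * 2 ^ n := by
      rw [Int.natAbs_mul, Int.natAbs_natCast, hk, Int.natAbs_pow]
      rfl
    rw [e1]
    have e2 : b + 1 ≤ 2 ^ (b + 1) := by
      have := (Nat.lt_two_pow_self (n := b + 1)).le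
      omega
    have e3 : 1 ≤ 2 ^ n := Nat.one_le_two_pow
    calc b * 2 ^ n + 1 ≤ (b + 1) * 2 ^ n := by rw [add_mul, one_mul]; omega
      _ ≤ 2 ^ (b + 1) * 2 ^ n := Nat.mul_le_mul_right _ e2
      _ = 2 ^ (n + b + 1) := by rw [← pow_add]; congr 1; ring
  obtain ⟨v, hv1, hv2⟩ := hC _ x hszx
  let l : G := G.a ^ j * (G.s * (G.a ^ i * G.s))
  have hl1 : (N.act l).1 x = x := by
    have e : (N.act l).1 x = (N.act (G.a ^ j)).1 ((N.act G.s).1 ((N.act (G.a ^ i)).1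
        ((N.act G.s).1 x))) := by
      show (N.act (G.a ^ j * (G.s * (G.a ^ i * G.s)))).1 x = _
      rw [map_mul, map_mul, map_mul]
      rfl
    rw [e, act_a_pow, act_a_pow, act_s, hx2, hx3]
  have hWa : ∀ (i : ℕ) (y : N.X), N.wt (G.a ^ i) y = 0 := by
    intro i y
    have ha : G.a ∈ N.Wz := fun y => N.wt_a y
    exact (pow_mem ha i : G.a ^ i ∈ N.Wz) y
  have hl2 : N.wt l x = -((b : ℤ) * k) - k := by
    show N.wt (G.a ^ j * (G.s * (G.a ^ i * G.s))) x = _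
    rw [wt_mul, wt_mul, wt_mul, hWa, hWa, wt_s, wt_s, hkx]
    have e : (N.act (G.a ^ i * G.s)).1 x = (w1, (b : ℤ) * k) := by
      rw [map_mul]
      show (N.act (G.a ^ i)).1 ((N.act G.s).1 x) = _
      rw [act_a_pow, act_s, hx2]
    rw [e, hk2]
    ring
  have hvG : v ∈ G1 := W_mem_closure hv1
  have hlG : l ∈ G1 := mul_mem (pow_mem a_mem _) (mul_mem s_mem (mul_mem (pow_mem a_mem _) s_mem))
  have hfix : (N.act (v⁻¹ * l * v)).1 x0 = x0 := by
    rw [map_mul, map_mul]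
    show (N.act v⁻¹).1 ((N.act l).1 ((N.act v).1 x0)) = x0
    rw [hv2, hl1, act_inv_fst, Equiv.Perm.inv_eq_iff_eq, hv2]
  refine ⟨v⁻¹ * l * v, ?_, ?_, ?_⟩
  · exact Subgroup.closure_mono (Set.subset_insert _ _)
      (N.mem_of_fix x0 (mul_mem (mul_mem (inv_mem hvG) hlG) hvG) hfix)
  · have hw : W S1 l (j + (1 + (i + 1))) := by
      have hj1 := W_pow W_S1_a j
      have hi1 := W_pow W_S1_a i
      rw [one_mul] at hj1 hi1
      exact W_mul hj1 (W_mul W_S1_s (W_mul hi1 W_S1_s))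
    refine W_subset (Set.subset_insert _ _) (W_mono (W_mul (W_mul (W_inv hv1) hw) hv1) ?_)
    have e1 : C * (n + b + 1 + 1) ≤ C * (b + 2) * (n + 1) := by
      rw [mul_assoc]
      refine Nat.mul_le_mul_left _ ?_
      nlinarith
    have e2 : (2 * (C * (b + 2)) + 2 * M + 2) * (n + 1) =
        2 * (C * (b + 2) * (n + 1)) + (2 * M + 2) * (n + 1) := by ring
    have e3 : (2 * M + 2) * 1 ≤ (2 * M + 2) * (n + 1) := Nat.mul_le_mul_left _ (by omega)
    omega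
  · intro L hL
    have h1 := (N.wt_H x0 hL).2
    have h2 : N.wt (v⁻¹ * l * v) x0 = -((b : ℤ) * k) - k := by
      rw [wt_mul, wt_mul, hv2, hl1, wt_inv, act_inv_fst]
      have e : ((N.act v).1)⁻¹ x = x0 := by
        rw [Equiv.Perm.inv_eq_iff_eq, hv2]
      rw [e, hl2]
      ring
    rw [h2] at h1
    have h3 : (-((b : ℤ) * k) - k).natAbs = (b * 2 ^ n + 2 ^ n) := by
      have e : (-((b : ℤ) * k) - k) = -((b * 2 ^ n + 2 ^ n : ℕ) : ℤ) := by
        rw [hk]; push_cast; ring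
      rw [e, Int.natAbs_neg, Int.natAbs_natCast]
    rw [h3] at h1
    have : 0 ≤ b * 2 ^ n := Nat.zero_le _
    omega

theorem sz_le_kap {x : N.X} (hx : 0 ≤ x.2) : N.sz x ≤ N.D * (N.kap x).natAbs + N.D + 1 := by
  have e1 : x.2 = (N.p x.1 : ℤ) * N.kap x + x.2 % (N.p x.1 : ℤ) :=
    (Int.mul_ediv_add_emod _ _).symm
  have hpp := N.hp x.1
  have e3 := Int.emod_lt_of_pos x.2 (b := (N.p x.1 : ℤ)) (by omega)
  have e4 := N.p_lt_D x.1
  have e5 : 0 ≤ N.kap x := Int.ediv_nonneg hx (by omega)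
  have e6 : (N.p x.1 : ℤ) * N.kap x ≤ (N.D : ℤ) * N.kap x :=
    mul_le_mul_of_nonneg_right (by exact_mod_cast e4.le) e5
  have e7 : ((N.kap x).natAbs : ℤ) = N.kap x := by omega
  have e8 : ((N.sz x : ℕ) : ℤ) = x.2 + 1 := by
    unfold sz
    omega
  have e9 : ((N.sz x : ℕ) : ℤ) ≤ ((N.D * (N.kap x).natAbs + N.D + 1 : ℕ) : ℤ) := by
    push_cast
    rw [abs_of_nonneg e5, e8]
    have : (N.p x.1 : ℤ) < N.D := by exact_mod_cast e4
    linarith
  exact_mod_cast e9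

theorem div_up (c a : ℕ) (hc : 0 < c) : a ≤ c * ((a + (c - 1)) / c) := by
  have h := Nat.lt_mul_div_succ (a + (c - 1)) hc
  rw [Nat.mul_succ] at h
  omega

/-- **Lower bound by the orbit.** -/
theorem orbit_low (hinf : ∀ k : ℤ, k ≠ 0 → (N.S ^ k) x0 ≠ x0) (w0 : Fin N.m)
    (hp0 : N.p w0 = 1) (hq0 : 2 ≤ N.q w0) :
    ∃ C : ℕ, ∀ n K i : ℕ, i < K → (∀ j < K, 0 ≤ ((N.S ^ j) x0).2) →
      N.sz ((N.S ^ K) x0) ≤ 2 ^ n → ∃ h : G, h ∈ N.HH x0 ∧ W (insert G.z S1) h (C * (n + 1)) ∧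
        ∀ L, W (insert G.z (N.Y1 x0)) h L → N.sz ((N.S ^ i) x0) ≤ C * L + 2 ^ (C * (n + 1)) := by
  obtain ⟨C, hC⟩ := N.short x0 w0 hp0 hq0
  have hD := N.one_le_D
  -- the constant
  refine ⟨2 * C + 1 + N.D * (C + 1) + 2 * N.D + N.sz x0 + 1 + C, fun n K i hiK hpos hn => ?_⟩
  obtain ⟨v, hv1, hv2⟩ := hC n _ hn
  have hvG : v ∈ G1 := W_mem_closure hv1
  have hv2' : (N.act v).1 x0 = (N.S ^ (K : ℤ)) x0 := by rw [zpow_natCast]; exact hv2
  set C' := 2 * C + 1 + N.D * (C + 1) + 2 * N.D + N.sz x0 + 1 + C with hC'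
  refine ⟨v⁻¹ * G.z * v, N.lamp_mem x0 hvG K hv2', ?_, fun L hL => ?_⟩
  · have h1 : W (insert G.z S1) v (C * (n + 1)) := W_subset (Set.subset_insert _ _) hv1
    have h2 : W (insert G.z S1) G.z 1 := W_of_mem (Set.mem_insert _ _)
    refine W_mono (W_mul (W_mul (W_inv h1) h2) h1) ?_
    have e1 : (2 * C + 1) * (n + 1) ≤ C' * (n + 1) := Nat.mul_le_mul_right _ (by omega)
    have e2 : (2 * C + 1) * (n + 1) = 2 * (C * (n + 1)) + (n + 1) := by ring
    omega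
  · have h1 := N.lowW x0 hinf hvG K hv2' hL
    rw [wt_s_pow] at h1
    have h2 := N.wt_le hv1 x0
    have hkpos : ∀ j < K, 0 ≤ N.kap ((N.S ^ j) x0) := by
      intro j hj
      exact Int.ediv_nonneg (hpos j hj) (by omega)
    have h3 : N.kap ((N.S ^ i) x0) ≤ ∑ j ∈ Finset.range K, N.kap ((N.S ^ j) x0) :=
      Finset.single_le_sum (f := fun j => N.kap ((N.S ^ j) x0))
        (fun j hj => hkpos j (Finset.mem_range.1 hj)) (Finset.mem_range.2 hiK)
    have h4 : (N.kap ((N.S ^ i) x0)).natAbs ≤ L + C * (n + 1) * (N.D ^ (C * (n + 1)) * N.sz x0) := by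
      have := hkpos i hiK
      omega
    have h5 := N.sz_le_kap (hpos i hiK)
    -- exponentials
    set r := C * (n + 1) with hr
    have p1 : r ≤ 2 ^ r := Nat.lt_two_pow_self.le
    have p2 : N.D ^ r ≤ 2 ^ (N.D * r) := by
      rw [pow_mul 2]
      exact Nat.pow_le_pow_left Nat.lt_two_pow_self.le r
    have p3 : N.sz x0 ≤ 2 ^ N.sz x0 := Nat.lt_two_pow_self.le
    have p4 : N.D ≤ 2 ^ N.D := Nat.lt_two_pow_self.le
    have p5 : N.D * (r * (N.D ^ r * N.sz x0)) + N.D + 1 ≤ 2 ^ (C' * (n + 1)) := by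
      have q1 : N.D * (r * (N.D ^ r * N.sz x0)) ≤ 2 ^ (N.D + (r + (N.D * r + N.sz x0))) := by
        rw [pow_add, pow_add, pow_add]
        exact Nat.mul_le_mul p4 (Nat.mul_le_mul p1 (Nat.mul_le_mul p2 p3))
      have q2 : N.D + 1 ≤ 2 ^ (N.D + (r + (N.D * r + N.sz x0))) := by
        have : N.D + 1 ≤ N.D + (r + (N.D * r + N.sz x0)) := by
          have := N.one_le_sz x0
          omega
        exact this.trans Nat.lt_two_pow_self.le
      have q3 : N.D * (r * (N.D ^ r * N.sz x0)) + N.D + 1 ≤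
          2 ^ (N.D + (r + (N.D * r + N.sz x0)) + 1) := by
        rw [pow_succ]
        omega
      refine q3.trans (Nat.pow_le_pow_right (by norm_num) ?_)
      have q4 : C' * (n + 1) = (2 * C + 1) * (n + 1) + N.D * (C + 1) * (n + 1) +
          (2 * N.D + N.sz x0 + 1) * (n + 1) + C * (n + 1) := by rw [hC']; ring
      have q5 : (2 * N.D + N.sz x0 + 1) * 1 ≤ (2 * N.D + N.sz x0 + 1) * (n + 1) :=
        Nat.mul_le_mul_left _ (by omega)
      have q6 : N.D * (C + 1) * (n + 1) = N.D * r + N.D * (n + 1) := by rw [hr]; ring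
      have q7 : (2 * C + 1) * (n + 1) = 2 * r + (n + 1) := by rw [hr]; ring
      rw [q4, q6, q7, ← hr]
      omega
    calc N.sz ((N.S ^ i) x0) ≤ N.D * (N.kap ((N.S ^ i) x0)).natAbs + N.D + 1 := h5
      _ ≤ N.D * (L + r * (N.D ^ r * N.sz x0)) + N.D + 1 := by
          have := Nat.mul_le_mul_left N.D h4
          omega
      _ = N.D * L + (N.D * (r * (N.D ^ r * N.sz x0)) + N.D + 1) := by ring
      _ ≤ C' * L + 2 ^ (C' * (n + 1)) :=
          Nat.add_le_add (Nat.mul_le_mul_right _ (by rw [hC']; omega)) p5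

/-- **The two-sided theorem.** -/
theorem two_sided (hinf : ∀ k : ℤ, k ≠ 0 → (N.S ^ k) x0 ≠ x0) (w0 w1 : Fin N.m)
    (hp0 : N.p w0 = 1) (hq0 : 2 ≤ N.q w0) (hp1 : N.p w1 = N.q w0) (hq1 : N.q w1 = 1)
    {S T : Set G} (hS : S.Finite) (hS' : Subgroup.closure S = ⊤) (hT : T.Finite)
    (hT' : Subgroup.closure T = N.HH x0) :
    ∃ C : ℕ, 1 ≤ C ∧
      (∀ n, 2 ^ n ≤ C * distortion S T (N.HH x0) (C * n + C)) ∧
      (∀ n K i : ℕ, i < K → (∀ j < K, 0 ≤ ((N.S ^ j) x0).2) → N.sz ((N.S ^ K) x0) ≤ 2 ^ n →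
        N.sz ((N.S ^ i) x0) ≤ C * distortion S T (N.HH x0) (C * n + C)) ∧
      (∀ n B : ℕ, (∀ K : ℤ, N.sz ((N.S ^ K) x0) ≤ 2 ^ (C * n + C) → N.cost x0 K ≤ B) →
        distortion S T (N.HH x0) n ≤ C * ((n + 1) * (B + 2 ^ (C * n + C)))) := by
  obtain ⟨C1, hC11, hC1⟩ := N.dist_ge x0 hS hS' hT hT'
  obtain ⟨C2, hC2⟩ := N.exp_low x0 w0 w1 hp0 hq0 hp1 hq1
  obtain ⟨C3, hC3⟩ := N.orbit_low x0 hinf w0 hp0 hq0
  have hD := N.one_le_D
  have hmono := distortion_mono (T := T) hS hS' (N.HH x0)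
  -- exponential lower bound
  have A1 : ∀ n, 2 ^ n ≤ C1 * distortion S T (N.HH x0) (C1 * C2 * (n + 1)) := by
    intro n
    obtain ⟨h, h1, h2, h3⟩ := hC2 n
    have := hC1 h _ _ h1 h2 h3
    rwa [← mul_assoc] at this
  -- the orbit
  have A2 : ∀ n K i : ℕ, i < K → (∀ j < K, 0 ≤ ((N.S ^ j) x0).2) → N.sz ((N.S ^ K) x0) ≤ 2 ^ n →
      N.sz ((N.S ^ i) x0) ≤ C3 * (C1 * distortion S T (N.HH x0) (C1 * C3 * (n + 1))) +
        2 ^ (C3 * (n + 1)) := by
    intro n K i h1 h2 h3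
    obtain ⟨h, h4, h5, h6⟩ := hC3 n K i h1 h2 h3
    by_cases hle : N.sz ((N.S ^ i) x0) ≤ 2 ^ (C3 * (n + 1))
    · exact hle.trans (Nat.le_add_left _ _)
    · have h7 : ∀ L, W (insert G.z (N.Y1 x0)) h L →
          (N.sz ((N.S ^ i) x0) - 2 ^ (C3 * (n + 1)) + (C3 - 1)) / C3 ≤ L := by
        intro L hL
        have h8 := h6 L hL
        by_cases hC0 : C3 = 0
        · subst hC0; simp
        · rw [Nat.div_le_iff_le_mul_add_pred (by omega)]
          omega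
      have h8 := hC1 h _ _ h4 h5 h7
      rw [← mul_assoc C1 C3] at h8
      by_cases hC0 : C3 = 0
      · obtain ⟨L, hL⟩ := exists_W h4
        have := h6 L hL
        rw [hC0] at this hle
        omega
      · have h9 := div_up C3 (N.sz ((N.S ^ i) x0) - 2 ^ (C3 * (n + 1))) (by omega)
        have h11 := Nat.mul_le_mul_left C3 h8
        omega
  -- the upper bound
  obtain ⟨K1, hK1⟩ := exists_bound (S := S) (S' := insert G.z S1) hS
    (fun x _ => by rw [closure_gen]; trivial)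
  obtain ⟨K2, hK2⟩ := exists_bound (S := insert G.z (N.Y1 x0)) (S' := T)
    ((N.Y1_finite x0).insert _) (fun x hx => by
      rw [hT']
      exact Subgroup.subset_closure hx)
  have A3 : ∀ n B : ℕ,
      (∀ K : ℤ, N.sz ((N.S ^ K) x0) ≤ N.D ^ (K1 * n) * N.sz x0 → N.cost x0 K ≤ B) →
      distortion S T (N.HH x0) n ≤ K2 * ((K1 * n + 1) * (2 * B + (K1 * n) *
        (N.D ^ (K1 * n) * (N.D ^ (K1 * n) * N.sz x0))) + K1 * n) := by
    intro n B hB
    refine csSup_le' ?_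
    rintro k ⟨h, h1, h2, rfl⟩
    have h3 : W S h n := W_mono (W_wordLength (by rw [hS']; trivial)) h2
    have h4 := W_trans hK1 h3
    have h5 := N.upper x0 hB h4 h1
    exact wordLength_le (W_trans hK2 h5)
  -- constants
  set q := N.sz x0 with hq
  have hq1' : 1 ≤ q := N.one_le_sz x0
  set E := 2 * N.D * K1 + K1 + q + 2 with hE
  have B3 : ∀ n, N.D ^ (K1 * n) * q ≤ 2 ^ (E * n + E) := by
    intro n
    have e1 : N.D ^ (K1 * n) ≤ 2 ^ (N.D * (K1 * n)) := by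
      rw [pow_mul 2]
      exact Nat.pow_le_pow_left Nat.lt_two_pow_self.le _
    have e2 : q ≤ 2 ^ q := Nat.lt_two_pow_self.le
    calc _ ≤ 2 ^ (N.D * (K1 * n)) * 2 ^ q := Nat.mul_le_mul e1 e2
      _ = 2 ^ (N.D * (K1 * n) + q) := by rw [pow_add]
      _ ≤ _ := Nat.pow_le_pow_right (by norm_num) (by
        have : E * n = 2 * (N.D * (K1 * n)) + K1 * n + q * n + 2 * n := by rw [hE]; ring
        have h2 : 0 ≤ q * n := Nat.zero_le _
        omega)
  have B4 : ∀ n, (K1 * n) * (N.D ^ (K1 * n) * (N.D ^ (K1 * n) * q)) + 1 ≤ 2 ^ (E * n + E) := by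
    intro n
    have e0 : K1 * n ≤ 2 ^ (K1 * n) := Nat.lt_two_pow_self.le
    have e1 : N.D ^ (K1 * n) ≤ 2 ^ (N.D * (K1 * n)) := by
      rw [pow_mul 2]
      exact Nat.pow_le_pow_left Nat.lt_two_pow_self.le _
    have e2 : q ≤ 2 ^ q := Nat.lt_two_pow_self.le
    have e3 : (K1 * n) * (N.D ^ (K1 * n) * (N.D ^ (K1 * n) * q)) ≤
        2 ^ (K1 * n + (N.D * (K1 * n) + (N.D * (K1 * n) + q))) := by
      rw [pow_add, pow_add, pow_add]
      exact Nat.mul_le_mul e0 (Nat.mul_le_mul e1 (Nat.mul_le_mul e1 e2))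
    have e4 : 1 ≤ 2 ^ (K1 * n + (N.D * (K1 * n) + (N.D * (K1 * n) + q))) := Nat.one_le_two_pow
    calc _ ≤ 2 ^ (K1 * n + (N.D * (K1 * n) + (N.D * (K1 * n) + q)) + 1) := by
          rw [pow_succ]; omega
      _ ≤ _ := Nat.pow_le_pow_right (by norm_num) (by
        have : E * n = 2 * (N.D * (K1 * n)) + K1 * n + q * n + 2 * n := by rw [hE]; ring
        have h2 : 0 ≤ q * n := Nat.zero_le _
        omega)
  refine ⟨C1 * C2 + C1 + C3 * C1 + C1 * C3 + (C3 + 1) * (C1 * C2) + C1 * (C3 + 1) +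
    2 * K2 * (K1 + 1) + E + K2, by omega, fun n => ?_, fun n K i h1 h2 h3 => ?_,
    fun n B hB => ?_⟩
  all_goals
    set C := C1 * C2 + C1 + C3 * C1 + C1 * C3 + (C3 + 1) * (C1 * C2) + C1 * (C3 + 1) +
      2 * K2 * (K1 + 1) + E + K2 with hC
  · refine (A1 n).trans (Nat.mul_le_mul (by omega) (hmono ?_))
    have e1 : C1 * C2 * (n + 1) ≤ C * (n + 1) := Nat.mul_le_mul_right _ (by omega)
    rw [mul_add, mul_one] at e1
    rw [mul_add, mul_one] at *
    omega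
  · have e1 := A2 n K i h1 h2 h3
    have e2 := A1 (C3 * (n + 1))
    have e3 : C1 * C3 * (n + 1) ≤ C * n + C := by
      have : C1 * C3 * (n + 1) ≤ C * (n + 1) := Nat.mul_le_mul_right _ (by omega)
      rwa [mul_add C, mul_one] at this
    have e4 : C1 * C2 * (C3 * (n + 1) + 1) ≤ C * n + C := by
      have f1 : C3 * (n + 1) + 1 ≤ (C3 + 1) * (n + 1) := by
        rw [add_mul, one_mul]; omega
      have f2 : C1 * C2 * (C3 * (n + 1) + 1) ≤ (C3 + 1) * (C1 * C2) * (n + 1) := by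
        calc _ ≤ C1 * C2 * ((C3 + 1) * (n + 1)) := Nat.mul_le_mul_left _ f1
          _ = _ := by ring
      have f3 : (C3 + 1) * (C1 * C2) * (n + 1) ≤ C * (n + 1) :=
        Nat.mul_le_mul_right _ (by omega)
      rw [mul_add C, mul_one] at f3
      omega
    have e5 := hmono e3
    have e6 := hmono e4
    have e7 : C3 * (C1 * distortion S T (N.HH x0) (C1 * C3 * (n + 1))) ≤
        C3 * C1 * distortion S T (N.HH x0) (C * n + C) := by
      rw [← mul_assoc]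
      exact Nat.mul_le_mul_left _ e5
    have e8 : C1 * distortion S T (N.HH x0) (C1 * C2 * (C3 * (n + 1) + 1)) ≤
        C1 * distortion S T (N.HH x0) (C * n + C) := Nat.mul_le_mul_left _ e6
    have e9 : (C3 * C1 + C1) * distortion S T (N.HH x0) (C * n + C) ≤
        C * distortion S T (N.HH x0) (C * n + C) := Nat.mul_le_mul_right _ (by omega)
    rw [add_mul] at e9
    omega
  · have e0 : E * n + E ≤ C * n + C := by
      have : E * (n + 1) ≤ C * (n + 1) := Nat.mul_le_mul_right _ (by omega)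
      rwa [mul_add, mul_one, mul_add, mul_one] at this
    have e1 : 2 ^ (E * n + E) ≤ 2 ^ (C * n + C) := Nat.pow_le_pow_right (by norm_num) e0
    have e2 := A3 n B (fun K hK => hB K (hK.trans ((B3 n).trans e1)))
    refine e2.trans ?_
    set Z := (K1 * n) * (N.D ^ (K1 * n) * (N.D ^ (K1 * n) * q)) with hZ
    have e3 : Z + 1 ≤ 2 ^ (C * n + C) := (B4 n).trans e1
    have e4 : K1 * n + 1 ≤ (K1 + 1) * (n + 1) := by nlinarith [Nat.zero_le (K1 * n)]
    have e5 : (K1 * n + 1) * (2 * B + Z) + K1 * n ≤ (K1 + 1) * (n + 1) * (2 * (B + 2 ^ (C * n + C))) := by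
      calc _ ≤ (K1 * n + 1) * (2 * B + Z) + (K1 * n + 1) * 1 := by omega
        _ = (K1 * n + 1) * (2 * B + (Z + 1)) := by ring
        _ ≤ (K1 + 1) * (n + 1) * (2 * (B + 2 ^ (C * n + C))) :=
          Nat.mul_le_mul e4 (by omega)
    calc _ ≤ K2 * ((K1 + 1) * (n + 1) * (2 * (B + 2 ^ (C * n + C)))) := Nat.mul_le_mul_left _ e5
      _ = 2 * K2 * (K1 + 1) * ((n + 1) * (B + 2 ^ (C * n + C))) := by ring
      _ ≤ _ := Nat.mul_le_mul_right _ (by omega)

end Net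

end Pool.Agent.DIST
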