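import Pool.Agent.DIST.UpComb

/-!
# `G` as an HNN extension of `⟨t, s, a⟩` and Britton's lemma
-/

set_option autoImplicit false

namespace Pool.Agent.DIST

open Pool.Agent.helper12.FD HNNExtension

/-- the subgroup generated by `t, s, a` -/
def G1 : Subgroup G := Subgroup.closure Net.S1

theorem t_mem : G.t ∈ G1 := Subgroup.subset_closure (Or.inl rfl)
theorem s_mem : G.s ∈ G1 := Subgroup.subset_closure (Or.inr (Or.inl rfl))
theorem a_mem : G.a ∈ G1 := Subgroup.subset_closure (Or.inr (Or.inr rfl))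

/-- `s` as an element of `G1` -/
def s1 : G1 := ⟨G.s, s_mem⟩

/-- the cyclic subgroup -/
abbrev C1 : Subgroup G1 := Subgroup.zpowers s1

/-- the HNN extension -/
abbrev HN : Type := HNNExtension G1 C1 C1 (MulEquiv.refl _)

theorem mem_C1 {g : G1} : g ∈ C1 ↔ ∃ k : ℤ, (g : G) = G.s ^ k := by
  rw [Subgroup.mem_zpowers_iff]
  constructor
  · rintro ⟨k, rfl⟩
    exact ⟨k, by simp [s1]⟩
  · rintro ⟨k, hk⟩
    exact ⟨k, by ext1; simp [s1, hk]⟩

theorem z_comm {g : G1} (hg : g ∈ C1) : Commute G.z (g : G) := by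
  obtain ⟨k, hk⟩ := mem_C1.1 hg
  rw [hk]
  exact (show Commute G.s G.z from G.s_z).symm.zpow_right k

/-- the homomorphism to `G` -/
noncomputable def Psi : HN →* G :=
  HNNExtension.lift G1.subtype G.z (fun a => (z_comm a.2).eq)

theorem exists_Phi : ∃ F : G →* HN, F G.t = of ⟨G.t, t_mem⟩ ∧ F G.s = of s1 ∧
    F G.z = HNNExtension.t ∧ F G.a = of ⟨G.a, a_mem⟩ := by
  refine G.exists_hom _ _ _ _ ?_ ?_ ?_
  · have h : Commute (⟨G.t, t_mem⟩ : G1) (s1⁻¹ * ⟨G.t, t_mem⟩ * s1) := by
      have e : G.s⁻¹ * G.t * G.s = G.t' := by rw [mul_assoc, ← G.s_t', inv_mul_cancel_left]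
      have := G.t_t'
      rw [← e] at this
      exact Subtype.ext this
    have h2 := h.map (of : G1 →* HN)
    simpa using h2
  · have := HNNExtension.t_mul_of (G := G1) (A := C1) (B := C1) (φ := MulEquiv.refl _)
      ⟨s1, Subgroup.mem_zpowers s1⟩
    exact this.symm
  · have h : Commute (⟨G.t, t_mem⟩ : G1) ⟨G.a, a_mem⟩ := Subtype.ext G.t_a
    exact h.map (of : G1 →* HN)

theorem Psi_injective : Function.Injective Psi := by
  obtain ⟨F, h1, h2, h3, h4⟩ := exists_Phi
  have key : ∀ (x : G) (hx : x ∈ G1), F x = of ⟨x, hx⟩ := by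
    intro x hx
    induction hx using Subgroup.closure_induction with
    | mem x hx =>
      rcases hx with rfl | rfl | rfl
      · exact h1
      · exact h2
      · exact h4
    | one => rw [map_one]; exact (map_one of).symm
    | mul x y hx hy ihx ihy => rw [map_mul, ihx, ihy, ← map_mul]; rfl
    | inv x hx ih => rw [map_inv, ih, ← map_inv]; rfl
  have : F.comp Psi = MonoidHom.id HN := by
    refine HNNExtension.hom_ext ?_ ?_
    · ext g
      show F (Psi (of g)) = of g
      rw [Psi, HNNExtension.lift_of]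
      exact key g g.2
    · show F (Psi HNNExtension.t) = HNNExtension.t
      rw [Psi, HNNExtension.lift_t, h3]
  intro x y hxy
  have h5 := congrArg F hxy
  have h6 : ∀ x, F (Psi x) = x := fun x => DFunLike.congr_fun this x
  rwa [h6, h6] at h5

/-- the product of a word -/
noncomputable def wprod (g : G1) (l : List (ℤˣ × G1)) : G :=
  (g : G) * (l.map (fun x => G.z ^ (x.1 : ℤ) * (x.2 : G))).prod

theorem wprod_cons (g : G1) (x : ℤˣ × G1) (l : List (ℤˣ × G1)) :
    wprod g (x :: l) = g * (G.z ^ (x.1 : ℤ) * wprod x.2 l) := by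
  simp only [wprod, List.map_cons, List.prod_cons, mul_assoc]

/-- reduced words -/
def Red (l : List (ℤˣ × G1)) : Prop := l.IsChain (fun a b => a.2 ∈ C1 → a.1 = b.1)

theorem toSub (u : ℤˣ) : HNNExtension.toSubgroup C1 C1 u = C1 := by
  unfold HNNExtension.toSubgroup
  split_ifs <;> rfl

/-- a reduced word of Mathlib -/
def rw' (g : G1) (l : List (ℤˣ × G1)) (hl : Red l) : NormalWord.ReducedWord G1 C1 C1 where
  head := g
  toList := l
  chain := by
    refine List.IsChain.imp ?_ hl
    intro a b h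
    rw [toSub]
    exact h

theorem Psi_rw' (g : G1) (l : List (ℤˣ × G1)) (hl : Red l) :
    Psi (NormalWord.ReducedWord.prod (MulEquiv.refl _) (rw' g l hl)) = wprod g l := by
  rw [NormalWord.ReducedWord.prod, wprod, map_mul, Psi, HNNExtension.lift_of]
  congr 1
  rw [map_list_prod, List.map_map]
  congr 1
  apply List.map_congr_left
  intro x _
  simp [HNNExtension.lift_of, HNNExtension.lift_t]

theorem britton {g h : G1} {l m : List (ℤˣ × G1)} (hl : Red l) (hm : Red m)
    (e : wprod g l = wprod h m) :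
    l.map Prod.fst = m.map Prod.fst ∧ (l ≠ [] → ∃ k : ℤ, (g : G)⁻¹ * h = G.s ^ k) := by
  have h1 : NormalWord.ReducedWord.prod (MulEquiv.refl _) (rw' g l hl) =
      NormalWord.ReducedWord.prod (MulEquiv.refl _) (rw' h m hm) := by
    apply Psi_injective
    rw [Psi_rw', Psi_rw', e]
  obtain ⟨h2, h3⟩ := HNNExtension.ReducedWord.map_fst_eq_and_of_prod_eq (MulEquiv.refl _) h1
  refine ⟨h2, fun hne => ?_⟩
  obtain ⟨x, l', rfl⟩ := List.exists_cons_of_ne_nil hne
  have h4 := h3 x.1 (by simp [rw'])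
  rw [toSub] at h4
  obtain ⟨k, hk⟩ := mem_C1.1 h4
  exact ⟨k, by simpa [rw'] using hk⟩

/-- total cost of a list -/
def tot (c : G1 → ℕ) (l : List (ℤˣ × G1)) : ℕ := (l.map (fun x => c x.2 + 1)).sum

theorem tot_cons (c : G1 → ℕ) (x : ℤˣ × G1) (l : List (ℤˣ × G1)) :
    tot c (x :: l) = c x.2 + 1 + tot c l := by simp [tot]

theorem length_le_tot (c : G1 → ℕ) (l : List (ℤˣ × G1)) : l.length ≤ tot c l := by
  induction l with
  | nil => simp
  | cons x l ih => rw [tot_cons, List.length_cons]; omega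

/-- **Reduction of words.** -/
theorem red_gen (P : Subgroup G1) (c : G1 → ℕ) (hc1 : c 1 = 0)
    (hcm : ∀ g h, c (g * h) ≤ c g + c h) (X : Set G)
    (hX : ∀ x, (x ∈ X ∨ x⁻¹ ∈ X) → ∃ h : x ∈ G1, (⟨x, h⟩ : G1) ∈ P ∧ c ⟨x, h⟩ ≤ 1)
    {g : G} {n : ℕ} (hg : W (insert G.z X) g n) :
    ∃ (g0 : G1) (l : List (ℤˣ × G1)), Red l ∧ wprod g0 l = g ∧ g0 ∈ P ∧ (∀ x ∈ l, x.2 ∈ P) ∧
      c g0 + tot c l ≤ n := by
  refine W_induction (P := fun g n => ∃ (g0 : G1) (l : List (ℤˣ × G1)), Red l ∧
    wprod g0 l = g ∧ g0 ∈ P ∧ (∀ x ∈ l, x.2 ∈ P) ∧ c g0 + tot c l ≤ n) ?_ ?_ ?_ hg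
  · exact ⟨1, [], List.isChain_nil, by simp [wprod], one_mem _, by simp, by simp [hc1, tot]⟩
  · rintro y g n hy ⟨g0, l, h1, h2, h3, h4, h5⟩
    have hy' : (y ∈ X ∨ y⁻¹ ∈ X) ∨ ∃ e : ℤˣ, y = G.z ^ (e : ℤ) := by
      rcases hy with (hy | hy) | (hy | hy)
      · exact Or.inr ⟨1, by simp [hy]⟩
      · exact Or.inl (Or.inl hy)
      · exact Or.inr ⟨-1, by simp [← hy]⟩
      · exact Or.inl (Or.inr hy)
    rcases hy' with hy | ⟨e, rfl⟩
    · obtain ⟨hy1, hy2, hy3⟩ := hX y hy
      refine ⟨⟨y, hy1⟩ * g0, l, h1, ?_, mul_mem hy2 h3, h4, ?_⟩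
      · rw [← h2, wprod, wprod]
        simp [mul_assoc]
      · have := hcm ⟨y, hy1⟩ g0
        omega
    · by_cases hcase : ∃ (g1 : G1) (r : List (ℤˣ × G1)), l = (-e, g1) :: r ∧ g0 ∈ C1
      · obtain ⟨g1, r, rfl, hg0⟩ := hcase
        refine ⟨g0 * g1, r, List.IsChain.tail h1, ?_,
          mul_mem h3 (h4 _ (List.mem_cons_self ..)),
          fun x hx => h4 x (List.mem_cons_of_mem _ hx), ?_⟩
        · rw [← h2, wprod_cons]
          have h6 : Commute (G.z ^ (e : ℤ)) (g0 : G) := (z_comm hg0).zpow_left _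
          rw [← mul_assoc, h6.eq, mul_assoc, ← mul_assoc (G.z ^ (e : ℤ))]
          have h7 : G.z ^ (e : ℤ) * G.z ^ ((-e : ℤˣ) : ℤ) = 1 := by
            rw [← zpow_add]; simp
          simp only
          rw [h7, one_mul, wprod, wprod]
          simp [mul_assoc]
        · rw [tot_cons] at h5
          have := hcm g0 g1
          simp only at h5
          omega
      · refine ⟨1, (e, g0) :: l, ?_, ?_, one_mem _, ?_, ?_⟩
        · rw [Red, List.isChain_cons]
          refine ⟨?_, h1⟩
          intro b hb hg0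
          simp only at hg0 ⊢
          by_contra hne
          apply hcase
          obtain ⟨r, hr⟩ : ∃ r, l = b :: r := by
            cases l with
            | nil => simp at hb
            | cons x r =>
              simp only [List.head?_cons, Option.mem_def, Option.some.injEq] at hb
              exact ⟨r, by rw [hb]⟩
          refine ⟨b.2, r, ?_, hg0⟩
          rw [hr]
          congr 1
          refine Prod.ext ?_ rfl
          simp only
          rcases Int.units_eq_one_or e with h | h <;> rcases Int.units_eq_one_or b.1 with h' | h' <;>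
            rw [h, h'] at hne <;> rw [h, h'] <;> simp at hne ⊢
        · rw [wprod_cons, h2]
          simp
        · intro x hx
          rcases List.mem_cons.1 hx with rfl | hx
          · exact h3
          · exact h4 x hx
        · rw [tot_cons, hc1]
          simp only
          omega
  · rintro g m n hmn ⟨g0, l, h1, h2, h3, h4, h5⟩
    exact ⟨g0, l, h1, h2, h3, h4, h5.trans hmn⟩

/-- word length in `G1` -/
noncomputable def wl (g : G1) : ℕ := sInf {n | W Net.S1 (g : G) n}

theorem W_wl (g : G1) : W Net.S1 (g : G) (wl g) := Nat.sInf_mem (exists_W g.2)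

theorem wl_le {g : G1} {n : ℕ} (h : W Net.S1 (g : G) n) : wl g ≤ n := Nat.sInf_le h

theorem wl_one : wl 1 = 0 := Nat.le_zero.1 (wl_le (W_one 0))

theorem wl_mul (g h : G1) : wl (g * h) ≤ wl g + wl h := wl_le (W_mul (W_wl g) (W_wl h))

end Pool.Agent.DIST
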