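import Pool.Agent.DIST.UpMain

/-!
# Short paths and the weighted lower bound
-/

set_option autoImplicit false

namespace Pool.Agent.DIST

open Pool.Agent.helper12.FD

namespace Net

variable (N : Net) (x0 : N.X)

/-! ### short paths -/

theorem act_t_zpow (k : ℤ) : (N.act (G.t ^ k)).1 = N.T ^ k := by
  rw [map_zpow, act_t]
  exact map_zpow (MonoidHom.fst (Equiv.Perm N.X) (Multiplicative ℤ)) (N.T, 1) k

theorem act_a_pow (k : ℕ) : (N.act (G.a ^ k)).1 = N.A ^ k := by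
  rw [map_pow, act_a]
  exact map_pow (MonoidHom.fst (Equiv.Perm N.X) (Multiplicative ℤ)) (N.A, 1) k

theorem W_S1_t : W S1 G.t 1 := W_of_mem (Or.inl rfl)
theorem W_S1_s : W S1 G.s 1 := W_of_mem (Or.inr (Or.inl rfl))
theorem W_S1_a : W S1 G.a 1 := W_of_mem (Or.inr (Or.inr rfl))

/-- moving between `t`-orbits -/
theorem move (x : N.X) (ω : N.Om) : ∃ i : ℕ, N.cq ((N.A ^ i) x) = (ω, (N.cq x).2) := by
  obtain ⟨i, hi⟩ := N.rot_spec (N.cq x).1 ω
  exact ⟨i, by rw [cq_A_pow, hi]⟩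

theorem exists_move : ∃ M : ℕ, ∀ (x : N.X) (ω : N.Om), ∃ i ≤ M,
    N.cq ((N.A ^ i) x) = (ω, (N.cq x).2) := by
  classical
  choose f hf using fun ω ω' => N.rot_spec ω ω'
  refine ⟨Finset.univ.sup fun p : N.Om × N.Om => f p.1 p.2, fun x ω => ⟨f (N.cq x).1 ω, ?_, ?_⟩⟩
  · exact Finset.le_sup (f := fun p : N.Om × N.Om => f p.1 p.2)
      (Finset.mem_univ ((N.cq x).1, ω))
  · rw [cq_A_pow, hf]

/-- `k` or `-k-1` -/
def mu (k : ℤ) : ℕ := if 0 ≤ k then k.toNat else (-k - 1).toNat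

theorem mu_div (k : ℤ) (b : ℕ) (hb : 2 ≤ b) : mu (k / (b : ℤ)) ≤ mu k / 2 := by
  have hb' : (0 : ℤ) < b := by omega
  rcases le_or_gt 0 k with hk | hk
  · have h1 : 0 ≤ k / (b : ℤ) := Int.ediv_nonneg hk hb'.le
    obtain ⟨j, rfl⟩ := Int.eq_ofNat_of_zero_le hk
    have e1 : mu ((j : ℤ) / (b : ℤ)) = j / b := by
      unfold mu
      rw [if_pos h1, ← Int.natCast_ediv, Int.toNat_natCast]
    have e2 : mu (j : ℤ) = j := by
      unfold mu
      rw [if_pos hk, Int.toNat_natCast]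
    rw [e1, e2]
    exact Nat.div_le_div_left hb (by norm_num)
  · obtain ⟨j, rfl⟩ : ∃ j : ℕ, k = -(j : ℤ) - 1 := ⟨(-k - 1).toNat, by omega⟩
    have e0 : (-(j : ℤ) - 1) / (b : ℤ) = -((j / b : ℕ) : ℤ) - 1 := by
      have h1 := Nat.div_add_mod j b
      have h2 := Nat.mod_lt j (show 0 < b by omega)
      have e3 : (-(j : ℤ) - 1) = (b : ℤ) * (-((j / b : ℕ) : ℤ) - 1) + ((b : ℤ) - 1 - (j % b : ℕ)) := by
        have h3 : ((b * (j / b) + j % b : ℕ) : ℤ) = (j : ℤ) := by rw [h1]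
        push_cast at h3 ⊢
        linarith
      rw [e3, Int.mul_add_ediv_left _ _ (by omega), Int.ediv_eq_zero_of_lt (by omega) (by omega),
        add_zero]
    have e1 : ∀ q : ℕ, mu (-(q : ℤ) - 1) = q := by
      intro q
      unfold mu
      rw [if_neg (by omega)]
      omega
    rw [e0, e1, e1]
    exact Nat.div_le_div_left hb (by norm_num)

theorem mu_le (k : ℤ) : mu k ≤ k.natAbs := by
  unfold mu
  split_ifs <;> omega

/-- every point is reached from `x0` by a word of logarithmic length -/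
theorem short (w0 : Fin N.m) (hp0 : N.p w0 = 1) (hq0 : 2 ≤ N.q w0) :
    ∃ C : ℕ, ∀ (n : ℕ) (x : N.X), N.sz x ≤ 2 ^ n →
      ∃ v : G, W S1 v (C * (n + 1)) ∧ (N.act v).1 x0 = x := by
  obtain ⟨M, hM⟩ := N.exists_move
  have key : ∀ (n : ℕ) (x : N.X), mu (N.cq x).2 < 2 ^ n →
      ∃ v : G, W S1 v ((N.cq x0).2.natAbs + 1 + M + (M + 1 + M) * n) ∧ (N.act v).1 x0 = x := by
    intro n
    induction n with
    | zero =>
      intro x hx
      obtain ⟨i, hi, hi'⟩ := hM x0 (N.cq x).1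
      refine ⟨G.t ^ ((N.cq x).2 - (N.cq x0).2) * G.a ^ i, ?_, ?_⟩
      · refine W_mono (W_mul (W_zpow W_S1_t _) (W_pow W_S1_a _)) ?_
        have h1 : mu (N.cq x).2 = 0 := by omega
        have h2 : (N.cq x).2 = 0 ∨ (N.cq x).2 = -1 := by
          unfold mu at h1
          split_ifs at h1 <;> omega
        have h3 : ((N.cq x).2 - (N.cq x0).2).natAbs ≤ (N.cq x0).2.natAbs + 1 := by
          rcases h2 with h2 | h2 <;> omega
        omega
      · rw [map_mul]
        show (N.act (G.t ^ _)).1 ((N.act (G.a ^ i)).1 x0) = x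
        rw [act_t_zpow, act_a_pow]
        apply N.cq_inj
        rw [cq_T_zpow, hi']
        exact Prod.ext rfl (by simp)
    | succ n ih =>
      intro x hx
      -- the line `w0`
      set k := (N.cq x).2 with hk
      have hr : (k % (N.q w0 : ℤ)).toNat < N.q w0 := by
        have h1 := Int.emod_nonneg k (b := (N.q w0 : ℤ)) (by omega)
        have h2 := Int.emod_lt_of_pos k (b := (N.q w0 : ℤ)) (by omega)
        omega
      let c : Fin (N.q w0) := ⟨(k % (N.q w0 : ℤ)).toNat, hr⟩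
      have hkc : (N.q w0 : ℤ) * (k / (N.q w0 : ℤ)) + ((c : ℕ) : ℤ) = k := by
        have h1 := Int.emod_nonneg k (b := (N.q w0 : ℤ)) (by omega)
        have h2 := Int.emod_add_mul_ediv k (N.q w0 : ℤ)
        show _ + (((k % (N.q w0 : ℤ)).toNat : ℕ) : ℤ) = k
        rw [Int.toNat_of_nonneg h1]
        linarith
      have hcq : N.cq (w0, k) = (⟨w0, c⟩, k / (N.q w0 : ℤ)) := by
        have := coord_apply N.q N.hq w0 c (k / (N.q w0 : ℤ))
        rw [hkc] at this
        exact this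
      have h2n : mu (k / (N.q w0 : ℤ)) < 2 ^ n := by
        have h3 := mu_div k (N.q w0) hq0
        have h4 : mu k / 2 < 2 ^ n := by
          rw [pow_succ] at hx
          omega
        omega
      obtain ⟨v, hv1, hv2⟩ := ih (w0, k) (by rw [hcq]; exact h2n)
      -- apply `s`
      have hS : (N.cq (N.S (w0, k))).2 = k := by
        have h5 : (0 : ℕ) < N.p w0 := N.hp w0
        have h6 := N.S_apply w0 ⟨0, h5⟩ k
        have h7' : (N.p w0 : ℤ) = 1 := by exact_mod_cast hp0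
        have h7 : (N.p w0 : ℤ) * k + (((⟨0, h5⟩ : Fin (N.p w0)) : ℕ) : ℤ) = k := by
          rw [h7']; simp
        rw [h7] at h6
        rw [h6]
        have h8 := coord_apply N.q N.hq (N.e ⟨w0, ⟨0, h5⟩⟩).1 (N.e ⟨w0, ⟨0, h5⟩⟩).2 k
        show (coord N.q N.hq _).2 = k
        rw [h8]
      obtain ⟨i, hi, hi'⟩ := hM (N.S (w0, k)) (N.cq x).1
      refine ⟨G.a ^ i * (G.s * v), ?_, ?_⟩
      · refine W_mono (W_mul (W_pow W_S1_a i) (W_mul W_S1_s hv1)) ?_
        have : (M + 1 + M) * (n + 1) = (M + 1 + M) * n + (M + 1 + M) := by ring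
        omega
      · rw [map_mul, map_mul]
        show (N.act (G.a ^ i)).1 ((N.act G.s).1 ((N.act v).1 x0)) = x
        rw [act_a_pow, act_s, hv2]
        apply N.cq_inj
        show N.cq ((N.A ^ i) (N.S (w0, k))) = N.cq x
        rw [hi', hS]
  refine ⟨(N.cq x0).2.natAbs + 1 + M + (M + 1 + M), fun n x hx => ?_⟩
  obtain ⟨v, hv1, hv2⟩ := key n x (by
    have h1 := mu_le (N.cq x).2
    have h2 := coord_snd_le N.q N.hq x
    have h3 : (N.cq x).2.natAbs ≤ x.2.natAbs := h2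
    unfold sz at hx
    omega)
  refine ⟨v, W_mono hv1 ?_, hv2⟩
  have e1 : ((N.cq x0).2.natAbs + 1 + M) * 1 ≤ ((N.cq x0).2.natAbs + 1 + M) * (n + 1) :=
    Nat.mul_le_mul_left _ (by omega)
  have e2 : ((N.cq x0).2.natAbs + 1 + M + (M + 1 + M)) * (n + 1) =
      ((N.cq x0).2.natAbs + 1 + M) * (n + 1) + (M + 1 + M) * n + (M + 1 + M) := by ring
  omega

/-! ### the weighted action -/

/-- the `t'`-index of a point -/
def kap (x : N.X) : ℤ := (coord N.p N.hp x).2

theorem kap_T' (x : N.X) : N.kap (N.T' x) = N.kap x + 1 := by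
  have := coord_add N.p N.hp x.1 x.2 1
  rw [mul_one] at this
  show (coord N.p N.hp (x.1, x.2 + N.p x.1)).2 = _
  rw [this]
  rfl

theorem kap_natAbs (x : N.X) : (N.kap x).natAbs ≤ x.2.natAbs := coord_snd_le N.p N.hp x

/-- points with a counter -/
abbrev Cn : Type := N.X × ℤ

/-- a permutation of the points not touching the counter -/
def ext (g : Equiv.Perm N.X) : Equiv.Perm N.Cn := Equiv.prodCongr g (Equiv.refl ℤ)

/-- the weighted `s` -/
def sw : Equiv.Perm N.Cn where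
  toFun y := (N.S y.1, y.2 - N.kap y.1)
  invFun y := (N.S⁻¹ y.1, y.2 + N.kap (N.S⁻¹ y.1))
  left_inv y := by simp
  right_inv y := by simp

theorem sw_apply (y : N.Cn) : N.sw y = (N.S y.1, y.2 - N.kap y.1) := rfl

theorem ext_apply (g : Equiv.Perm N.X) (y : N.Cn) : N.ext g y = (g y.1, y.2) := rfl

/-- the weighted `t'` -/
def tw : Equiv.Perm N.Cn := Equiv.prodCongr N.T' (Equiv.addRight 1)

theorem tw_apply (y : N.Cn) : N.tw y = (N.T' y.1, y.2 + 1) := rfl

theorem sw_tw : N.sw * N.tw = N.ext N.T * N.sw := by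
  refine Equiv.ext fun y => ?_
  rw [Equiv.Perm.mul_apply, Equiv.Perm.mul_apply, sw_apply, tw_apply, sw_apply, ext_apply]
  refine Prod.ext ?_ ?_
  · show N.S (N.T' y.1) = N.T (N.S y.1)
    rw [← Equiv.Perm.mul_apply, N.S_T', Equiv.Perm.mul_apply]
  · simp only
    rw [kap_T']
    ring

theorem sw_conj : (N.sw)⁻¹ * N.ext N.T * N.sw = N.tw := by
  rw [mul_assoc, ← N.sw_tw, inv_mul_cancel_left]

theorem ext_tw : Commute (N.ext N.T) N.tw := by
  refine Equiv.ext fun y => ?_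
  rw [Equiv.Perm.mul_apply, Equiv.Perm.mul_apply, tw_apply, ext_apply, ext_apply, tw_apply]
  refine Prod.ext ?_ rfl
  show N.T (N.T' y.1) = N.T' (N.T y.1)
  rw [← Equiv.Perm.mul_apply, N.T_T', Equiv.Perm.mul_apply]

theorem exists_actw : ∃ F : G →* Equiv.Perm N.Cn, F G.t = N.ext N.T ∧ F G.s = N.sw ∧
    F G.z = 1 ∧ F G.a = N.ext N.A := by
  refine G.exists_hom _ _ _ _ ?_ (Commute.one_right _) ?_
  · rw [sw_conj]; exact N.ext_tw
  · refine Equiv.ext fun y => ?_
    rw [Equiv.Perm.mul_apply, Equiv.Perm.mul_apply, ext_apply, ext_apply, ext_apply, ext_apply]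
    refine Prod.ext ?_ rfl
    show N.T (N.A y.1) = N.A (N.T y.1)
    rw [← Equiv.Perm.mul_apply, N.T_A.eq, Equiv.Perm.mul_apply]

/-- the weighted action -/
noncomputable def actw : G →* Equiv.Perm N.Cn := N.exists_actw.choose

theorem actw_t : N.actw G.t = N.ext N.T := N.exists_actw.choose_spec.1
theorem actw_s : N.actw G.s = N.sw := N.exists_actw.choose_spec.2.1
theorem actw_z : N.actw G.z = 1 := N.exists_actw.choose_spec.2.2.1
theorem actw_a : N.actw G.a = N.ext N.A := N.exists_actw.choose_spec.2.2.2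

theorem actw_t' : N.actw G.t' = N.tw := by
  have h : G.t' = G.s⁻¹ * G.t * G.s := by rw [mul_assoc, ← G.s_t', inv_mul_cancel_left]
  rw [h, map_mul, map_mul, map_inv, actw_s, actw_t, sw_conj]

/-- the elements for which the weighted action lies over the action, equivariantly in the
counter -/
noncomputable def Wt : Subgroup G where
  carrier := {g | ∃ ρ : N.X → ℤ, ∀ x n, N.actw g (x, n) = ((N.act g).1 x, n + ρ x)}
  mul_mem' := by
    rintro g h ⟨ρ, hρ⟩ ⟨σ, hσ⟩
    refine ⟨fun x => σ x + ρ ((N.act h).1 x), fun x n => ?_⟩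
    rw [map_mul, Equiv.Perm.mul_apply, hσ, hρ, map_mul]
    exact Prod.ext rfl (by simp only; ring)
  one_mem' := ⟨fun _ => 0, fun x n => by rw [map_one, map_one]; simp⟩
  inv_mem' := by
    rintro g ⟨ρ, hρ⟩
    refine ⟨fun x => -ρ ((N.act g⁻¹).1 x), fun x n => ?_⟩
    rw [map_inv, Equiv.Perm.inv_eq_iff_eq, hρ]
    refine Prod.ext ?_ ?_
    · rw [act_inv_fst]
      exact (Equiv.apply_symm_apply _ _).symm
    · simp

theorem Wt_top (g : G) : g ∈ N.Wt := by
  have h : (⊤ : Subgroup G) ≤ N.Wt := by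
    rw [← closure_gen, Subgroup.closure_le]
    rintro y (rfl | rfl | rfl | rfl)
    · exact ⟨fun _ => 0, fun x n => by rw [actw_z, act_z]; simp⟩
    · exact ⟨fun _ => 0, fun x n => by rw [actw_t, act_t, ext_apply]; simp⟩
    · exact ⟨fun x => -N.kap x, fun x n => by rw [actw_s, act_s, sw_apply]; rfl⟩
    · exact ⟨fun _ => 0, fun x n => by rw [actw_a, act_a, ext_apply]; simp⟩
  exact h trivial

/-- the weight of `g` at `x` -/
noncomputable def wt (g : G) (x : N.X) : ℤ := (N.actw g (x, 0)).2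

theorem actw_eq (g : G) (x : N.X) (n : ℤ) :
    N.actw g (x, n) = ((N.act g).1 x, n + N.wt g x) := by
  obtain ⟨ρ, hρ⟩ := N.Wt_top g
  have : N.wt g x = ρ x := by rw [wt, hρ]; simp
  rw [this, hρ]

theorem wt_mul (g h : G) (x : N.X) : N.wt (g * h) x = N.wt h x + N.wt g ((N.act h).1 x) := by
  have h1 : N.actw (g * h) (x, 0) = N.actw g (N.actw h (x, 0)) := by
    rw [map_mul, Equiv.Perm.mul_apply]
  rw [wt, h1, actw_eq, actw_eq]
  simp

theorem wt_inv (g : G) (x : N.X) : N.wt g⁻¹ x = -N.wt g ((N.act g⁻¹).1 x) := by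
  have h := N.wt_mul g g⁻¹ x
  have h1 : N.wt (g * g⁻¹) x = 0 := by
    rw [mul_inv_cancel, wt, map_one]
    rfl
  rw [h1] at h
  linarith

theorem wt_t (x : N.X) : N.wt G.t x = 0 := by rw [wt, actw_t]; rfl
theorem wt_a (x : N.X) : N.wt G.a x = 0 := by rw [wt, actw_a]; rfl
theorem wt_z (x : N.X) : N.wt G.z x = 0 := by rw [wt, actw_z]; rfl
theorem wt_s (x : N.X) : N.wt G.s x = -N.kap x := by
  rw [wt, actw_s, sw_apply]
  simp
theorem wt_t' (x : N.X) : N.wt G.t' x = 1 := by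
  rw [wt, actw_t', tw_apply]
  simp

/-- weight bound for letters -/
theorem wt_letter {y : G} (hy : y ∈ S1 ∨ y⁻¹ ∈ S1) (x : N.X) :
    (N.wt y x).natAbs ≤ N.D * N.sz x := by
  have hs : ∀ y ∈ S1, ∀ x, (N.wt y x).natAbs ≤ N.sz x := by
    intro y hy x
    rcases hy with rfl | rfl | rfl
    · rw [wt_t]; exact Nat.zero_le _
    · rw [wt_s, Int.natAbs_neg]
      exact (N.kap_natAbs x).trans (Nat.le_succ _)
    · rw [wt_a]; exact Nat.zero_le _
  rcases hy with hy | hy
  · exact (hs y hy x).trans (Nat.le_mul_of_pos_left _ (by have := N.one_le_D; omega))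
  · have h := N.wt_inv y⁻¹ x
    rw [inv_inv] at h
    rw [h, Int.natAbs_neg]
    exact (hs _ hy _).trans (N.sz_letter (Or.inr hy) x)

/-- weight bound for words -/
theorem wt_le {g : G} {n : ℕ} (hg : W S1 g n) :
    ∀ x, (N.wt g x).natAbs ≤ n * (N.D ^ n * N.sz x) := by
  have hD := N.one_le_D
  refine (W_induction (P := fun g n => (∀ x, N.sz ((N.act g).1 x) ≤ N.D ^ n * N.sz x) ∧
    (∀ x, (N.wt g x).natAbs ≤ n * (N.D ^ n * N.sz x))) ?_ ?_ ?_ hg).2
  · refine ⟨fun x => by simp, fun x => ?_⟩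
    rw [wt, map_one]
    simp
  · intro y g n hy ⟨h1, h2⟩
    have h3 : ∀ x, N.sz ((N.act (y * g)).1 x) ≤ N.D ^ (n + 1) * N.sz x := by
      intro x
      have e : (N.act (y * g)).1 x = (N.act y).1 ((N.act g).1 x) := by rw [map_mul]; rfl
      rw [e]
      refine (N.sz_letter hy _).trans ?_
      calc _ ≤ N.D * (N.D ^ n * N.sz x) := Nat.mul_le_mul_left _ (h1 x)
        _ = _ := by ring
    refine ⟨h3, fun x => ?_⟩
    rw [wt_mul]
    have e0 := Int.natAbs_add_le (N.wt g x) (N.wt y ((N.act g).1 x))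
    have e1 : (N.wt y ((N.act g).1 x)).natAbs ≤ N.D ^ (n + 1) * N.sz x := by
      calc _ ≤ N.D * N.sz ((N.act g).1 x) := N.wt_letter hy _
        _ ≤ N.D * (N.D ^ n * N.sz x) := Nat.mul_le_mul_left _ (h1 x)
        _ = _ := by ring
    have e2 : N.D ^ n * N.sz x ≤ N.D ^ (n + 1) * N.sz x :=
      Nat.mul_le_mul_right _ (Nat.pow_le_pow_right hD (Nat.le_succ n))
    have e3 : n * (N.D ^ n * N.sz x) ≤ n * (N.D ^ (n + 1) * N.sz x) := Nat.mul_le_mul_left _ e2
    have e4 := h2 x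
    calc _ ≤ (N.wt g x).natAbs + (N.wt y ((N.act g).1 x)).natAbs := e0
      _ ≤ n * (N.D ^ (n + 1) * N.sz x) + N.D ^ (n + 1) * N.sz x :=
        Nat.add_le_add (e4.trans e3) e1
      _ = _ := by ring
  · intro g m n hmn ⟨h1, h2⟩
    have e2 : ∀ x, N.D ^ m * N.sz x ≤ N.D ^ n * N.sz x := fun x =>
      Nat.mul_le_mul_right _ (Nat.pow_le_pow_right hD hmn)
    exact ⟨fun x => (h1 x).trans (e2 x), fun x => (h2 x).trans (Nat.mul_le_mul hmn (e2 x))⟩

/-- elements of weight zero -/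
noncomputable def Wz : Subgroup G where
  carrier := {g | ∀ y, N.wt g y = 0}
  mul_mem' := by
    intro g h hg hh y
    rw [wt_mul, hg, hh, add_zero]
  one_mem' := by
    intro y
    rw [wt, map_one]
    rfl
  inv_mem' := by
    intro g hg y
    rw [wt_inv, hg, neg_zero]

theorem wt_rep (x y : N.X) : N.wt (N.rep x0 x) y = 0 := by
  have ht : G.t ∈ N.Wz := fun y => N.wt_t y
  have ha : G.a ∈ N.Wz := fun y => N.wt_a y
  have h : N.rep x0 x ∈ N.Wz := mul_mem (zpow_mem ht _) (pow_mem ha _)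
  exact h y

theorem wt_conj (g : G) (x y : N.X) (h : (N.act g).1 x = y) :
    N.wt ((N.rep x0 y)⁻¹ * g * N.rep x0 x) x0 = N.wt g x := by
  rw [wt_mul, wt_rep, act_rep_fst, wt_mul, h, wt_inv, wt_rep]
  ring

theorem wt_Y1 {y : G} (hy : y ∈ N.Y1 x0) : (N.wt y x0).natAbs ≤ 1 := by
  rcases hy with (⟨i, rfl⟩ | ⟨i, rfl⟩) | ⟨ω, rfl⟩
  · rw [gS, N.wt_conj x0 G.s _ _ (by rw [act_s]), wt_s]
    have : N.kap (i.1, ((i.2 : ℕ) : ℤ)) = 0 := by
      have h := coord_apply N.p N.hp i.1 i.2 0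
      rw [mul_zero, zero_add] at h
      show (coord N.p N.hp _).2 = 0
      rw [h]
    rw [this]
    simp
  · rw [gT, N.wt_conj x0 G.t' _ _ (by rw [act_t']), wt_t']
    simp
  · obtain ⟨x, hx⟩ : ∃ x : N.X, (N.cq x).1 = ω :=
      ⟨(coord N.q N.hq).symm (ω, 0), by
        show (coord N.q N.hq ((coord N.q N.hq).symm (ω, 0))).1 = ω
        rw [Equiv.apply_symm_apply]⟩
    rw [← hx, ← coc_a, coc, N.wt_conj x0 G.a _ _ rfl, wt_a]
    simp

/-! ### the lamp -/

/-- the orbit of the weighted `s` -/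
def orb : Set N.Cn := {y | ∃ i : ℤ, (N.sw ^ i) (x0, 0) = y}

theorem sw_orb (y : N.Cn) : N.sw y ∈ N.orb x0 ↔ y ∈ N.orb x0 := by
  constructor
  · rintro ⟨i, hi⟩
    refine ⟨i - 1, ?_⟩
    apply N.sw.injective
    rw [← hi, ← Equiv.Perm.mul_apply, ← zpow_one_add]
    congr 2
    ring
  · rintro ⟨i, rfl⟩
    exact ⟨1 + i, by rw [zpow_one_add]; rfl⟩

open Classical in
/-- the action of `z` -/
noncomputable def zw : Equiv.Perm (N.Cn × Bool) :=
  Function.Involutive.toPerm (fun u => (u.1, xor u.2 (decide (u.1 ∈ N.orb x0))))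
    (fun u => by
      refine Prod.ext rfl ?_
      simp)

open Classical in
theorem zw_apply (u : N.Cn × Bool) :
    N.zw x0 u = (u.1, xor u.2 (decide (u.1 ∈ N.orb x0))) := rfl

/-- lifting permutations -/
def lw : Equiv.Perm N.Cn →* Equiv.Perm (N.Cn × Bool) where
  toFun g := Equiv.prodCongr g (Equiv.refl Bool)
  map_one' := rfl
  map_mul' _ _ := rfl

theorem lw_apply (g : Equiv.Perm N.Cn) (u : N.Cn × Bool) : N.lw g u = (g u.1, u.2) := rfl

theorem s_zw : Commute (N.lw N.sw) (N.zw x0) := by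
  classical
  refine Equiv.ext fun u => ?_
  rw [Equiv.Perm.mul_apply, Equiv.Perm.mul_apply, lw_apply, zw_apply, zw_apply, lw_apply]
  refine Prod.ext rfl ?_
  simp only [sw_orb]

theorem exists_lampw : ∃ F : G →* Equiv.Perm (N.Cn × Bool), F G.t = N.lw (N.ext N.T) ∧
    F G.s = N.lw N.sw ∧ F G.z = N.zw x0 ∧ F G.a = N.lw (N.ext N.A) := by
  refine G.exists_hom _ _ _ _ ?_ (N.s_zw x0) ?_
  · have h := N.ext_tw.map N.lw
    rw [← N.sw_conj, map_mul, map_mul, map_inv] at h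
    exact h
  · have h : Commute (N.ext N.T) (N.ext N.A) := by
      refine Equiv.ext fun y => ?_
      rw [Equiv.Perm.mul_apply, Equiv.Perm.mul_apply, ext_apply, ext_apply, ext_apply, ext_apply]
      refine Prod.ext ?_ rfl
      show N.T (N.A y.1) = N.A (N.T y.1)
      rw [← Equiv.Perm.mul_apply, N.T_A.eq, Equiv.Perm.mul_apply]
    exact h.map N.lw

/-- the action with the lamp -/
noncomputable def lampw : G →* Equiv.Perm (N.Cn × Bool) := (N.exists_lampw x0).choose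

theorem lampw_t : N.lampw x0 G.t = N.lw (N.ext N.T) := (N.exists_lampw x0).choose_spec.1
theorem lampw_s : N.lampw x0 G.s = N.lw N.sw := (N.exists_lampw x0).choose_spec.2.1
theorem lampw_z : N.lampw x0 G.z = N.zw x0 := (N.exists_lampw x0).choose_spec.2.2.1
theorem lampw_a : N.lampw x0 G.a = N.lw (N.ext N.A) := (N.exists_lampw x0).choose_spec.2.2.2

theorem lampw_G1 {g : G} (hg : g ∈ G1) : N.lampw x0 g = N.lw (N.actw g) := by
  have h : G1 ≤ (N.lampw x0).eqLocus (N.lw.comp N.actw) := by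
    rw [G1, Subgroup.closure_le]
    rintro y (rfl | rfl | rfl)
    · show N.lampw x0 G.t = N.lw (N.actw G.t)
      rw [lampw_t, actw_t]
    · show N.lampw x0 G.s = N.lw (N.actw G.s)
      rw [lampw_s, actw_s]
    · show N.lampw x0 G.a = N.lw (N.actw G.a)
      rw [lampw_a, actw_a]
  exact h hg

theorem sw_zpow (i : ℤ) (x : N.X) (n : ℤ) :
    (N.sw ^ i) (x, n) = ((N.S ^ i) x, n + N.wt (G.s ^ i) x) := by
  have h := N.actw_eq (G.s ^ i) x n
  rwa [map_zpow, actw_s, act_s_zpow] at h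

theorem low_aux_w (hinf : ∀ k : ℤ, k ≠ 0 → (N.S ^ k) x0 ≠ x0) (n : ℤ) {g : G} {L : ℕ}
    (hg : W (insert G.z (N.Y1 x0)) g L) :
    (N.lampw x0 g ((x0, n), false)).1.1 = x0 ∧
      ((N.lampw x0 g ((x0, n), false)).1.2 - n).natAbs ≤ L ∧
      ((N.lampw x0 g ((x0, n), false)).2 = true → n.natAbs ≤ L) := by
  classical
  refine W_induction (P := fun g L => (N.lampw x0 g ((x0, n), false)).1.1 = x0 ∧
      ((N.lampw x0 g ((x0, n), false)).1.2 - n).natAbs ≤ L ∧
      ((N.lampw x0 g ((x0, n), false)).2 = true → n.natAbs ≤ L)) ?_ ?_ ?_ hg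
  · simp
  · intro y g L hy hP
    rw [map_mul, Equiv.Perm.mul_apply]
    generalize N.lampw x0 g ((x0, n), false) = st at hP ⊢
    obtain ⟨⟨x, k⟩, b⟩ := st
    obtain ⟨h1, h2, h3⟩ := hP
    simp only at h1 h2 h3
    subst h1
    have hY : ∀ y : G, y ∈ G1 → (N.act y).1 x = x → (N.wt y x).natAbs ≤ 1 →
        (N.lampw x y ((x, k), b)).1.1 = x ∧ ((N.lampw x y ((x, k), b)).1.2 - n).natAbs ≤ L + 1 ∧
        ((N.lampw x y ((x, k), b)).2 = true → n.natAbs ≤ L + 1) := by
      intro y e1 e2 e3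
      rw [N.lampw_G1 x e1, lw_apply]
      simp only
      rw [actw_eq, e2]
      refine ⟨rfl, ?_, fun h => ?_⟩
      · simp only
        omega
      · have := h3 h
        omega
    have hz : N.lampw x G.z ((x, k), b) = ((x, k), xor b (decide ((x, k) ∈ N.orb x))) := by
      rw [lampw_z, zw_apply]
    have hz' : (N.lampw x G.z ((x, k), b)).1.1 = x ∧
        ((N.lampw x G.z ((x, k), b)).1.2 - n).natAbs ≤ L + 1 ∧
        ((N.lampw x G.z ((x, k), b)).2 = true → n.natAbs ≤ L + 1) := by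
      rw [hz]
      refine ⟨rfl, by simp only; omega, fun h => ?_⟩
      simp only at h
      by_cases hb : b = true
      · have := h3 hb
        omega
      · have hx : (x, k) ∈ N.orb x := by simpa [hb] using h
        obtain ⟨i, hi⟩ := hx
        rw [sw_zpow] at hi
        obtain ⟨e1, e2⟩ := Prod.mk.inj hi
        have hi0 : i = 0 := by
          by_contra hne
          exact hinf i hne e1
        subst hi0
        have e3 : N.wt (G.s ^ (0 : ℤ)) x = 0 := by
          rw [zpow_zero, wt, map_one]; rfl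
        rw [e3] at e2
        omega
    have hzinv : N.lampw x (G.z)⁻¹ = N.lampw x G.z := by
      rw [map_inv, lampw_z]
      rfl
    rcases hy with (hy | hy) | (hy | hy)
    · rw [hy]; exact hz'
    · exact hY y (N.Y1_subset x hy) (N.act_Y1_fst x hy) (N.wt_Y1 x hy)
    · have : y = G.z⁻¹ := by rw [← hy, inv_inv]
      rw [this, hzinv]
      exact hz'
    · have e1 : y ∈ G1 := by
        have := inv_mem (N.Y1_subset x hy)
        rwa [inv_inv] at this
      have e2 : (N.act y).1 x = x := by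
        have h4 := N.act_Y1_fst x hy
        rw [act_inv_fst, Equiv.Perm.inv_eq_iff_eq] at h4
        exact h4.symm
      have e3 : (N.wt y x).natAbs ≤ 1 := by
        have h4 := N.wt_inv y x
        have h5 := N.act_Y1_fst x hy
        rw [h5] at h4
        have h6 := N.wt_Y1 x hy
        rw [h4, Int.natAbs_neg] at h6
        exact h6
      exact hY y e1 e2 e3
  · intro g m k hmk ⟨h1, h2, h3⟩
    exact ⟨h1, h2.trans hmk, fun h => (h3 h).trans hmk⟩

/-- **Weighted lower bound** for a lamp element. -/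
theorem lowW (hinf : ∀ k : ℤ, k ≠ 0 → (N.S ^ k) x0 ≠ x0) {v : G} (hv : v ∈ G1) (K : ℤ)
    (hvK : (N.act v).1 x0 = (N.S ^ K) x0) {L : ℕ}
    (hL : W (insert G.z (N.Y1 x0)) (v⁻¹ * G.z * v) L) :
    (N.wt (G.s ^ K) x0 - N.wt v x0).natAbs ≤ L := by
  classical
  have h := N.low_aux_w x0 hinf (N.wt (G.s ^ K) x0 - N.wt v x0) hL
  refine h.2.2 ?_
  rw [map_mul, map_mul, Equiv.Perm.mul_apply, Equiv.Perm.mul_apply, N.lampw_G1 x0 hv, lw_apply]
  simp only
  rw [actw_eq, hvK, lampw_z, zw_apply]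
  simp only
  have h1 : ((N.S ^ K) x0, N.wt (G.s ^ K) x0 - N.wt v x0 + N.wt v x0) ∈ N.orb x0 := by
    refine ⟨K, ?_⟩
    rw [sw_zpow]
    refine Prod.ext rfl ?_
    simp
  rw [decide_eq_true h1]
  rw [N.lampw_G1 x0 (inv_mem hv), lw_apply]
  rfl

/-- weight bound for elements of the subgroup -/
theorem wt_H {g : G} {L : ℕ} (hg : W (insert G.z (N.Y1 x0)) g L) :
    (N.act g).1 x0 = x0 ∧ (N.wt g x0).natAbs ≤ L := by
  refine W_induction (P := fun g L => (N.act g).1 x0 = x0 ∧ (N.wt g x0).natAbs ≤ L) ?_ ?_ ?_ hg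
  · refine ⟨by rw [map_one]; rfl, ?_⟩
    rw [wt, map_one]
    simp
  · intro y g L hy ⟨h1, h2⟩
    have hy' : (N.act y).1 x0 = x0 ∧ (N.wt y x0).natAbs ≤ 1 := by
      have hpos : ∀ y ∈ insert G.z (N.Y1 x0), (N.act y).1 x0 = x0 ∧ (N.wt y x0).natAbs ≤ 1 := by
        rintro y (rfl | hy)
        · rw [act_z, wt_z]
          exact ⟨rfl, by simp⟩
        · exact ⟨N.act_Y1_fst x0 hy, N.wt_Y1 x0 hy⟩
      rcases hy with hy | hy
      · exact hpos y hy
      · obtain ⟨e1, e2⟩ := hpos _ hy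
        have e3 : (N.act y).1 x0 = x0 := by
          rw [act_inv_fst, Equiv.Perm.inv_eq_iff_eq] at e1
          exact e1.symm
        refine ⟨e3, ?_⟩
        have e4 := N.wt_inv y x0
        rw [e1] at e4
        rw [e4, Int.natAbs_neg] at e2
        exact e2
    have e : (N.act (y * g)).1 x0 = (N.act y).1 ((N.act g).1 x0) := by rw [map_mul]; rfl
    refine ⟨by rw [e, h1, hy'.1], ?_⟩
    rw [wt_mul, h1]
    have := Int.natAbs_add_le (N.wt g x0) (N.wt y x0)
    omega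
  · intro g m n hmn ⟨h1, h2⟩
    exact ⟨h1, h2.trans hmn⟩

/-- elements of `G1` fixing the base point are in the subgroup -/
theorem mem_of_fix {g : G} (hg : g ∈ G1) (hx : (N.act g).1 x0 = x0) :
    g ∈ Subgroup.closure (N.Y1 x0) := by
  obtain ⟨n, hn⟩ := exists_W hg
  have h := (N.comb x0 hn).2 x0
  rw [N.coc_fix x0 hx] at h
  exact W_mem_closure h

theorem lamp_mem {v : G} (hv : v ∈ G1) (K : ℤ) (hvK : (N.act v).1 x0 = (N.S ^ K) x0) :
    v⁻¹ * G.z * v ∈ Subgroup.closure (insert G.z (N.Y1 x0)) := by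
  have h1 : v⁻¹ * G.s ^ K ∈ Subgroup.closure (N.Y1 x0) := by
    refine N.mem_of_fix x0 (mul_mem (inv_mem hv) (zpow_mem s_mem _)) ?_
    rw [map_mul]
    show (N.act v⁻¹).1 ((N.act (G.s ^ K)).1 x0) = x0
    rw [act_s_zpow, ← hvK, act_inv_fst]
    exact Equiv.symm_apply_apply _ _
  have h2 := Subgroup.closure_mono (Set.subset_insert G.z (N.Y1 x0)) h1
  have h3 : G.z ∈ Subgroup.closure (insert G.z (N.Y1 x0)) :=
    Subgroup.subset_closure (Set.mem_insert _ _)
  have h4 := mul_mem (mul_mem h2 h3) (inv_mem h2)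
  convert h4 using 1
  have h5 : Commute (G.s ^ K) G.z := (show Commute G.s G.z from G.s_z).zpow_left K
  calc v⁻¹ * G.z * v = v⁻¹ * (G.z * G.s ^ K) * (G.s ^ K)⁻¹ * v := by group
    _ = v⁻¹ * (G.s ^ K * G.z) * (G.s ^ K)⁻¹ * v := by rw [h5.eq]
    _ = _ := by group

theorem wt_s_pow (K : ℕ) (x : N.X) :
    N.wt (G.s ^ (K : ℤ)) x = -∑ i ∈ Finset.range K, N.kap ((N.S ^ i) x) := by
  induction K with
  | zero =>
    rw [Nat.cast_zero, zpow_zero, wt, map_one]
    simp
  | succ n ih =>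
    have e : G.s ^ ((n + 1 : ℕ) : ℤ) = G.s * G.s ^ (n : ℤ) := by
      rw [zpow_natCast, zpow_natCast, pow_succ']
    rw [e, wt_mul, ih, act_s_zpow, wt_s, Finset.sum_range_succ, zpow_natCast]
    ring

end Net

end Pool.Agent.DIST
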