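import Pool.Agent.DIST.UpHNN

/-!
# The upper bound for the length in `⟨Y1, z⟩`
-/

set_option autoImplicit false

namespace Pool.Agent.DIST

open Pool.Agent.helper12.FD

namespace Net

variable (N : Net) (x0 : N.X)

theorem act_Y1_fst {y : G} (hy : y ∈ N.Y1 x0) : (N.act y).1 x0 = x0 := by
  rcases hy with hy | ⟨ω, rfl⟩
  · exact N.act_Y_fst x0 hy
  · obtain ⟨x, hx⟩ : ∃ x : N.X, (N.cq x).1 = ω :=
      ⟨(coord N.q N.hq).symm (ω, 0), by
        show (coord N.q N.hq ((coord N.q N.hq).symm (ω, 0))).1 = ω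
        rw [Equiv.apply_symm_apply]⟩
    rw [← hx, ← coc_a, coc, map_mul, map_mul, map_inv, act_a]
    show ((N.act _).1)⁻¹ (N.A ((N.act _).1 x0)) = x0
    rw [act_rep_fst, Equiv.Perm.inv_eq_iff_eq]
    show N.A x = (N.act (N.rep x0 (N.A x))).1 x0
    rw [act_rep_fst]

theorem act_Y1_snd {y : G} (hy : y ∈ N.Y1 x0) :
    (Multiplicative.toAdd (N.act y).2).natAbs ≤ 1 := by
  rcases hy with hy | ⟨ω, rfl⟩
  · exact N.act_Y_snd x0 hy
  · rw [gA, map_mul, map_mul, map_inv, map_pow, map_pow, act_a]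
    simp

theorem rep_mem (x : N.X) : N.rep x0 x ∈ G1 :=
  mul_mem (zpow_mem t_mem _) (pow_mem a_mem _)

theorem Y1_subset {y : G} (hy : y ∈ N.Y1 x0) : y ∈ G1 := by
  have ht' : G.t' ∈ G1 := by
    have e : G.s⁻¹ * G.t * G.s = G.t' := by rw [mul_assoc, ← G.s_t', inv_mul_cancel_left]
    rw [← e]
    exact mul_mem (mul_mem (inv_mem s_mem) t_mem) s_mem
  rcases hy with (⟨i, rfl⟩ | ⟨i, rfl⟩) | ⟨ω, rfl⟩
  · exact mul_mem (mul_mem (inv_mem (N.rep_mem x0 _)) s_mem) (N.rep_mem x0 _)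
  · exact mul_mem (mul_mem (inv_mem (N.rep_mem x0 _)) ht') (N.rep_mem x0 _)
  · exact mul_mem (mul_mem (inv_mem (pow_mem a_mem _)) a_mem) (pow_mem a_mem _)

/-- the stabiliser of the base point in `G1` -/
noncomputable def St : Subgroup G1 where
  carrier := {g | (N.act (g : G)).1 x0 = x0}
  mul_mem' := by
    intro g h hg hh
    show (N.act ((g : G) * (h : G))).1 x0 = x0
    rw [map_mul]
    show (N.act (g : G)).1 ((N.act (h : G)).1 x0) = x0
    rw [show (N.act (h : G)).1 x0 = x0 from hh]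
    exact hg
  one_mem' := by
    show (N.act 1).1 x0 = x0
    rw [map_one]
    rfl
  inv_mem' := by
    intro g hg
    show (N.act ((g : G)⁻¹)).1 x0 = x0
    rw [act_inv_fst, Equiv.Perm.inv_eq_iff_eq]
    exact hg.symm

theorem mem_St {g : G1} : g ∈ N.St x0 ↔ (N.act (g : G)).1 x0 = x0 := Iff.rfl

theorem coc_fix {g : G} (hg : (N.act g).1 x0 = x0) : N.coc x0 g x0 = g := by
  rw [coc, hg, rep_base]
  simp

/-- one block of the normal form -/
theorem block {g h : G1} {K k : ℤ} (hh : h ∈ N.St x0)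
    (e : (h : G) = G.s ^ K * g * G.s ^ k) :
    (N.act (g : G)).1 ((N.S ^ k) x0) = (N.S ^ (-K)) x0 ∧
    W (N.Y1 x0) (h : G) (N.cost x0 (-K) + (wl g * (N.D ^ wl g * N.sz ((N.S ^ k) x0))) +
      N.cost x0 k) := by
  have h0 : (N.act (g : G)).1 ((N.S ^ k) x0) = (N.S ^ (-K)) x0 := by
    have h1 : (N.act (h : G)).1 x0 = x0 := hh
    rw [e, map_mul, map_mul] at h1
    have h2 : (N.act (G.s ^ K)).1 ((N.act (g : G)).1 ((N.act (G.s ^ k)).1 x0)) = x0 := h1
    rw [act_s_zpow, act_s_zpow] at h2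
    rw [zpow_neg, Equiv.Perm.eq_inv_iff_eq]
    exact h2
  refine ⟨h0, ?_⟩
  have h1 : N.coc x0 (h : G) x0 = (h : G) := N.coc_fix x0 hh
  have h2 : N.coc x0 (G.s ^ K * g * G.s ^ k) x0 =
      N.coc x0 (G.s ^ K) ((N.S ^ (-K)) x0) * N.coc x0 (g : G) ((N.S ^ k) x0) *
        N.coc x0 (G.s ^ k) x0 := by
    rw [coc_mul, coc_mul, act_s_zpow, h0]
  have h3 : W (N.Y1 x0) (N.coc x0 (G.s ^ K) ((N.S ^ (-K)) x0)) (N.cost x0 (-K)) := by
    have h4 := W_inv (N.W_coc_zpow x0 (-K))
    have h5 := N.coc_inv x0 (G.s ^ (-K)) ((N.S ^ (-K)) x0)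
    have h6 : (G.s ^ (-K))⁻¹ = G.s ^ K := by rw [zpow_neg, inv_inv]
    have h7 : (N.act (G.s ^ (-K))⁻¹).1 ((N.S ^ (-K)) x0) = x0 := by
      rw [act_inv_fst, act_s_zpow]
      exact Equiv.symm_apply_apply _ _
    rw [h7, h6] at h5
    rw [h5]
    exact h4
  rw [← h1, e, h2]
  exact W_mul (W_mul h3 ((N.comb x0 (W_wl g)).2 _)) (N.W_coc_zpow x0 k)

theorem upper_aux (n Cst : ℕ)
    (hC : ∀ K : ℤ, N.sz ((N.S ^ K) x0) ≤ N.D ^ n * N.sz x0 → N.cost x0 K ≤ Cst)
    (l : List (ℤˣ × G1)) : ∀ (g : G1) (m : List (ℤˣ × G1)) (h : G1) (K : ℤ) (L : ℕ),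
    Red l → Red m → h ∈ N.St x0 → (∀ x ∈ m, x.2 ∈ N.St x0) →
    G.s ^ K * wprod g l = wprod h m → N.sz ((N.S ^ (-K)) x0) ≤ N.D ^ L * N.sz x0 →
    wl g + tot wl l + L ≤ n →
    W (insert G.z (N.Y1 x0)) (wprod h m)
      ((l.length + 1) * (2 * Cst + n * (N.D ^ n * (N.D ^ n * N.sz x0))) + l.length) := by
  have hD := N.one_le_D
  -- the bound for one block
  have hB : ∀ (g : G1) (K k : ℤ) (L : ℕ), wl g + L ≤ n →
      N.sz ((N.S ^ (-K)) x0) ≤ N.D ^ L * N.sz x0 →
      (N.act (g : G)).1 ((N.S ^ k) x0) = (N.S ^ (-K)) x0 →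
      N.sz ((N.S ^ k) x0) ≤ N.D ^ (wl g + L) * N.sz x0 ∧
      N.cost x0 (-K) + (wl g * (N.D ^ wl g * N.sz ((N.S ^ k) x0))) + N.cost x0 k ≤
        2 * Cst + n * (N.D ^ n * (N.D ^ n * N.sz x0)) := by
    intro g K k L hL hK he
    have h1 : (N.S ^ k) x0 = (N.act ((g : G)⁻¹)).1 ((N.S ^ (-K)) x0) := by
      rw [act_inv_fst, ← he]
      exact (Equiv.symm_apply_apply _ _).symm
    have h2 : N.sz ((N.S ^ k) x0) ≤ N.D ^ (wl g + L) * N.sz x0 := by
      rw [h1]
      refine ((N.comb x0 (W_inv (W_wl g))).1 _).trans ?_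
      calc _ ≤ N.D ^ wl g * (N.D ^ L * N.sz x0) := Nat.mul_le_mul_left _ hK
        _ = _ := by ring
    have h3 : N.D ^ (wl g + L) * N.sz x0 ≤ N.D ^ n * N.sz x0 :=
      Nat.mul_le_mul_right _ (Nat.pow_le_pow_right hD hL)
    have h4 : N.D ^ L * N.sz x0 ≤ N.D ^ n * N.sz x0 :=
      Nat.mul_le_mul_right _ (Nat.pow_le_pow_right hD (by omega))
    refine ⟨h2, ?_⟩
    have h5 := hC _ (hK.trans h4)
    have h6 := hC _ (h2.trans h3)
    have h7 : wl g * (N.D ^ wl g * N.sz ((N.S ^ k) x0)) ≤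
        n * (N.D ^ n * (N.D ^ n * N.sz x0)) := by
      refine Nat.mul_le_mul (by omega) (Nat.mul_le_mul ?_ (h2.trans h3))
      exact Nat.pow_le_pow_right hD (by omega)
    omega
  set B := 2 * Cst + n * (N.D ^ n * (N.D ^ n * N.sz x0)) with hBdef
  have hsub : ∀ {g : G} {k : ℕ}, W (N.Y1 x0) g k → W (insert G.z (N.Y1 x0)) g k :=
    fun h => W_subset (Set.subset_insert _ _) h
  induction l with
  | nil =>
    intro g m h K L hl hm hh hhm e hK hL
    have e' : wprod (⟨G.s ^ K, zpow_mem s_mem K⟩ * g) ([] : List (ℤˣ × G1)) = wprod h m := by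
      rw [← e, wprod, wprod]; simp
    have hm0 : m = [] := by
      have := (britton (List.isChain_nil) hm e').1
      simpa using this.symm
    subst hm0
    have e2 : (h : G) = G.s ^ K * g * G.s ^ (0 : ℤ) := by
      rw [wprod, wprod] at e
      simpa using e.symm
    obtain ⟨h1, h2⟩ := N.block x0 hh e2
    have h3 := hB g K 0 L (by simp only [tot, List.map_nil, List.sum_nil] at hL; omega) hK h1
    have h4 : wprod h [] = (h : G) := by rw [wprod]; simp
    rw [h4]
    refine W_mono (hsub h2) ?_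
    simp only [List.length_nil, zero_add, one_mul, add_zero]
    exact h3.2
  | cons x l ih =>
    intro g m h K L hl hm hh hhm e hK hL
    have e' : wprod (⟨G.s ^ K, zpow_mem s_mem K⟩ * g) (x :: l) = wprod h m := by
      rw [← e, wprod, wprod]; simp [mul_assoc]
    obtain ⟨hf, hk⟩ := britton hl hm e'
    obtain ⟨k, hk⟩ := hk (by simp)
    obtain ⟨y, m', rfl⟩ : ∃ y m', m = y :: m' := by
      cases m with
      | nil => simp at hf
      | cons y m' => exact ⟨y, m', rfl⟩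
    simp only [List.map_cons, List.cons.injEq] at hf
    obtain ⟨hxy, -⟩ := hf
    have e2 : (h : G) = G.s ^ K * g * G.s ^ k := by
      have e5 : ((⟨G.s ^ K, zpow_mem s_mem K⟩ * g : G1) : G) = G.s ^ K * g := rfl
      rw [← hk, e5, mul_inv_cancel_left]
    obtain ⟨h1, h2⟩ := N.block x0 hh e2
    rw [tot_cons] at hL
    have h3 := hB g K k L (by omega) hK h1
    have e3 : G.s ^ (-k) * wprod x.2 l = wprod y.2 m' := by
      rw [wprod_cons, wprod_cons, e2, ← hxy] at e
      have h5 : Commute (G.s ^ k) (G.z ^ (x.1 : ℤ)) :=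
        ((show Commute G.s G.z from G.s_z).zpow_left k).zpow_right _
      have h6 : G.z ^ (x.1 : ℤ) * wprod x.2 l = G.s ^ k * (G.z ^ (x.1 : ℤ) * wprod y.2 m') := by
        have : G.s ^ K * (g : G) * (G.z ^ (x.1 : ℤ) * wprod x.2 l) =
            G.s ^ K * (g : G) * (G.s ^ k * (G.z ^ (x.1 : ℤ) * wprod y.2 m')) := by
          rw [mul_assoc, e]
          simp only [mul_assoc]
        exact mul_left_cancel this
      rw [← mul_assoc (G.s ^ k), h5.eq, mul_assoc] at h6
      rw [mul_left_cancel h6, zpow_neg, inv_mul_cancel_left]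
    have h7 := ih x.2 m' y.2 (-k) (wl g + L) (List.IsChain.tail hl) (List.IsChain.tail hm)
      (hhm y (List.mem_cons_self ..)) (fun z hz => hhm z (List.mem_cons_of_mem _ hz)) e3
      (by rw [neg_neg]; exact h3.1) (by omega)
    rw [wprod_cons]
    have h8 : W (insert G.z (N.Y1 x0)) (G.z ^ (y.1 : ℤ)) 1 := by
      rcases Int.units_eq_one_or y.1 with h | h
      · rw [h]
        exact W_of_mem (Or.inl (by simp))
      · rw [h]
        exact W_of_inv_mem (Or.inl (by simp))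
    refine W_mono (W_mul (hsub h2) (W_mul h8 h7)) ?_
    rw [List.length_cons]
    have h9 : (l.length + 1 + 1) * B + (l.length + 1) = B + (1 + ((l.length + 1) * B + l.length)) := by
      ring
    rw [h9]
    exact Nat.add_le_add_right h3.2 _

/-- **The upper bound.** If every power `s ^ K` for which `s ^ K x0` is at distance about `n` from
`x0` has cost at most `Cst`, then an element of `⟨Y1, z⟩` of length at most `n` in the letters
`t, s, z, a` has length at most `(n + 1) (2 Cst + n D ^ 2 n sz x0) + n` in the letters of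
`Y1 ∪ {z}`. -/
theorem upper {n Cst : ℕ}
    (hC : ∀ K : ℤ, N.sz ((N.S ^ K) x0) ≤ N.D ^ n * N.sz x0 → N.cost x0 K ≤ Cst)
    {g : G} (hg : W (insert G.z S1) g n) (hH : g ∈ Subgroup.closure (insert G.z (N.Y1 x0))) :
    W (insert G.z (N.Y1 x0)) g
      ((n + 1) * (2 * Cst + n * (N.D ^ n * (N.D ^ n * N.sz x0))) + n) := by
  obtain ⟨g0, l, h1, h2, -, -, h3⟩ := red_gen ⊤ wl wl_one wl_mul S1 (by
    rintro x (hx | hx)
    · exact ⟨Subgroup.subset_closure hx, trivial, wl_le (W_of_mem hx)⟩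
    · refine ⟨?_, trivial, wl_le (W_of_inv_mem hx)⟩
      have := inv_mem (Subgroup.subset_closure hx : x⁻¹ ∈ G1)
      rwa [inv_inv] at this) hg
  obtain ⟨j, hj⟩ := exists_W hH
  obtain ⟨h0, m, k1, k2, k3, k4, -⟩ := red_gen (N.St x0) (fun _ => 0) rfl (fun _ _ => le_refl _)
    (N.Y1 x0) (by
    rintro x (hx | hx)
    · exact ⟨N.Y1_subset x0 hx, N.act_Y1_fst x0 hx, Nat.zero_le _⟩
    · have h1 := inv_mem (N.Y1_subset x0 hx)
      rw [inv_inv] at h1
      refine ⟨h1, ?_, Nat.zero_le _⟩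
      have h2 : (⟨x⁻¹, N.Y1_subset x0 hx⟩ : G1) ∈ N.St x0 := N.act_Y1_fst x0 hx
      have h3 := inv_mem h2
      have h4 : (⟨x⁻¹, N.Y1_subset x0 hx⟩ : G1)⁻¹ = ⟨x, h1⟩ := by
        ext1
        simp
      rwa [h4] at h3) hj
  have h4 := N.upper_aux x0 n Cst hC l g0 m h0 0 0 h1 k1 k3 k4 (by simp [h2, k2]) (by simp)
    (by omega)
  rw [k2] at h4
  refine W_mono h4 ?_
  have h5 := length_le_tot wl l
  have h6 : l.length ≤ n := by omega
  exact Nat.add_le_add (Nat.mul_le_mul_right _ (by omega)) h6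

theorem closure_gen : Subgroup.closure (insert G.z S1) = (⊤ : Subgroup G) := by
  rw [eq_top_iff]
  intro g _
  have ht : G.t ∈ Subgroup.closure (insert G.z S1) :=
    Subgroup.subset_closure (Or.inr (Or.inl rfl))
  have hs : G.s ∈ Subgroup.closure (insert G.z S1) :=
    Subgroup.subset_closure (Or.inr (Or.inr (Or.inl rfl)))
  have ha : G.a ∈ Subgroup.closure (insert G.z S1) :=
    Subgroup.subset_closure (Or.inr (Or.inr (Or.inr rfl)))
  have hz : G.z ∈ Subgroup.closure (insert G.z S1) := Subgroup.subset_closure (Or.inl rfl)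
  have hw : G.w ∈ Subgroup.closure (insert G.z S1) := by
    have : G.w = G.t⁻¹ * G.s := by rw [G.s, inv_mul_cancel_left]
    rw [this]
    exact mul_mem (inv_mem ht) hs
  have ht' : G.t' ∈ Subgroup.closure (insert G.z S1) := by
    have e : G.s⁻¹ * G.t * G.s = G.t' := by rw [mul_assoc, ← G.s_t', inv_mul_cancel_left]
    rw [← e]
    exact mul_mem (mul_mem (inv_mem hs) ht) hs
  have hx : G.x ∈ Subgroup.closure (insert G.z S1) := by
    have : G.x = G.t⁻¹ * G.t' := by rw [G.t', inv_mul_cancel_left]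
    rw [this]
    exact mul_mem (inv_mem ht) ht'
  have hl : ∀ w : FreeGroup (Fin 4),
      (SemidirectProduct.inl w : G) ∈ Subgroup.closure (insert G.z S1) := by
    intro w
    induction w using FreeGroup.induction_on with
    | C1 => rw [map_one]; exact one_mem _
    | of i =>
      fin_cases i
      · exact hx
      · exact hw
      · exact hz
      · exact ha
    | inv_of i ih => rw [map_inv]; exact inv_mem ih
    | mul x y hx hy => rw [map_mul]; exact mul_mem hx hy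
  have hr : ∀ n : Multiplicative ℤ,
      (SemidirectProduct.inr n : G) ∈ Subgroup.closure (insert G.z S1) := by
    intro n
    have : (SemidirectProduct.inr n : G) = G.t ^ (Multiplicative.toAdd n) := by
      rw [G.t, ← map_zpow]
      congr 1
      rw [← ofAdd_zsmul]
      simp
    rw [this]
    exact zpow_mem ht _
  rw [← SemidirectProduct.inl_left_mul_inr_right g]
  exact mul_mem (hl _) (hr _)

end Net

end Pool.Agent.DIST
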